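import Pool.Agent.H13.Sp.XA
import Pool.Agent.H42.Sp.TieMem
import Pool.Agent.H13.R45.Mul3

set_option autoImplicit false
open Finset

/-! # The environment `XA`

`kd` : kind of a layer tile. `bt`, `ot` : inner and outer end of a kept tile of the kind `s` and the colour
`c`. `TieP D p s c u v` : the tile `(u, v)` is the kept tile of a tie of the kind `s` and the colour `c`.
`XA O p S` : the environment. `fmA` : arc of a tie (first position of the run of its outer neighbour),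
`bA`, `oA` : ends of a tie. `WlA` : wall of an arc: its fill tiles in the box (`L` : larger box for free arcs)
and the frozen tiles of its colour which touch them. `LaA` : layer: tiles of `P^p` at distance at most `m`
from the arc. -/

namespace Pool.Agent.H13.Sp

open Pool.Agent.H75.Perc Pool.Agent.H75.TwoArm Pool.Agent.Q1 Pool.Agent.H33.Q1
open Pool.Agent.H69.Q1
open Pool.Agent.H46.Sp Pool.Agent.H46.Sp.Win
open Pool.Agent.H74.Win Pool.Agent.H42.Sp
open Pool.Agent.H13.R45 (ev gp ev_true ev_false Tg)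
open Pool.Agent.H74.R45 (exists_lt)

variable {D : Win} {p : Bool} {x y u v : ℤ} {s : Sd} {c : Bool}

/-! ### Ties -/

/-- the inner end of a kept tile -/
def bt : Sd → Bool → ℤ × ℤ → ℤ × ℤ
  | .L, true, t => (t.1 + 1, t.2)
  | .L, false, t => (t.1 + 1, t.2 + 1)
  | .R, true, t => (t.1, t.2 + 1)
  | .R, false, t => (t.1, t.2)
  | .F, true, t => (t.1, t.2 + 1)
  | .F, false, t => (t.1 + 1, t.2 + 1)
  | .C, true, t => (t.1 + 1, t.2)
  | .C, false, t => (t.1, t.2)

/-- the outer end of a kept tile -/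
def ot (s : Sd) (c : Bool) (t : ℤ × ℤ) : ℤ × ℤ :=
  (2 * t.1 + 1 - (bt s c t).1, 2 * t.2 + 1 - (bt s c t).2)

/-- the tie point of a kept tile -/
def gt : Sd → Bool → ℤ × ℤ → ℤ × ℤ
  | .L, true, t => (t.1, t.2)
  | .L, false, t => (t.1, t.2 + 1)
  | .R, true, t => (t.1 + 1, t.2 + 1)
  | .R, false, t => (t.1 + 1, t.2)
  | .F, true, t => (t.1, t.2)
  | .F, false, t => (t.1 + 1, t.2)
  | .C, true, t => (t.1 + 1, t.2 + 1)
  | .C, false, t => (t.1, t.2 + 1)

/-- the tile `(u, v)` is the kept tile of a tie -/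
def TieP (D : Win) (p : Bool) (s : Sd) (c : Bool) (u v : ℤ) : Prop :=
  (u + v) % 2 = 1 ∧ CA D p (s, gt s c (u, v)) ∧
    (((gt s c (u, v)).1 + (gt s c (u, v)).2) % 2 = 1 ↔ c = true)

lemma kt_gt (h : (u + v) % 2 = 1) : kt (s, gt s c (u, v)) = (u, v) := by
  cases s <;> cases c <;> simp only [gt, kt] <;> split_ifs <;>
    first
    | rfl
    | (exfalso; omega)
    | (refine Prod.ext ?_ ?_ <;> simp only <;> omega)

lemma gt_kt (k : Ix) : gt k.1 (decide ((k.2.1 + k.2.2) % 2 = 1)) (kt k) = k.2 := by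
  obtain ⟨s, x, y⟩ := k
  by_cases h : (x + y) % 2 = 1
  · have hd : decide ((x + y) % 2 = 1) = true := decide_eq_true h
    simp only
    rw [hd]
    cases s <;> (unfold kt; simp only; rw [if_pos h]; unfold gt; simp)
  · have hd : decide ((x + y) % 2 = 1) = false := decide_eq_false h
    simp only
    rw [hd]
    cases s <;> (unfold kt; simp only; rw [if_neg h]; unfold gt; simp)

lemma KA_iff : KA D p x y ↔ ∃ s c, TieP D p s c x y := by
  constructor
  · rintro ⟨k, h1, h2⟩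
    refine ⟨k.1, decide ((k.2.1 + k.2.2) % 2 = 1), ?_, ?_, ?_⟩
    · have := kt_odd k
      rw [h2] at this; exact this
    · rw [← h2, gt_kt]; exact h1
    · rw [← h2, gt_kt, decide_eq_true_eq]
  · rintro ⟨s, c, h1, h2, -⟩
    exact ⟨_, h2, kt_gt h1⟩

/-- the colour of a tie -/
lemma TieP.par (h : TieP D p s c u v) : ((gt s c (u, v)).1 + (gt s c (u, v)).2) % 2 = 1 ↔ c = true :=
  h.2.2

lemma TieP.odd (h : TieP D p s c u v) : (u + v) % 2 = 1 := h.1

/-- the kept tile is a layer tile of the same kind -/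
lemma TieP.ly (h : TieP D p s c u v) : LyA D p s u v := by
  obtain ⟨h1, h2, h3⟩ := h
  cases s <;> cases c <;> simp only [gt, CA, add_sub_cancel_right] at h2 <;> tauto

/-- colour of the kept tile -/
lemma TieP.col (h : TieP D p s c u v) : natc D p u v = c := by
  obtain ⟨h1, h2, h3⟩ := h
  have key : natc D p u v = true ↔ c = true := by
    rw [← h3]
    cases s <;> cases c <;> simp only [gt, CA, Col4, add_sub_cancel_right] at h2 ⊢ <;> tauto
  revert key
  cases natc D p u v <;> cases c <;> simp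

/-- colour of the outer neighbour of the kept tile -/
lemma TieP.col_out (h : TieP D p s c u v) : natc D p (u - (dr s).1) (v - (dr s).2) = c := by
  obtain ⟨h1, h2, h3⟩ := h
  have key : natc D p (u - (dr s).1) (v - (dr s).2) = true ↔ c = true := by
    rw [← h3]
    cases s <;> cases c <;>
      simp only [gt, dr, CA, Col4, add_sub_cancel_right, sub_zero, sub_neg_eq_add] at h2 ⊢ <;> tauto
  revert key
  cases natc D p (u - (dr s).1) (v - (dr s).2) <;> cases c <;> simp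

open Classical in
/-- the kind of a layer tile -/
noncomputable def kd (D : Win) (p : Bool) (u v : ℤ) : Sd :=
  if InP D p (u + 1) v then .L else if InP D p (u - 1) v then .R
  else if InP D p u (v + 1) then .F else .C

lemma kd_eq (h : LyA D p s u v) : kd D p u v = s := by
  have hin := h.inn
  unfold kd
  cases s
  · simp only [dr, add_zero] at hin
    rw [if_pos hin]
  · simp only [dr, add_zero] at hin
    have h1 : ¬ InP D p (u + 1) v := by
      obtain ⟨k1, k2, k3, k4, k5⟩ := h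
      rw [inP_iff]; unfold PT; omega
    rw [if_neg h1, if_pos (by rw [sub_eq_add_neg]; exact hin)]
  · simp only [dr, add_zero] at hin
    obtain ⟨k1, k2, k3, k4, k5⟩ := h
    have h1 : ¬ InP D p (u + 1) v := by
      rw [inP_iff]; unfold PT
      intro h6
      have := k5 h6.1; omega
    have h2 : ¬ InP D p (u - 1) v := by
      rw [inP_iff]; unfold PT
      intro h6
      have := k5 h6.1; omega
    rw [if_neg h1, if_neg h2, if_pos hin]
  · have h3 := h.far
    obtain ⟨k1, k2, k3, k4, k5⟩ := h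
    have h1 : ¬ InP D p (u + 1) v := by
      rw [inP_iff]; unfold PT
      intro h6
      have := k5 h6.2.1; omega
    have h2 : ¬ InP D p (u - 1) v := by
      rw [inP_iff]; unfold PT
      intro h6
      have := k5 h6.2.1; omega
    simp only [dr, sub_zero, sub_neg_eq_add] at h3
    rw [if_neg h1, if_neg h2, if_neg h3.not_inP]

lemma TieP.inB (h : TieP D p s c u v) : InB D u v :=
  h.ly.inB (by omega) (by omega) (by omega) (by omega)

lemma mem_TA : lt (u, v) ∈ TA D p ↔ ∃ s c, TieP D p s c u v := by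
  unfold TA
  rw [mem_TB, KA_iff]
  exact ⟨fun h => h.2, fun h => ⟨by obtain ⟨s, c, h⟩ := h; exact h.inB, h⟩⟩

lemma odd_TA {e : ℤ × ℤ} (he : e ∈ TA D p) : (e.1 + e.2) % 2 = 1 := odd_TB he

lemma odd_EN {e : ℤ × ℤ} (he : e ∈ EN D p) : (e.1 + e.2) % 2 = 1 := odd_TB he

/-- a tie -/
lemma exists_tie {e : ℤ × ℤ} (he : e ∈ TA D p) : ∃ u v s c, e = lt (u, v) ∧ TieP D p s c u v := by
  obtain ⟨u, v, rfl⟩ := exists_lt (odd_TA he)
  obtain ⟨s, c, h⟩ := mem_TA.1 he
  exact ⟨u, v, s, c, rfl, h⟩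

/-! ### The environment -/

lemma Ring.inB (h : Ring D p x y) : InB D x y := by
  obtain ⟨⟨Z, h1, h2, h3, h4, h5, h6⟩, -⟩ := h
  have k1 := a_min (D := D) h3 h4
  have k2 := b_max (D := D) h3 h4
  have k3 := sh_nonneg p
  have k4 := sh_le p
  unfold InB
  omega

lemma mem_FR : lt (x, y) ∈ FR D p ↔ FRt D p x y := by
  unfold FR
  rw [mem_TB]
  exact ⟨fun h => h.2, fun h => ⟨h.1.inB, h⟩⟩

lemma odd_FR {e : ℤ × ℤ} (he : e ∈ FR D p) : (e.1 + e.2) % 2 = 1 := odd_TB he

lemma mem_EA : lt (x, y) ∈ EA D p ↔ InP D p x y ∨ ∃ s c, TieP D p s c x y := by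
  unfold EA
  rw [mem_union, mem_EN, mem_TA]

lemma odd_EA {e : ℤ × ℤ} (he : e ∈ EA D p) : (e.1 + e.2) % 2 = 1 := by
  rcases mem_union.1 he with h | h
  · exact odd_EN h
  · exact odd_TA h

/-- the tie points are between two layer tiles -/
lemma CA.rt_ly {k : Ix} (h : CA D p k) : LyA D p k.1 (rt k).1 (rt k).2 := by
  obtain ⟨s, x, y⟩ := k
  cases s <;> simp only [rt, CA] at h ⊢ <;> split_ifs <;> simp only <;> tauto

lemma CA.kt_ly {k : Ix} (h : CA D p k) : LyA D p k.1 (kt k).1 (kt k).2 := by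
  obtain ⟨s, x, y⟩ := k
  cases s <;> simp only [kt, CA] at h ⊢ <;> split_ifs <;> simp only <;> tauto

lemma RO'.ly (h : RO' D p x y) : ∃ s, LyA D p s x y := by
  obtain ⟨k, h1, h2, -⟩ := h
  refine ⟨k.1, ?_⟩
  have := h1.rt_ly
  rwa [h2] at this

lemma RO'.even (h : RO' D p x y) : (x + y) % 2 = 0 := by
  obtain ⟨k, h1, h2, -⟩ := h
  have := rt_even k
  rwa [h2] at this

lemma mem_WAb : lt (x, y) ∈ WAb D p ↔
    (InB D x y ∧ Fill D p x y ∧ natc D p x y = true) ∨ RO' D p x y := by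
  unfold WAb
  rw [mem_TB]
  constructor
  · rintro ⟨h1, h2 | h2⟩
    · exact Or.inl ⟨h1, h2⟩
    · exact Or.inr h2
  · rintro (h | h)
    · exact ⟨h.1, Or.inl h.2⟩
    · obtain ⟨s, hs⟩ := h.ly
      exact ⟨hs.inB (by omega) (by omega) (by omega) (by omega), Or.inr h⟩

lemma odd_WAb {e : ℤ × ℤ} (he : e ∈ WAb D p) : (e.1 + e.2) % 2 = 1 := odd_TB he

variable {O : OutB D} {S : Finset (ℤ × ℤ)}

lemma mem_WA : lt (x, y) ∈ WA O p S ↔ (InB D x y ∧ Fill D p x y ∧ natc D p x y = true) ∨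
    RO' D p x y ∨ lt (x, y) ∈ S ∨ lt (x, y) ∈ O.Wo := by
  unfold WA
  rw [mem_union, mem_union, mem_WAb]
  tauto

lemma disj_EWA (O : OutB D) (hS : S ⊆ FR D p) : Disjoint (EA D p) (WA O p S) := by
  rw [disjoint_left]
  intro e he he'
  obtain ⟨x, y, rfl⟩ := exists_lt (odd_EA he)
  rw [mem_EA] at he
  have hB : InB D x y := by
    rcases he with h | ⟨s, c, h⟩
    · exact h.inB
    · exact h.inB
  rcases mem_WA.1 he' with ⟨-, h, -⟩ | h | h | h
  · rcases he with k | ⟨s, c, k⟩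
    · exact h.not_inP k
    · exact h k.ly.near
  · obtain ⟨s', hs⟩ := h.ly
    rcases he with k | ⟨s, c, k⟩
    · exact hs.out k
    · have := k.odd
      have := h.even
      omega
  · have h2 := mem_FR.1 (hS h)
    rcases he with k | k
    · exact h2.1.2 k
    · exact h2.2.1 (KA_iff.2 k)
  · exact O.far x y h hB

lemma EA_sub : EA D p ⊆ GB D := union_subset TB_sub TB_sub

lemma EWA_sub (O : OutB D) (hS : S ⊆ FR D p) : EA D p ∪ WA O p S ⊆ GB D ∪ O.Wo := by
  refine union_subset (EA_sub.trans subset_union_left) ?_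
  unfold WA
  refine union_subset (union_subset (TB_sub.trans subset_union_left) ?_) subset_union_right
  exact (hS.trans TB_sub).trans subset_union_left

/-- **The natural window `P^p` with ties on all its walls and the frozen tiles `S` open.** -/
noncomputable def XA (O : OutB D) (p : Bool) (S : Finset (ℤ × ℤ)) (hS : S ⊆ FR D p) : Env :=
  Env.plane (EA D p) (WA O p S) O.c0 O.k0 O.g (fun _ he => odd_EA he) (disj_EWA O hS) O.hk
    (fun h => O.hroot (EA_sub h)) (O.hg.anti (EWA_sub O hS))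
    (fun v hv => O.hlow v (hv.mono (EWA_sub O hS)))

variable {hS : S ⊆ FR D p}

@[simp] lemma XA_E : (XA O p S hS).E = EA D p := rfl
@[simp] lemma XA_c0 : (XA O p S hS).c0 = O.c0 := rfl
@[simp] lemma XA_k0 : (XA O p S hS).k0 = O.k0 := rfl
@[simp] lemma XA_T : (XA O p S hS).T = 4 := rfl

lemma XA_planeLike : (XA O p S hS).PlaneLike (WA O p S) := Env.planeLike_plane

/-! ### Families, ends, walls and layers -/

/-- the arc of a tile outside of `P^p` -/
def arc (D : Win) (p : Bool) (s0 x y : ℤ) : ℤ := rep D s0 (ps D p x y)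

lemma colp_arc {s0 : ℤ} : colp D (arc D p s0 x y) = natc D p x y := by
  unfold arc; rw [colp_rep, colp_ps]

/-- the arc of a tie -/
noncomputable def fmA (D : Win) (p : Bool) (s0 : ℤ) (e : ℤ × ℤ) : ℤ :=
  arc D p s0 ((tt e).1 - (dr (kd D p (tt e).1 (tt e).2)).1) ((tt e).2 - (dr (kd D p (tt e).1 (tt e).2)).2)

/-- the inner end of a tie -/
noncomputable def bA (D : Win) (p : Bool) (e : ℤ × ℤ) : ℤ × ℤ :=
  gp (bt (kd D p (tt e).1 (tt e).2) (natc D p (tt e).1 (tt e).2) (tt e))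

/-- the outer end of a tie -/
noncomputable def oA (D : Win) (p : Bool) (e : ℤ × ℤ) : ℤ × ℤ :=
  gp (ot (kd D p (tt e).1 (tt e).2) (natc D p (tt e).1 (tt e).2) (tt e))

lemma TieP.fm {s0 : ℤ} (h : TieP D p s c u v) :
    fmA D p s0 (lt (u, v)) = arc D p s0 (u - (dr s).1) (v - (dr s).2) := by
  unfold fmA; rw [tt_lt]; simp only; rw [kd_eq h.ly]

lemma TieP.b (h : TieP D p s c u v) : bA D p (lt (u, v)) = gp (bt s c (u, v)) := by
  unfold bA; rw [tt_lt]; simp only; rw [kd_eq h.ly, h.col]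

lemma TieP.o (h : TieP D p s c u v) : oA D p (lt (u, v)) = gp (ot s c (u, v)) := by
  unfold oA; rw [tt_lt]; simp only; rw [kd_eq h.ly, h.col]

lemma TieP.co {s0 : ℤ} (h : TieP D p s c u v) : colp D (fmA D p s0 (lt (u, v))) = c := by
  rw [h.fm, colp_arc, h.col_out]

/-- the large box of half size `L` -/
def InL (D : Win) (L x y : ℤ) : Prop :=
  D.a (D.yP - 1) - L < x ∧ x < D.b D.yQ + L ∧ -L < y ∧ y < D.h + L

open Classical in
/-- labels of the tiles of the large box -/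
noncomputable def TL (D : Win) (L : ℤ) (P : ℤ → ℤ → Prop) : Finset (ℤ × ℤ) :=
  ((Icc (D.a (D.yP - 1) - L + 1) (D.b D.yQ + L - 1) ×ˢ Icc (-L + 1) (D.h + L - 1)).filter
    fun t => P t.1 t.2).image lt

lemma mem_TL {L : ℤ} {P : ℤ → ℤ → Prop} : lt (x, y) ∈ TL D L P ↔ InL D L x y ∧ P x y := by
  classical
  unfold TL InL
  simp only [mem_image, mem_filter, mem_product, mem_Icc, Prod.exists]
  constructor
  · rintro ⟨x', y', ⟨⟨⟨h1, h2⟩, h3, h4⟩, h5⟩, h6⟩
    have := lt_inj h6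
    simp only [Prod.mk.injEq] at this
    obtain ⟨rfl, rfl⟩ := this
    exact ⟨⟨by omega, by omega, by omega, by omega⟩, h5⟩
  · rintro ⟨⟨h1, h2, h3, h4⟩, h5⟩
    exact ⟨x, y, ⟨⟨⟨by omega, by omega⟩, by omega, by omega⟩, h5⟩, rfl⟩

lemma odd_TL {L : ℤ} {P : ℤ → ℤ → Prop} {e : ℤ × ℤ} (he : e ∈ TL D L P) : (e.1 + e.2) % 2 = 1 := by
  classical
  unfold TL at he
  simp only [mem_image] at he
  obtain ⟨t, -, rfl⟩ := he
  exact lt_odd t

lemma InL_of_InB {L : ℤ} (hL : 5 ≤ L) (h : InB D x y) : InL D L x y := by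
  unfold InB at h
  unfold InL
  omega

/-- fill tiles of the wall of the arc `i` -/
def FiA (D : Win) (p : Bool) (s0 L i x y : ℤ) : Prop :=
  InL D L x y ∧ Fill D p x y ∧ arc D p s0 x y = i ∧ (colp D i = true → InB D x y)

/-- the point is on the boundary of the tile -/
def OnT (g : ℤ × ℤ) (x y : ℤ) : Prop := (x ≤ g.1 ∧ g.1 ≤ x + 1) ∧ y ≤ g.2 ∧ g.2 ≤ y + 1

/-- frozen tiles of the wall of the arc `i` -/
def FzA (D : Win) (p : Bool) (s0 L : ℤ) (S : Finset (ℤ × ℤ)) (i x y : ℤ) : Prop :=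
  FRt D p x y ∧ (lt (x, y) ∈ S ↔ colp D i = true) ∧
    ∃ g, ev g = colp D i ∧ OnT g x y ∧ ∃ x' y', FiA D p s0 L i x' y' ∧ OnT g x' y'

/-- the wall of the arc `i` -/
noncomputable def WlA (D : Win) (p : Bool) (s0 L : ℤ) (S : Finset (ℤ × ℤ)) (i : ℤ) : Finset (ℤ × ℤ) :=
  TL D L fun x y => FiA D p s0 L i x y ∨ FzA D p s0 L S i x y

/-- the tile of `P^p` is at distance at most `m` from the arc `i` -/
def NearA (D : Win) (p : Bool) (s0 m i x y : ℤ) : Prop :=
  ∃ u v, ¬ InP D p u v ∧ arc D p s0 u v = i ∧ x ≤ u + m ∧ u ≤ x + m ∧ y ≤ v + m ∧ v ≤ y + m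

/-- the layer of the arc `i` -/
noncomputable def LaA (D : Win) (p : Bool) (s0 m i : ℤ) : Finset (ℤ × ℤ) :=
  TB D fun x y => InP D p x y ∧ NearA D p s0 m i x y

/-- the tiles of `P^p` at distance at most `m` from the boundary -/
noncomputable def LBA (D : Win) (p : Bool) (m : ℤ) : Finset (ℤ × ℤ) :=
  TB D fun x y => InP D p x y ∧
    ∃ u v, ¬ InP D p u v ∧ x ≤ u + m ∧ u ≤ x + m ∧ y ≤ v + m ∧ v ≤ y + m

lemma mem_LaA {s0 m i : ℤ} : lt (x, y) ∈ LaA D p s0 m i ↔ InP D p x y ∧ NearA D p s0 m i x y := by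
  unfold LaA
  rw [mem_TB]
  exact ⟨fun h => h.2, fun h => ⟨h.1.inB, h⟩⟩

lemma mem_LBA {m : ℤ} : lt (x, y) ∈ LBA D p m ↔ InP D p x y ∧
    ∃ u v, ¬ InP D p u v ∧ x ≤ u + m ∧ u ≤ x + m ∧ y ≤ v + m ∧ v ≤ y + m := by
  unfold LBA
  rw [mem_TB]
  exact ⟨fun h => h.2, fun h => ⟨h.1.inB, h⟩⟩

lemma mem_WlA {s0 L i : ℤ} (hL : 5 ≤ L) : lt (x, y) ∈ WlA D p s0 L S i ↔
    FiA D p s0 L i x y ∨ FzA D p s0 L S i x y := by
  unfold WlA
  rw [mem_TL]
  refine ⟨fun h => h.2, fun h => ⟨?_, h⟩⟩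
  rcases h with h | h
  · exact h.1
  · exact InL_of_InB hL h.1.1.inB

end Pool.Agent.H13.Sp
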