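import Pool.Agent.H46.Sp.GateC
import Pool.Agent.H31.Sp.Edge

set_option autoImplicit false
open Finset

/-! # The arcs of the layer tiles of a coarse window

`posL`, `posR` : all positions of one row of cells are in one arc. `lyL_arc`, `lyR_arc`, `lyF_arc`, `lyC_arc` :
the layer tiles of the four kinds, the cells beside them and their arc. -/

namespace Pool.Agent.H13.Sp

open Pool.Agent.H75.Perc Pool.Agent.H75.TwoArm Pool.Agent.Q1 Pool.Agent.H33.Q1
open Pool.Agent.H69.Q1
open Pool.Agent.H46.Sp Pool.Agent.H46.Sp.Win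
open Pool.Agent.H74.Win (InP natc sh sh_cases sh_nonneg sh_le)
open Pool.Agent.H42.Sp
open Pool.Agent.H31.Sp (Coarse CoarseC CQ aL aR aB aT hA)
open Pool.Agent.H46.Sp.CG (dv dv_eq ab_mid AB_n row_h)

variable {D : Win} {n H : ℤ} {A B : ℤ → ℤ} {YP YQ : ℤ} {CL CR : ℤ → Bool} {p : Bool}
  {s0 x y z X Y V u v i : ℤ}

/-! ### Division -/

lemma lt_mul {a b : ℤ} (hn : 0 < n) (h : a < b) : n * a + n ≤ n * b := by
  have : n * (a + 1) ≤ n * b := mul_le_mul_of_nonneg_left (by omega) hn.le
  linarith

lemma lt_of_mul {a b : ℤ} (hn : 0 < n) (h : n * a < n * b) : a < b := lt_of_mul_lt_mul_left h hn.le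

/-- the next row -/
lemma div_succ (hn : 0 < n) (y : ℤ) :
    (n * (y / n) + n = y + 1 ∧ (y + 1) / n = y / n + 1) ∨ (y + 1 < n * (y / n) + n ∧ (y + 1) / n = y / n) := by
  obtain ⟨h1, h2, -⟩ := dv hn y
  by_cases h : n * (y / n) + n = y + 1
  · exact Or.inl ⟨h, dv_eq hn (by linarith [show n * (y / n + 1) = n * (y / n) + n by ring])
      (by linarith [show n * (y / n + 1) = n * (y / n) + n by ring])⟩
  · exact Or.inr ⟨by omega, dv_eq hn (by omega) (by omega)⟩

/-! ### Chains of positions -/

lemma chainL (hcut : colp D (s0 - 1) ≠ colp D s0) (h0 : -1 ≤ y) (k : ℕ) (h1 : y + k < D.h)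
    (hc : ∀ v, y ≤ v → v < y + k → D.cl v = D.cl (v + 1)) :
    rep D s0 (2 * D.h + 2 - (y + k)) = rep D s0 (2 * D.h + 2 - y) := by
  induction k with
  | zero => simp
  | succ k ih =>
    push_cast at h1 hc ⊢
    rw [← ih (by omega) fun v h2 h3 => hc v h2 (by omega)]
    have e2 : 2 * D.h + 2 - (y + (k : ℤ)) = 2 * D.h + 2 - (y + (k + 1)) + 1 := by ring
    rw [e2, rep_adj hcut]
    rw [← e2, colp_left (by omega) (by omega), colp_left (by omega) (by omega), ← add_assoc]
    exact (hc _ (by omega) (by omega)).symm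

lemma chainR (hcut : colp D (s0 - 1) ≠ colp D s0) (h0 : -1 ≤ y) (k : ℕ) (h1 : y + k < D.h)
    (hc : ∀ v, y ≤ v → v < y + k → D.cr v = D.cr (v + 1)) :
    rep D s0 (y + k + 2) = rep D s0 (y + 2) := by
  induction k with
  | zero => simp
  | succ k ih =>
    push_cast at h1 hc ⊢
    rw [← ih (by omega) fun v h2 h3 => hc v h2 (by omega)]
    have e2 : y + ((k : ℤ) + 1) + 2 = y + k + 2 + 1 := by ring
    rw [e2, rep_adj hcut]
    rw [show y + (k : ℤ) + 2 + 1 = (y + k + 1) + 2 by ring, colp_right (by omega) (by omega),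
      colp_right (by omega) (by omega)]
    exact hc _ (by omega) (by omega)

/-- two rows -/
lemma chainL' (hcut : colp D (s0 - 1) ≠ colp D s0) (h0 : -1 ≤ y) (hyz : y ≤ z) (h1 : z < D.h)
    (hc : ∀ v, y ≤ v → v < z → D.cl v = D.cl (v + 1)) :
    rep D s0 (2 * D.h + 2 - z) = rep D s0 (2 * D.h + 2 - y) := by
  have := chainL hcut h0 (z - y).toNat (by omega) fun v h2 h3 => hc v h2 (by omega)
  rwa [show y + ((z - y).toNat : ℤ) = z by omega] at this

lemma chainR' (hcut : colp D (s0 - 1) ≠ colp D s0) (h0 : -1 ≤ y) (hyz : y ≤ z) (h1 : z < D.h)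
    (hc : ∀ v, y ≤ v → v < z → D.cr v = D.cr (v + 1)) :
    rep D s0 (z + 2) = rep D s0 (y + 2) := by
  have := chainR hcut h0 (z - y).toNat (by omega) fun v h2 h3 => hc v h2 (by omega)
  rwa [show y + ((z - y).toNat : ℤ) = z by omega] at this

/-- the row of cells of the left position of the row `y` -/
def rL (D : Win) (n y : ℤ) : ℤ := if y + 1 < D.yP then (y + 1) / n else y / n

/-- the row of cells of the right position of the row `y` -/
def rR (D : Win) (n y : ℤ) : ℤ := if y < D.yQ then (y + 1) / n else y / n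

/-- the arc at the left of the row `Y` of cells -/
def arL (D : Win) (n s0 Y : ℤ) : ℤ := rep D s0 (2 * D.h + 2 - (n * Y + 1))

/-- the arc at the right of the row `Y` of cells -/
def arR (D : Win) (n s0 Y : ℤ) : ℤ := rep D s0 (n * Y + 1 + 2)

lemma rL_mono (hn : 0 < n) (h : y ≤ z) : rL D n y ≤ rL D n z := by
  unfold rL
  split_ifs
  · exact Int.ediv_le_ediv hn (by omega)
  · exact Int.ediv_le_ediv hn (by omega)
  · exact Int.ediv_le_ediv hn (by omega)
  · exact Int.ediv_le_ediv hn (by omega)

lemma rR_mono (hn : 0 < n) (h : y ≤ z) : rR D n y ≤ rR D n z := by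
  unfold rR
  split_ifs
  · exact Int.ediv_le_ediv hn (by omega)
  · exact Int.ediv_le_ediv hn (by omega)
  · exact Int.ediv_le_ediv hn (by omega)
  · exact Int.ediv_le_ediv hn (by omega)

section CC

variable (hC : CoarseC D n H A B YP YQ CL CR)

include hC

lemma rL_rng (h0 : -1 ≤ y) (h1 : y < D.h) : 0 ≤ rL D n y ∧ rL D n y < H := by
  have hP0 := D.P0
  have hP1 := D.P1
  unfold rL
  split_ifs with h
  · exact hC.toCoarse.row (by omega) (by omega)
  · exact hC.toCoarse.row (by omega) (by omega)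

lemma rR_rng (h0 : -1 ≤ y) (h1 : y < D.h) : 0 ≤ rR D n y ∧ rR D n y < H := by
  have hP0 := D.Q0
  have hP1 := D.Q1
  unfold rR
  split_ifs with h
  · exact hC.toCoarse.row (by omega) (by omega)
  · exact hC.toCoarse.row (by omega) (by omega)

/-- **The left positions of one row of cells.** -/
theorem posL (hcut : colp D (s0 - 1) ≠ colp D s0) (h0 : -1 ≤ y) (h1 : y < D.h) :
    rep D s0 (2 * D.h + 2 - y) = arL D n s0 (rL D n y) := by
  have hn := hC.toCoarse.pos
  have hn8 := hC.toCoarse.hn
  obtain ⟨h2, h3⟩ := rL_rng hC h0 h1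
  obtain ⟨h4, h5⟩ := row_h hC.toCoarse h2 h3
  set Y := rL D n y with hY
  have e : rL D n (n * Y + 1) = Y := by
    unfold rL
    split_ifs <;> exact dv_eq hn (by omega) (by omega)
  unfold arL
  have col : ∀ a b : ℤ, -1 ≤ a → b < D.h → a ≤ b → rL D n a = Y → rL D n b = Y →
      rep D s0 (2 * D.h + 2 - b) = rep D s0 (2 * D.h + 2 - a) := by
    intro a b k1 k2 k3 k4 k5
    refine chainL' hcut k1 k3 k2 fun v h6 h7 => ?_
    rw [hC.cl v (by omega) (by omega), hC.cl (v + 1) (by omega) (by omega)]
    have e1 : rL D n v = Y := le_antisymm (k5 ▸ rL_mono hn (by omega)) (k4 ▸ rL_mono hn (by omega))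
    have e2 : rL D n (v + 1) = Y := le_antisymm (k5 ▸ rL_mono hn (by omega)) (k4 ▸ rL_mono hn (by omega))
    unfold rL at e1 e2
    have g1 : (if v + 1 < D.yP then CL ((v + 1) / n) else CL (v / n)) =
        CL (if v + 1 < D.yP then (v + 1) / n else v / n) := by split_ifs <;> rfl
    have g2 : (if v + 1 + 1 < D.yP then CL ((v + 1 + 1) / n) else CL ((v + 1) / n)) =
        CL (if v + 1 + 1 < D.yP then (v + 1 + 1) / n else (v + 1) / n) := by split_ifs <;> rfl
    rw [g1, g2, e1, e2]
  rcases le_total y (n * Y + 1) with h6 | h6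
  · exact (col y (n * Y + 1) h0 (by omega) h6 rfl e).symm
  · exact col (n * Y + 1) y (by omega) h1 h6 e rfl

/-- **The right positions of one row of cells.** -/
theorem posR (hcut : colp D (s0 - 1) ≠ colp D s0) (h0 : -1 ≤ y) (h1 : y < D.h) :
    rep D s0 (y + 2) = arR D n s0 (rR D n y) := by
  have hn := hC.toCoarse.pos
  have hn8 := hC.toCoarse.hn
  obtain ⟨h2, h3⟩ := rR_rng hC h0 h1
  obtain ⟨h4, h5⟩ := row_h hC.toCoarse h2 h3
  set Y := rR D n y with hY
  have e : rR D n (n * Y + 1) = Y := by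
    unfold rR
    split_ifs <;> exact dv_eq hn (by omega) (by omega)
  unfold arR
  have col : ∀ a b : ℤ, -1 ≤ a → b < D.h → a ≤ b → rR D n a = Y → rR D n b = Y →
      rep D s0 (b + 2) = rep D s0 (a + 2) := by
    intro a b k1 k2 k3 k4 k5
    refine chainR' hcut k1 k3 k2 fun v h6 h7 => ?_
    rw [hC.cr v (by omega) (by omega), hC.cr (v + 1) (by omega) (by omega)]
    have e1 : rR D n v = Y := le_antisymm (k5 ▸ rR_mono hn (by omega)) (k4 ▸ rR_mono hn (by omega))
    have e2 : rR D n (v + 1) = Y := le_antisymm (k5 ▸ rR_mono hn (by omega)) (k4 ▸ rR_mono hn (by omega))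
    unfold rR at e1 e2
    have g1 : (if v < D.yQ then CR ((v + 1) / n) else CR (v / n)) =
        CR (if v < D.yQ then (v + 1) / n else v / n) := by split_ifs <;> rfl
    have g2 : (if v + 1 < D.yQ then CR ((v + 1 + 1) / n) else CR ((v + 1) / n)) =
        CR (if v + 1 < D.yQ then (v + 1 + 1) / n else (v + 1) / n) := by split_ifs <;> rfl
    rw [g1, g2, e1, e2]
  rcases le_total y (n * Y + 1) with h6 | h6
  · exact (col y (n * Y + 1) h0 (by omega) h6 rfl e).symm
  · exact col (n * Y + 1) y (by omega) h1 h6 e rfl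

end CC

section C

variable (C : Coarse D n H A B)

include C

/-- a straight part of the left side -/
theorem arL_succ (hcut : colp D (s0 - 1) ≠ colp D s0) (h0 : 0 ≤ Y) (h1 : Y + 1 < H) (hA : A Y = A (Y + 1)) :
    arL D n s0 (Y + 1) = arL D n s0 Y := by
  have hn := C.pos
  have hn8 := C.hn
  obtain ⟨h4, h5⟩ := row_h C (Y := Y + 1) (by omega) h1
  have e3 : n * (Y + 1) = n * Y + n := by ring
  have h6 : 0 ≤ n * Y := mul_nonneg hn.le h0
  have key : ∀ v, n * Y + 1 ≤ v → v ≤ n * Y + 1 + n + 1 → D.a v = n * A Y := by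
    intro v k1 k2
    obtain ⟨d1, d2, d3⟩ := dv hn v
    by_cases c : v < n * Y + n
    · have e : v / n = Y := dv_eq hn (by omega) (by omega)
      rcases C.a v (by omega) (by omega) with g | ⟨g, g' | g'⟩
      · rw [g, e]
      · rw [e] at g'; omega
      · rw [e] at g' d3; omega
    · have e : v / n = Y + 1 := dv_eq hn (by omega) (by omega)
      rcases C.a v (by omega) (by omega) with g | ⟨g, g' | g'⟩
      · rw [g, e, hA]
      · rw [e] at g' d3; omega
      · rw [e, add_sub_cancel_right] at g'; omega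
  have := rep_left hcut (A := n * A Y) (w := n * Y + 1) (by omega) n.toNat (by omega) fun v k1 k2 =>
    key v k1 (by omega)
  unfold arL
  rw [show n * (Y + 1) + 1 = n * Y + 1 + (n.toNat : ℤ) by rw [Int.toNat_of_nonneg hn.le]; ring]
  exact this

/-- a straight part of the right side -/
theorem arR_succ (hcut : colp D (s0 - 1) ≠ colp D s0) (h0 : 0 ≤ Y) (h1 : Y + 1 < H) (hB : B Y = B (Y + 1)) :
    arR D n s0 (Y + 1) = arR D n s0 Y := by
  have hn := C.pos
  have hn8 := C.hn
  obtain ⟨h4, h5⟩ := row_h C (Y := Y + 1) (by omega) h1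
  have e3 : n * (Y + 1) = n * Y + n := by ring
  have h6 : 0 ≤ n * Y := mul_nonneg hn.le h0
  have key : ∀ v, n * Y + 1 ≤ v → v ≤ n * Y + 1 + n + 1 → D.b v = n * B Y := by
    intro v k1 k2
    obtain ⟨d1, d2, d3⟩ := dv hn v
    by_cases c : v < n * Y + n
    · have e : v / n = Y := dv_eq hn (by omega) (by omega)
      rcases C.b v (by omega) (by omega) with g | ⟨g, g' | g'⟩
      · rw [g, e]
      · rw [e] at g'; omega
      · rw [e] at g' d3; omega
    · have e : v / n = Y + 1 := dv_eq hn (by omega) (by omega)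
      rcases C.b v (by omega) (by omega) with g | ⟨g, g' | g'⟩
      · rw [g, e, hB]
      · rw [e] at g' d3; omega
      · rw [e, add_sub_cancel_right] at g'; omega
  have := rep_right hcut (B := n * B Y) (w := n * Y + 1) (by omega) n.toNat (by omega) fun v k1 k2 =>
    key v k1 (by omega)
  unfold arR
  rw [show n * (Y + 1) + 1 = n * Y + 1 + (n.toNat : ℤ) by rw [Int.toNat_of_nonneg hn.le]; ring]
  exact this

end C

/-! ### Layer tiles -/

lemma eq_of_mul {a b : ℤ} (hn : 2 ≤ n) (h : n * a = n * b ∨ n * a = n * b - 1 ∨ n * a = n * b + 1) : a = b := by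
  rcases lt_trichotomy a b with h1 | h1 | h1
  · have := lt_mul (n := n) (by omega) h1; omega
  · exact h1
  · have := lt_mul (n := n) (by omega) h1; omega

lemma ps_mid_false (h0 : -1 ≤ y) (h1 : y < D.h) (hm : D.m y ≤ x) (hM : x < D.M y) :
    ps D false x y = if y = -1 then 0 else if x < D.a y then 2 * D.h + 3 - y else y + 1 := by
  unfold ps
  rw [if_neg (by omega), if_neg (by omega), if_neg (by omega), if_neg (by omega), if_neg (by simp)]

lemma ps_mid_true (h0 : -1 ≤ y) (h1 : y < D.h) (hm : D.m y ≤ x) (hM : x < D.M y) :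
    ps D true x y = if y = D.h - 1 then D.h + 2 else if x < D.a (y + 1) then 2 * D.h + 1 - y else y + 3 := by
  unfold ps
  rw [if_neg (by omega), if_neg (by omega), if_neg (by omega), if_neg (by omega), if_pos rfl]

section C2

variable (C : Coarse D n H A B)

include C

/-- the ends of the rows which are not next to a side of the cells -/
lemma a_in (h0 : 0 ≤ y) (h1 : y < D.h) (h2 : n * (y / n) < y) (h3 : y + 1 < n * (y / n) + n) :
    D.a y = n * A (y / n) ∧ D.b y = n * B (y / n) := by
  obtain ⟨h4, h5⟩ := C.row h0 h1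
  exact ab_mid C h4 h5 h2 h3

lemma lyL_a (h : LyP D .L u V) : D.a V = n * A (V / n) := by
  obtain ⟨h0, h1, h2, h3, h4⟩ := h
  have hn := C.pos
  have hn8 := C.hn
  obtain ⟨d1, d2, d3⟩ := dv hn V
  rcases C.a V h0 h1 with g | ⟨g, ⟨g1, g2, g3⟩ | ⟨g1, g2, g3⟩⟩
  · exact g
  · exfalso
    have k := lt_mul hn g3
    rcases div_succ hn V with ⟨e1, e2⟩ | ⟨e1, e2⟩
    · have hV : V + 1 < D.h := by
        have hh := C.hh
        have := lt_mul hn g2
        have : n * (V / n + 1) = n * (V / n) + n := by ring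
        omega
      have k2 := (C.a_le (y := V + 1) (by omega) hV).2
      rw [e2] at k2
      have := h4 hV
      omega
    · omega
  · exfalso
    have k := lt_mul hn g3
    have e : (V - 1) / n = V / n - 1 := by
      refine dv_eq hn ?_ ?_
      · rw [mul_sub]; omega
      · rw [mul_sub]; omega
    have hV : 1 ≤ V := by
      have := lt_mul hn g2
      omega
    have k2 := (C.a_le (y := V - 1) (by omega) (by omega)).2
    rw [e] at k2
    have := h3 hV
    omega

lemma lyR_b (h : LyP D .R u V) : D.b V = n * B (V / n) := by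
  obtain ⟨h0, h1, h2, h3, h4⟩ := h
  have hn := C.pos
  have hn8 := C.hn
  obtain ⟨d1, d2, d3⟩ := dv hn V
  rcases C.b V h0 h1 with g | ⟨g, ⟨g1, g2, g3⟩ | ⟨g1, g2, g3⟩⟩
  · exact g
  · exfalso
    have k := lt_mul hn g3
    rcases div_succ hn V with ⟨e1, e2⟩ | ⟨e1, e2⟩
    · have hV : V + 1 < D.h := by
        have hh := C.hh
        have := lt_mul hn g2
        have : n * (V / n + 1) = n * (V / n) + n := by ring
        omega
      have k2 := (C.le_b (y := V + 1) (by omega) hV).1
      rw [e2] at k2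
      have := h4 hV
      omega
    · omega
  · exfalso
    have k := lt_mul hn g3
    have e : (V - 1) / n = V / n - 1 := by
      refine dv_eq hn ?_ ?_
      · rw [mul_sub]; omega
      · rw [mul_sub]; omega
    have hV : 1 ≤ V := by
      have := lt_mul hn g2
      omega
    have k2 := (C.le_b (y := V - 1) (by omega) (by omega)).1
    rw [e] at k2
    have := h3 hV
    omega

end C2

section CC2

variable (hC : CoarseC D n H A B YP YQ CL CR)

include hC

lemma rowL_ly (hcut : colp D (s0 - 1) ≠ colp D s0) (h : LyP D .L u V) (hv : V = v ∨ V = v + 1) :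
    u < D.m v ∧ arL D n s0 (rL D n v) = arL D n s0 (V / n) := by
  have C := hC.toCoarse
  have hn := C.pos
  have hn8 := C.hn
  have ha := lyL_a C h
  obtain ⟨h0, h1, h2, h3, h4⟩ := h
  obtain ⟨r0, r1⟩ := C.row h0 h1
  have hP0 := D.P0
  have hP1 := D.P1
  rcases hv with rfl | rfl
  · constructor
    · unfold Win.m mm
      split_ifs with c
      · have := h4 (by omega); omega
      · omega
    · unfold rL
      split_ifs with c
      · rcases div_succ hn V with ⟨e1, e2⟩ | ⟨e1, e2⟩
        · rw [e2]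
          have hv : V + 1 < D.h := by omega
          obtain ⟨r2, r3⟩ := C.row (y := V + 1) (by omega) hv
          refine arL_succ C hcut r0 (by omega) (eq_of_mul (n := n) (by omega) ?_)
          have k2 := h4 hv
          have k3 := D.aL V h0 c
          have k4 := C.a_le (y := V + 1) (by omega) hv
          rw [e2] at k4
          omega
        · rw [e2]
      · rfl
  · rw [add_sub_cancel_right] at h3
    constructor
    · unfold Win.m mm
      split_ifs with c
      · omega
      · have := h3 (by omega); omega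
    · unfold rL
      split_ifs with c
      · rfl
      · rcases div_succ hn v with ⟨e1, e2⟩ | ⟨e1, e2⟩
        · rw [e2] at r0 r1 ha ⊢
          have hv : 0 ≤ v := by omega
          obtain ⟨r2, r3⟩ := C.row (y := v) hv (by omega)
          refine (arL_succ C hcut r2 r1 (eq_of_mul (n := n) (by omega) ?_)).symm
          have k2 := h3 (by omega)
          have k3 : D.a v ≤ D.a (v + 1) := by
            by_cases c2 : v + 1 = D.yP
            · exfalso
              have := D.aP (by omega)
              rw [← c2, add_sub_cancel_right] at this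
              omega
            · exact D.aU v (by omega) h1
          have k4 := C.a_le (y := v) hv (by omega)
          omega
        · rw [e2]

lemma rowR_ly (hcut : colp D (s0 - 1) ≠ colp D s0) (h : LyP D .R u V) (hv : V = v ∨ V = v + 1) :
    D.M v ≤ u ∧ arR D n s0 (rR D n v) = arR D n s0 (V / n) := by
  have C := hC.toCoarse
  have hn := C.pos
  have hn8 := C.hn
  have ha := lyR_b C h
  obtain ⟨h0, h1, h2, h3, h4⟩ := h
  obtain ⟨r0, r1⟩ := C.row h0 h1
  have hQ0 := D.Q0
  have hQ1 := D.Q1
  rcases hv with rfl | rfl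
  · constructor
    · unfold Win.M Pool.Agent.H46.Sp.MM
      split_ifs with c
      · have := h4 (by omega); omega
      · omega
    · unfold rR
      split_ifs with c
      · rcases div_succ hn V with ⟨e1, e2⟩ | ⟨e1, e2⟩
        · rw [e2]
          have hv : V + 1 < D.h := by omega
          obtain ⟨r2, r3⟩ := C.row (y := V + 1) (by omega) hv
          refine arR_succ C hcut r0 (by omega) (eq_of_mul (n := n) (by omega) ?_)
          have k2 := h4 hv
          have k3 : D.b V ≤ D.b (V + 1) := by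
            by_cases c2 : V + 1 = D.yQ
            · have := D.bQ (by omega)
              rw [← c2, add_sub_cancel_right] at this
              omega
            · exact D.bL V h0 (by omega)
          have k4 := C.le_b (y := V + 1) (by omega) hv
          rw [e2] at k4
          omega
        · rw [e2]
      · rfl
  · rw [add_sub_cancel_right] at h3
    constructor
    · unfold Win.M Pool.Agent.H46.Sp.MM
      split_ifs with c
      · omega
      · have := h3 (by omega); omega
    · unfold rR
      split_ifs with c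
      · rfl
      · rcases div_succ hn v with ⟨e1, e2⟩ | ⟨e1, e2⟩
        · rw [e2] at r0 r1 ha ⊢
          have hv : 0 ≤ v := by omega
          obtain ⟨r2, r3⟩ := C.row (y := v) hv (by omega)
          refine (arR_succ C hcut r2 r1 (eq_of_mul (n := n) (by omega) ?_)).symm
          have k2 := h3 (by omega)
          have k3 := D.bU v (by omega) h1
          have k4 := C.le_b (y := v) hv (by omega)
          omega
        · rw [e2]

/-- **Layer tiles at the left.** -/
theorem arcL_C (hcut : colp D (s0 - 1) ≠ colp D s0) (h : LyA D p .L u v) :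
    u + 1 = n * ((u + 1) / n) ∧ CQ H A B ((u + 1) / n) ((v + sh p) / n) ∧
    ¬ CQ H A B ((u + 1) / n - 1) ((v + sh p) / n) ∧
    arc D p s0 u v = arL D n s0 ((v + sh p) / n) ∧ arc D p s0 (u - 1) v = arL D n s0 ((v + sh p) / n) := by
  have C := hC.toCoarse
  have hn := C.pos
  have h' : LyP D .L u (v + sh p) := h
  have ha := lyL_a C h'
  have k0 := sh_nonneg p
  have k1 := sh_le p
  obtain ⟨hm, hrow⟩ := rowL_ly (v := v) hC hcut h' (by omega)
  obtain ⟨h0, h1, h2, -, -⟩ := h'
  obtain ⟨r0, r1⟩ := C.row h0 h1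
  have eu : (u + 1) / n = A ((v + sh p) / n) := by
    rw [h2, ha]; exact Int.mul_ediv_cancel_left _ hn.ne'
  refine ⟨?_, ?_, ?_, ?_, ?_⟩
  · rw [eu]; omega
  · rw [eu]; exact ⟨r0, r1, le_rfl, C.AB _ r0 r1⟩
  · rw [eu]; rintro ⟨-, -, h5, -⟩; omega
  · unfold arc; rw [ps_left (by omega) (by omega) hm, posL hC hcut (by omega) (by omega), hrow]
  · unfold arc
    rw [ps_left (by omega) (by omega) (by omega), posL hC hcut (by omega) (by omega), hrow]

/-- **Layer tiles at the right.** -/
theorem arcR_C (hcut : colp D (s0 - 1) ≠ colp D s0) (h : LyA D p .R u v) :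
    u = n * (u / n) ∧ CQ H A B (u / n - 1) ((v + sh p) / n) ∧
    ¬ CQ H A B (u / n) ((v + sh p) / n) ∧
    arc D p s0 u v = arR D n s0 ((v + sh p) / n) ∧ arc D p s0 (u + 1) v = arR D n s0 ((v + sh p) / n) := by
  have C := hC.toCoarse
  have hn := C.pos
  have h' : LyP D .R u (v + sh p) := h
  have ha := lyR_b C h'
  have k0 := sh_nonneg p
  have k1 := sh_le p
  obtain ⟨hm, hrow⟩ := rowR_ly (v := v) hC hcut h' (by omega)
  obtain ⟨h0, h1, h2, -, -⟩ := h'
  obtain ⟨r0, r1⟩ := C.row h0 h1
  have eu : u / n = B ((v + sh p) / n) := by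
    rw [h2, ha]; exact Int.mul_ediv_cancel_left _ hn.ne'
  refine ⟨?_, ?_, ?_, ?_, ?_⟩
  · rw [eu]; omega
  · rw [eu]
    have := C.AB _ r0 r1
    exact ⟨r0, r1, by omega, by omega⟩
  · rw [eu]; rintro ⟨-, -, -, h5⟩; omega
  · unfold arc; rw [ps_right (by omega) (by omega) hm, posR hC hcut (by omega) (by omega), hrow]
  · unfold arc
    rw [ps_right (by omega) (by omega) (by omega), posR hC hcut (by omega) (by omega), hrow]

omit hC in
lemma lyF_cases (C : Coarse D n H A B) (h : LyP D .F u V) :
    (V = -1 ∧ CQ H A B (u / n) 0) ∨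
    (0 ≤ V ∧ V + 1 = n * (V / n) + n ∧ CQ H A B (u / n) (V / n + 1) ∧ u / n < A (V / n) ∧ u + 1 < D.a V ∧
      V + 1 < D.yP) ∨
    (0 ≤ V ∧ V + 1 = n * (V / n) + n ∧ CQ H A B (u / n) (V / n + 1) ∧ B (V / n) ≤ u / n ∧ D.b V < u ∧
      V < D.yQ) := by
  have hn := C.pos
  have hn8 := C.hn
  have hh := D.hh
  obtain ⟨h0, h1, h2, h3, h4⟩ := h
  by_cases c : V = -1
  · left
    subst c
    rw [neg_add_cancel] at h2 h3
    have e0 : (0 : ℤ) / n = 0 := Int.zero_ediv n
    have e1 : (0 : ℤ) % n = 0 := Int.zero_emod n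
    have k1 : D.a 0 = n * A 0 := by
      rcases C.a 0 le_rfl (by omega) with g | ⟨g, g' | g'⟩
      · rw [g, e0]
      · rw [e1] at g'; omega
      · rw [e0] at g'; omega
    have k2 : D.b 0 = n * B 0 := by
      rcases C.b 0 le_rfl (by omega) with g | ⟨g, g' | g'⟩
      · rw [g, e0]
      · rw [e1] at g'; omega
      · rw [e0] at g'; omega
    refine ⟨rfl, le_rfl, C.HH, ?_, ?_⟩
    · rw [Int.le_ediv_iff_mul_le hn, mul_comm]; omega
    · rw [Int.ediv_lt_iff_lt_mul hn, mul_comm]; omega
  right
  have hV : 0 ≤ V := by omega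
  obtain ⟨r0, r1⟩ := C.row (y := V) hV (by omega)
  obtain ⟨r2, r3⟩ := C.row (y := V + 1) (by omega) h1
  obtain ⟨d1, d2, d3⟩ := dv hn V
  obtain ⟨f1, f2, f3⟩ := dv hn (V + 1)
  have a1 := C.a_le (y := V) hV (by omega)
  have a2 := C.a_le (y := V + 1) (by omega) h1
  have b1 := C.le_b (y := V) hV (by omega)
  have b2 := C.le_b (y := V + 1) (by omega) h1
  rcases div_succ hn V with ⟨e1, e2⟩ | ⟨e1, e2⟩
  · rw [e2] at a2 b2 r2 r3 f1 f2 f3
    have e3 : n * (V / n + 1) = n * (V / n) + n := by ring
    rcases h4 hV with h5 | h5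
    · left
      have hyP := floorL hV h1 (by omega)
      have hAA : A (V / n + 1) < A (V / n) ∨ A (V / n + 1) = A (V / n) ∨ A (V / n) < A (V / n + 1) :=
        lt_trichotomy _ _
      have k1 : D.a (V + 1) = n * A (V / n + 1) := by
        rcases C.a (V + 1) (by omega) h1 with g | ⟨g, g' | g'⟩
        · rw [g, e2]
        · rw [e2] at g'; omega
        · rw [e2, add_sub_cancel_right] at g'
          have := lt_mul hn g'.2.2
          omega
      have k2 := C.ov1 (V / n) r0 r3
      refine ⟨hV, by omega, ⟨r2, r3, ?_, ?_⟩, ?_, h5, hyP⟩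
      · rw [Int.le_ediv_iff_mul_le hn, mul_comm]; omega
      · have : u / n < A (V / n) := by rw [Int.ediv_lt_iff_lt_mul hn, mul_comm]; omega
        omega
      · rw [Int.ediv_lt_iff_lt_mul hn, mul_comm]; omega
    · right
      have hyQ := floorR h1 (by omega)
      have k1 : D.b (V + 1) = n * B (V / n + 1) := by
        rcases C.b (V + 1) (by omega) h1 with g | ⟨g, g' | g'⟩
        · rw [g, e2]
        · rw [e2] at g'; omega
        · rw [e2, add_sub_cancel_right] at g'
          have := lt_mul hn g'.2.2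
          omega
      have k2 := C.ov2 (V / n) r0 r3
      have k3 : B (V / n) ≤ u / n := by rw [Int.le_ediv_iff_mul_le hn, mul_comm]; omega
      refine ⟨hV, by omega, ⟨r2, r3, by omega, ?_⟩, k3, h5, hyQ⟩
      rw [Int.ediv_lt_iff_lt_mul hn, mul_comm]; omega
  · exfalso
    rw [e2] at a2 b2
    rcases h4 hV with h5 | h5 <;> omega

omit hC in
lemma lyC_cases (C : Coarse D n H A B) (h : LyP D .C u V) :
    (V = D.h ∧ CQ H A B (u / n) (H - 1)) ∨
    (1 ≤ V ∧ V < D.h ∧ V = n * (V / n) ∧ CQ H A B (u / n) (V / n - 1) ∧ u / n < A (V / n) ∧ u + 1 < D.a V ∧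
      D.yP ≤ V) ∨
    (1 ≤ V ∧ V < D.h ∧ V = n * (V / n) ∧ CQ H A B (u / n) (V / n - 1) ∧ B (V / n) ≤ u / n ∧ D.b V < u ∧
      D.yQ < V) := by
  have hn := C.pos
  have hn8 := C.hn
  have hh := D.hh
  have hHH := C.HH
  have hhh := C.hh
  obtain ⟨h0, h1, h2, h3, h4⟩ := h
  by_cases c : V = D.h
  · left
    subst c
    have e0 : (D.h - 1) / n = H - 1 := by
      refine dv_eq hn ?_ ?_ <;> rw [mul_sub] <;> omega
    have e1 : (D.h - 1) % n = n - 1 := by
      have := (dv hn (D.h - 1)).2.2
      rw [e0, mul_sub] at this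
      omega
    have k1 : D.a (D.h - 1) = n * A (H - 1) := by
      rcases C.a (D.h - 1) (by omega) (by omega) with g | ⟨g, g' | g'⟩
      · rw [g, e0]
      · rw [e0] at g'; omega
      · rw [e1] at g'; omega
    have k2 : D.b (D.h - 1) = n * B (H - 1) := by
      rcases C.b (D.h - 1) (by omega) (by omega) with g | ⟨g, g' | g'⟩
      · rw [g, e0]
      · rw [e0] at g'; omega
      · rw [e1] at g'; omega
    refine ⟨rfl, by omega, by omega, ?_, ?_⟩
    · rw [Int.le_ediv_iff_mul_le hn, mul_comm]; omega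
    · rw [Int.ediv_lt_iff_lt_mul hn, mul_comm]; omega
  right
  have hV : V < D.h := by omega
  obtain ⟨r0, r1⟩ := C.row (y := V) (by omega) hV
  obtain ⟨r2, r3⟩ := C.row (y := V - 1) (by omega) (by omega)
  obtain ⟨d1, d2, d3⟩ := dv hn V
  obtain ⟨f1, f2, f3⟩ := dv hn (V - 1)
  have a1 := C.a_le (y := V) (by omega) hV
  have a2 := C.a_le (y := V - 1) (by omega) (by omega)
  have b1 := C.le_b (y := V) (by omega) hV
  have b2 := C.le_b (y := V - 1) (by omega) (by omega)
  have key := div_succ hn (V - 1)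
  rw [sub_add_cancel] at key
  rcases key with ⟨e1, e2⟩ | ⟨e1, e2⟩
  · have e3 : (V - 1) / n = V / n - 1 := by omega
    rw [e3] at a2 b2 r2 r3 f1 f2 f3 e1
    have e4 : n * (V / n - 1) = n * (V / n) - n := by ring
    rcases h4 hV with h5 | h5
    · left
      have hyP := ceilL h0 hV (by omega)
      have k1 : D.a (V - 1) = n * A (V / n - 1) := by
        rcases C.a (V - 1) (by omega) (by omega) with g | ⟨g, g' | g'⟩
        · rw [g, e3]
        · rw [e3, sub_add_cancel] at g'
          have := lt_mul hn g'.2.2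
          omega
        · omega
      have k2 := C.ov2 (V / n - 1) r2 (by omega)
      rw [sub_add_cancel] at k2
      refine ⟨h0, hV, by omega, ⟨r2, r3, ?_, ?_⟩, ?_, h5, hyP⟩
      · rw [Int.le_ediv_iff_mul_le hn, mul_comm]; omega
      · have : u / n < A (V / n) := by rw [Int.ediv_lt_iff_lt_mul hn, mul_comm]; omega
        omega
      · rw [Int.ediv_lt_iff_lt_mul hn, mul_comm]; omega
    · right
      have hyQ := ceilR h0 hV (by omega)
      have k1 : D.b (V - 1) = n * B (V / n - 1) := by
        rcases C.b (V - 1) (by omega) (by omega) with g | ⟨g, g' | g'⟩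
        · rw [g, e3]
        · rw [e3, sub_add_cancel] at g'
          have := lt_mul hn g'.2.2
          omega
        · omega
      have k2 := C.ov1 (V / n - 1) r2 (by omega)
      rw [sub_add_cancel] at k2
      have k3 : B (V / n) ≤ u / n := by rw [Int.le_ediv_iff_mul_le hn, mul_comm]; omega
      refine ⟨h0, hV, by omega, ⟨r2, r3, by omega, ?_⟩, k3, h5, hyQ⟩
      rw [Int.ediv_lt_iff_lt_mul hn, mul_comm]; omega
  · exfalso
    rw [← e2] at a2 b2
    rcases h4 hV with h5 | h5 <;> omega

/-- **Layer tiles below**: the positions -/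
theorem arcF_cases (hcut : colp D (s0 - 1) ≠ colp D s0) (h : LyA D p .F u v) :
    (v + sh p = -1 ∧ CQ H A B (u / n) 0 ∧ arc D p s0 u v = rep D s0 0 ∧ arc D p s0 u (v - 1) = rep D s0 0) ∨
    (0 ≤ v + sh p ∧ v + sh p + 1 = n * ((v + sh p) / n) + n ∧ CQ H A B (u / n) ((v + sh p) / n + 1) ∧
      u / n < A ((v + sh p) / n) ∧ arc D p s0 u v = arL D n s0 ((v + sh p) / n) ∧
      arc D p s0 u (v - 1) = arL D n s0 ((v + sh p) / n)) ∨
    (0 ≤ v + sh p ∧ v + sh p + 1 = n * ((v + sh p) / n) + n ∧ CQ H A B (u / n) ((v + sh p) / n + 1) ∧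
      B ((v + sh p) / n) ≤ u / n ∧ arc D p s0 u v = arR D n s0 ((v + sh p) / n) ∧
      arc D p s0 u (v - 1) = arR D n s0 ((v + sh p) / n)) := by
  have C := hC.toCoarse
  have hn := C.pos
  have hn8 := C.hn
  have hh := D.hh
  have hP0 := D.P0
  have hQ0 := D.Q0
  have h' : LyP D .F u (v + sh p) := h
  have hcs := lyF_cases C h'
  obtain ⟨h0, h1, h2, h3, h4⟩ := h'
  rcases hcs with ⟨c1, c2⟩ | ⟨c1, c2, c3, c4, c5, c6⟩ | ⟨c1, c2, c3, c4, c5, c6⟩
  · left
    refine ⟨c1, c2, ?_, ?_⟩
    · unfold arc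
      congr 1
      rcases sh_cases p with ⟨rfl, e⟩ | ⟨rfl, e⟩
      · have hv : v = -1 := by omega
        subst hv
        rw [c1, neg_add_cancel] at h2 h3
        rw [ps_mid_false le_rfl (by omega) ?_ ?_, if_pos rfl]
        · unfold Win.m mm; rw [if_pos (by omega)]; simpa using h2
        · unfold Win.M Pool.Agent.H46.Sp.MM; rw [if_pos (by omega)]; simpa using h3
      · exact ps_bot (by omega)
    · unfold arc
      congr 1
      have := sh_nonneg p
      exact ps_bot (by omega)
  · right; left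
    set V := v + sh p with hV
    refine ⟨c1, c2, c3, c4, ?_⟩
    obtain ⟨r0, r1⟩ := C.row (y := V) c1 (by omega)
    obtain ⟨d1, d2, d3⟩ := dv hn V
    have hrw0 := (row_h C r0 r1).1
    -- the row `V - 1`
    have p1 : ∀ x, x < D.a V → rep D s0 (ps D p x (V - 1)) = arL D n s0 (V / n) := by
      intro x hx
      have : x < D.m (V - 1) := by
        unfold Win.m mm; rw [if_pos (by omega), sub_add_cancel]; exact hx
      rw [ps_left (by omega) (by omega) this, posL hC hcut (by omega) (by omega)]
      unfold rL; rw [if_pos (by omega), sub_add_cancel]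
    rcases sh_cases p with ⟨rfl, e⟩ | ⟨rfl, e⟩
    · have hv : v = V := by omega
      rw [hv]
      unfold arc
      refine ⟨?_, p1 u (by omega)⟩
      have e1 := p1 u (by omega)
      rw [ps_left (by omega) (by omega) (by
        unfold Win.m mm; rw [if_pos (by omega), sub_add_cancel]; omega)] at e1
      have k1 := D.ab V c1 (by omega)
      rw [ps_mid_false (by omega) (by omega) ?_ ?_, if_neg (by omega), if_pos (by omega), ← e1]
      · congr 1; ring
      · unfold Win.m mm; rw [if_pos (by omega)]; exact h2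
      · unfold Win.M Pool.Agent.H46.Sp.MM; split_ifs <;> omega
    · have hv : v = V - 1 := by omega
      rw [hv]
      unfold arc
      refine ⟨p1 u (by omega), ?_⟩
      have eV : (V - 1) / n = V / n := dv_eq hn (by omega) (by omega)
      have k1 := (a_in C (y := V - 1) (by omega) (by omega) (by rw [eV]; omega) (by rw [eV]; omega)).1
      rw [eV] at k1
      have k2 := C.a_le (y := V) c1 (by omega)
      have : u < D.m (V - 1 - 1) := by
        unfold Win.m mm; rw [if_pos (by omega), sub_add_cancel]; omega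
      rw [ps_left (by omega) (by omega) this, posL hC hcut (by omega) (by omega)]
      unfold rL; rw [if_pos (by omega), sub_add_cancel, eV]
  · right; right
    set V := v + sh p with hV
    refine ⟨c1, c2, c3, c4, ?_⟩
    obtain ⟨r0, r1⟩ := C.row (y := V) c1 (by omega)
    obtain ⟨d1, d2, d3⟩ := dv hn V
    have hrw0 := (row_h C r0 r1).1
    have p1 : rep D s0 (ps D p u (V - 1)) = arR D n s0 (V / n) := by
      have : D.M (V - 1) ≤ u := by
        unfold Win.M Pool.Agent.H46.Sp.MM; rw [if_pos (by omega), sub_add_cancel]; omega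
      rw [ps_right (by omega) (by omega) this, posR hC hcut (by omega) (by omega)]
      unfold rR; rw [if_pos (by omega), sub_add_cancel]
    rcases sh_cases p with ⟨rfl, e⟩ | ⟨rfl, e⟩
    · have hv : v = V := by omega
      rw [hv]
      unfold arc
      refine ⟨?_, p1⟩
      have e1 := p1
      rw [ps_right (by omega) (by omega) (by
        unfold Win.M Pool.Agent.H46.Sp.MM; rw [if_pos (by omega), sub_add_cancel]; omega)] at e1
      have k1 := D.ab V c1 (by omega)
      have k2 := D.ov2 V c1 (by omega)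
      rw [ps_mid_false (by omega) (by omega) ?_ ?_, if_neg (by omega), if_neg (by omega), ← e1]
      · congr 1; ring
      · unfold Win.m mm; split_ifs <;> omega
      · unfold Win.M Pool.Agent.H46.Sp.MM; rw [if_pos (by omega)]; exact h3
    · have hv : v = V - 1 := by omega
      rw [hv]
      unfold arc
      refine ⟨p1, ?_⟩
      have eV : (V - 1) / n = V / n := dv_eq hn (by omega) (by omega)
      have k1 := (a_in C (y := V - 1) (by omega) (by omega) (by rw [eV]; omega) (by rw [eV]; omega)).2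
      rw [eV] at k1
      have k2 := C.le_b (y := V) c1 (by omega)
      have : D.M (V - 1 - 1) ≤ u := by
        unfold Win.M Pool.Agent.H46.Sp.MM; rw [if_pos (by omega), sub_add_cancel]; omega
      rw [ps_right (by omega) (by omega) this, posR hC hcut (by omega) (by omega)]
      unfold rR; rw [if_pos (by omega), sub_add_cancel, eV]

/-- **Layer tiles above**: the positions -/
theorem arcC_cases (hcut : colp D (s0 - 1) ≠ colp D s0) (h : LyA D p .C u v) :
    (v + sh p = D.h ∧ CQ H A B (u / n) (H - 1) ∧ arc D p s0 u v = rep D s0 (D.h + 2) ∧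
      arc D p s0 u (v + 1) = rep D s0 (D.h + 2)) ∨
    (1 ≤ v + sh p ∧ v + sh p < D.h ∧ v + sh p = n * ((v + sh p) / n) ∧
      CQ H A B (u / n) ((v + sh p) / n - 1) ∧
      u / n < A ((v + sh p) / n) ∧ arc D p s0 u v = arL D n s0 ((v + sh p) / n) ∧
      arc D p s0 u (v + 1) = arL D n s0 ((v + sh p) / n)) ∨
    (1 ≤ v + sh p ∧ v + sh p < D.h ∧ v + sh p = n * ((v + sh p) / n) ∧
      CQ H A B (u / n) ((v + sh p) / n - 1) ∧
      B ((v + sh p) / n) ≤ u / n ∧ arc D p s0 u v = arR D n s0 ((v + sh p) / n) ∧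
      arc D p s0 u (v + 1) = arR D n s0 ((v + sh p) / n)) := by
  have C := hC.toCoarse
  have hn := C.pos
  have hn8 := C.hn
  have hh := D.hh
  have hP1 := D.P1
  have hQ1 := D.Q1
  have h' : LyP D .C u (v + sh p) := h
  have hcs := lyC_cases C h'
  obtain ⟨h0, h1, h2, h3, h4⟩ := h'
  rcases hcs with ⟨c1, c2⟩ | ⟨c1, c2, c3, c4, c5, c6, c7⟩ | ⟨c1, c2, c3, c4, c5, c6, c7⟩
  · left
    refine ⟨c1, c2, ?_, ?_⟩
    · unfold arc
      congr 1
      rcases sh_cases p with ⟨rfl, e⟩ | ⟨rfl, e⟩
      · exact ps_top (by omega)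
      · have hv : v = D.h - 1 := by omega
        subst hv
        rw [c1] at h2 h3
        rw [ps_mid_true (by omega) (by omega) ?_ ?_, if_pos rfl]
        · unfold Win.m mm; rw [if_neg (by omega)]; exact h2
        · unfold Win.M Pool.Agent.H46.Sp.MM; rw [if_neg (by omega)]; exact h3
    · unfold arc
      congr 1
      have := sh_le p
      exact ps_top (by omega)
  · right; left
    set V := v + sh p with hV
    refine ⟨c1, c2, c3, c4, c5, ?_⟩
    obtain ⟨r0, r1⟩ := C.row (y := V) (by omega) c2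
    obtain ⟨d1, d2, d3⟩ := dv hn V
    have hrw := (row_h C r0 r1).2
    -- the row `V`
    have e0 : ps D p u V = 2 * D.h + 2 - V := ps_left (by omega) (by omega) (by
      unfold Win.m mm; rw [if_neg (by omega)]; omega)
    have p1 : rep D s0 (2 * D.h + 2 - V) = arL D n s0 (V / n) := by
      rw [posL hC hcut (by omega) (by omega)]
      unfold rL; rw [if_neg (by omega)]
    rcases sh_cases p with ⟨rfl, e⟩ | ⟨rfl, e⟩
    · have hv : v = V := by omega
      rw [hv]
      unfold arc
      refine ⟨by rw [e0, p1], ?_⟩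
      have eV : (V + 1) / n = V / n := dv_eq hn (by omega) (by omega)
      have k1 := (a_in C (y := V + 1) (by omega) (by omega) (by rw [eV]; omega) (by rw [eV]; omega)).1
      rw [eV] at k1
      have k2 := C.a_le (y := V) (by omega) (by omega)
      have : u < D.m (V + 1) := by
        unfold Win.m mm; rw [if_neg (by omega)]; omega
      rw [ps_left (by omega) (by omega) this, posL hC hcut (by omega) (by omega)]
      unfold rL; rw [if_neg (by omega), eV]
    · have hv : v = V - 1 := by omega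
      rw [hv, sub_add_cancel]
      unfold arc
      refine ⟨?_, by rw [e0, p1]⟩
      have k1 := D.ab V (by omega) (by omega)
      rw [ps_mid_true (by omega) (by omega) ?_ ?_, if_neg (by omega), sub_add_cancel, if_pos (by omega), ← p1]
      · congr 1; ring
      · unfold Win.m mm; rw [if_neg (by omega)]; exact h2
      · unfold Win.M Pool.Agent.H46.Sp.MM; rw [sub_add_cancel]; split_ifs <;> omega
  · right; right
    set V := v + sh p with hV
    refine ⟨c1, c2, c3, c4, c5, ?_⟩
    obtain ⟨r0, r1⟩ := C.row (y := V) (by omega) c2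
    obtain ⟨d1, d2, d3⟩ := dv hn V
    have hrw := (row_h C r0 r1).2
    have e0 : ps D p u V = V + 2 := ps_right (by omega) (by omega) (by
      unfold Win.M Pool.Agent.H46.Sp.MM; rw [if_neg (by omega)]; omega)
    have p1 : rep D s0 (V + 2) = arR D n s0 (V / n) := by
      rw [posR hC hcut (by omega) (by omega)]
      unfold rR; rw [if_neg (by omega)]
    rcases sh_cases p with ⟨rfl, e⟩ | ⟨rfl, e⟩
    · have hv : v = V := by omega
      rw [hv]
      unfold arc
      refine ⟨by rw [e0, p1], ?_⟩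
      have eV : (V + 1) / n = V / n := dv_eq hn (by omega) (by omega)
      have k1 := (a_in C (y := V + 1) (by omega) (by omega) (by rw [eV]; omega) (by rw [eV]; omega)).2
      rw [eV] at k1
      have k2 := C.le_b (y := V) (by omega) (by omega)
      have : D.M (V + 1) ≤ u := by
        unfold Win.M Pool.Agent.H46.Sp.MM; rw [if_neg (by omega)]; omega
      rw [ps_right (by omega) (by omega) this, posR hC hcut (by omega) (by omega)]
      unfold rR; rw [if_neg (by omega), eV]
    · have hv : v = V - 1 := by omega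
      rw [hv, sub_add_cancel]
      unfold arc
      refine ⟨?_, by rw [e0, p1]⟩
      have k1 := D.ab V (by omega) (by omega)
      rw [ps_mid_true (by omega) (by omega) ?_ ?_, if_neg (by omega), sub_add_cancel, if_neg (by omega), ← p1]
      · congr 1; ring
      · unfold Win.m mm; rw [sub_add_cancel]; split_ifs <;> omega
      · unfold Win.M Pool.Agent.H46.Sp.MM; rw [if_neg (by omega)]; exact h3

end CC2

/-! ### In the form of `H31/Sp/Edge` -/

lemma aL_eq : aL D n s0 Y = arL D n s0 Y := rfl

lemma aR_eq : aR D n s0 Y = arR D n s0 Y := by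
  unfold aR arR; congr 1; ring

section CC3

/-- a straight part of the left side -/
theorem aL_succ (C : Coarse D n H A B) (hcut : colp D (s0 - 1) ≠ colp D s0) (h0 : 0 ≤ Y) (h1 : Y + 1 < H)
    (hA : A Y = A (Y + 1)) : aL D n s0 (Y + 1) = aL D n s0 Y :=
  arL_succ C hcut h0 h1 hA

/-- a straight part of the right side -/
theorem aR_succ (C : Coarse D n H A B) (hcut : colp D (s0 - 1) ≠ colp D s0) (h0 : 0 ≤ Y) (h1 : Y + 1 < H)
    (hB : B Y = B (Y + 1)) : aR D n s0 (Y + 1) = aR D n s0 Y := by
  rw [aR_eq, aR_eq]; exact arR_succ C hcut h0 h1 hB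

variable (hC : CoarseC D n H A B YP YQ CL CR)

include hC

/-- **Layer tiles at the left.** -/
theorem lyL_arc (hcut : colp D (s0 - 1) ≠ colp D s0) (h : LyA D p .L u v) :
    u + 1 = n * ((u + 1) / n) ∧ CQ H A B ((u + 1) / n) ((v + sh p) / n) ∧
    ¬ CQ H A B ((u + 1) / n - 1) ((v + sh p) / n) ∧
    arc D p s0 u v = aL D n s0 ((v + sh p) / n) ∧ arc D p s0 (u - 1) v = aL D n s0 ((v + sh p) / n) :=
  arcL_C hC hcut h

/-- **Layer tiles at the right.** -/
theorem lyR_arc (hcut : colp D (s0 - 1) ≠ colp D s0) (h : LyA D p .R u v) :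
    u = n * (u / n) ∧ CQ H A B (u / n - 1) ((v + sh p) / n) ∧
    ¬ CQ H A B (u / n) ((v + sh p) / n) ∧
    arc D p s0 u v = aR D n s0 ((v + sh p) / n) ∧ arc D p s0 (u + 1) v = aR D n s0 ((v + sh p) / n) := by
  rw [aR_eq]
  exact arcR_C hC hcut h

/-- **Layer tiles below.** -/
theorem lyF_arc (hcut : colp D (s0 - 1) ≠ colp D s0) (h : LyA D p .F u v) :
    v + sh p + 1 = n * ((v + sh p + 1) / n) ∧ CQ H A B (u / n) ((v + sh p + 1) / n) ∧
    ¬ CQ H A B (u / n) ((v + sh p + 1) / n - 1) ∧
    arc D p s0 u v = hA D n H A B s0 (u / n) ((v + sh p + 1) / n) ∧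
    arc D p s0 u (v - 1) = hA D n H A B s0 (u / n) ((v + sh p + 1) / n) := by
  have hn := hC.toCoarse.pos
  rcases arcF_cases hC hcut h with ⟨c1, c2, c3, c4⟩ | ⟨c1, c2, c3, c4, c5, c6⟩ | ⟨c1, c2, c3, c4, c5, c6⟩
  · rw [c1, neg_add_cancel, Int.zero_ediv]
    have e : hA D n H A B s0 (u / n) 0 = rep D s0 0 := by
      unfold hA aB; rw [if_pos c2, if_pos rfl]
    rw [e]
    exact ⟨by simp, c2, fun h => by obtain ⟨h1, -⟩ := h; omega, c3, c4⟩
  · set V := v + sh p with hV
    have e : (V + 1) / n = V / n + 1 := by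
      rw [c2]
      rw [show n * (V / n) + n = n * (V / n + 1) by ring]
      exact Int.mul_ediv_cancel_left _ hn.ne'
    obtain ⟨r0, r1⟩ := hC.toCoarse.row (y := V) c1 (by obtain ⟨_, h, _⟩ := (h : LyP D .F u V); omega)
    have e' : hA D n H A B s0 (u / n) (V / n + 1) = arL D n s0 (V / n) := by
      unfold hA
      rw [if_pos c3, if_neg (by omega), add_sub_cancel_right, if_pos c4]
      rfl
    rw [e, e', add_sub_cancel_right]
    refine ⟨by rw [c2]; ring, c3, ?_, c5, c6⟩
    rintro ⟨-, -, h1, -⟩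
    omega
  · set V := v + sh p with hV
    have e : (V + 1) / n = V / n + 1 := by
      rw [c2]
      rw [show n * (V / n) + n = n * (V / n + 1) by ring]
      exact Int.mul_ediv_cancel_left _ hn.ne'
    obtain ⟨r0, r1⟩ := hC.toCoarse.row (y := V) c1 (by obtain ⟨_, h, _⟩ := (h : LyP D .F u V); omega)
    have k1 := hC.toCoarse.AB _ r0 r1
    have e' : hA D n H A B s0 (u / n) (V / n + 1) = arR D n s0 (V / n) := by
      unfold hA
      rw [if_pos c3, if_neg (by omega), add_sub_cancel_right, if_neg (by omega)]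
      exact aR_eq
    rw [e, e', add_sub_cancel_right]
    refine ⟨by rw [c2]; ring, c3, ?_, c5, c6⟩
    rintro ⟨-, -, -, h1⟩
    omega

/-- **Layer tiles above.** -/
theorem lyC_arc (hcut : colp D (s0 - 1) ≠ colp D s0) (h : LyA D p .C u v) :
    v + sh p = n * ((v + sh p) / n) ∧ CQ H A B (u / n) ((v + sh p) / n - 1) ∧
    ¬ CQ H A B (u / n) ((v + sh p) / n) ∧
    arc D p s0 u v = hA D n H A B s0 (u / n) ((v + sh p) / n) ∧
    arc D p s0 u (v + 1) = hA D n H A B s0 (u / n) ((v + sh p) / n) := by
  have hn := hC.toCoarse.pos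
  have hh := hC.toCoarse.hh
  rcases arcC_cases hC hcut h with ⟨c1, c2, c3, c4⟩ | ⟨c1, c1', c2, c3, c4, c5, c6⟩ |
    ⟨c1, c1', c2, c3, c4, c5, c6⟩
  · have e0 : D.h / n = H := by rw [hh]; exact Int.mul_ediv_cancel_left _ hn.ne'
    have hno : ¬ CQ H A B (u / n) H := fun h => by obtain ⟨-, h1, -⟩ := h; omega
    have e : hA D n H A B s0 (u / n) H = rep D s0 (D.h + 2) := by
      unfold hA aT; rw [if_neg hno, if_pos rfl]
    rw [c1, e0, e]
    exact ⟨hh, c2, hno, c3, c4⟩
  · set V := v + sh p with hV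
    obtain ⟨r0, r1⟩ := hC.toCoarse.row (y := V) (by omega) c1'
    have hno : ¬ CQ H A B (u / n) (V / n) := fun h => by obtain ⟨-, -, h1, -⟩ := h; omega
    have e' : hA D n H A B s0 (u / n) (V / n) = arL D n s0 (V / n) := by
      unfold hA
      rw [if_neg hno, if_neg (by omega), if_pos c4]
      rfl
    rw [e']
    exact ⟨c2, c3, hno, c5, c6⟩
  · set V := v + sh p with hV
    obtain ⟨r0, r1⟩ := hC.toCoarse.row (y := V) (by omega) c1'
    have k1 := hC.toCoarse.AB _ r0 r1
    have hno : ¬ CQ H A B (u / n) (V / n) := fun h => by obtain ⟨-, -, -, h1⟩ := h; omega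
    have e' : hA D n H A B s0 (u / n) (V / n) = arR D n s0 (V / n) := by
      unfold hA
      rw [if_neg hno, if_neg (by omega), if_neg (by omega)]
      exact aR_eq
    rw [e']
    exact ⟨c2, c3, hno, c5, c6⟩

end CC3

end Pool.Agent.H13.Sp
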