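import Pool.Agent.H13.Sp.Gate
import Pool.Agent.H33.Sp.Inst

set_option autoImplicit false
open Finset

/-! # The outsides of helper33: hypotheses of `multiA` and `farA_gen`

`PortW D X` : the port is a row of a wired side. `freeO`, `freeT` : the far labels of `oOne`, `oTwo` in the large
box are wired fill tiles. `rootO`, `rootT` : the root is outside of the large box. -/

namespace Pool.Agent.H13.Sp

open Pool.Agent.H75.Perc Pool.Agent.H75.TwoArm Pool.Agent.Q1 Pool.Agent.H33.Q1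
open Pool.Agent.H69.Q1 Pool.Agent.H13.Q1
open Pool.Agent.H46.Sp Pool.Agent.H46.Sp.Win
open Pool.Agent.H74.Win (InP natc fillc OutB)
open Pool.Agent.H13.R45 (ev gp Ag OutF ag_he)
open Pool.Agent.H33.Sp (bfD oOne oTwo PortD wo_oOne wo_oTwo fit_bf)

variable {D : Win} {x y L L' : ℤ} {hL' : 2 ≤ L'} {X Y : Bool × ℤ}

/-- colour of a port -/
def portc (D : Win) (X : Bool × ℤ) : Bool :=
  if X.2 < -1 then D.cb else if D.h ≤ X.2 then D.ct else if X.1 = true then D.cr X.2 else D.cl X.2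

lemma fillc_port (h : y = X.2 ∧ ((X.1 = false ∧ x + 4 < D.a (D.yP - 1)) ∨ (X.1 = true ∧ D.b D.yQ + 4 ≤ x))) :
    fillc D x y = portc D X := by
  obtain ⟨rfl, h⟩ := h
  unfold fillc portc
  by_cases c1 : X.2 < -1
  · rw [if_pos c1, if_pos c1]
  rw [if_neg c1, if_neg c1]
  by_cases c2 : D.h ≤ X.2
  · rw [if_pos c2, if_pos c2]
  rw [if_neg c2, if_neg c2]
  have k1 := m_min (D := D) (y := X.2) (by omega) (by omega)
  have k2 := M_max (D := D) (y := X.2) (by omega) (by omega)
  have k3 := m_lt_M (D := D) (y := X.2) (by omega) (by omega)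
  rcases h with ⟨h1, h2⟩ | ⟨h1, h2⟩
  · rw [if_pos (by omega), h1, if_neg (by simp)]
  · rw [if_neg (by omega), h1, if_pos rfl]

/-- **The far labels of one wire** -/
theorem freeO (h : PortD D X) (hX : portc D X = true) (x y : ℤ) (_ : InL D L x y)
    (hc : fillc D x y = false) : lt (x, y) ∉ (oOne D L' hL' X h).Wo := by
  intro hl
  rw [Pool.Agent.H33.Sp.oOne_Wo] at hl
  rw [fillc_port (wo_oOne h hl), hX] at hc
  exact Bool.noConfusion hc

/-- **The far labels of two wires** -/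
theorem freeT (h : PortD D X) (h' : PortD D Y) (hX : portc D X = true) (hY : portc D Y = true)
    (hLL : L ≤ L' + 3) (x y : ℤ) (hin : InL D L x y) (hc : fillc D x y = false) :
    lt (x, y) ∉ (oTwo D L' hL' X Y h h').Wo := by
  intro hl
  rw [Pool.Agent.H33.Sp.oTwo_Wo] at hl
  unfold InL at hin
  rcases wo_oTwo h h' hl with h1 | h1 | h1
  · rw [fillc_port h1, hX] at hc
    exact Bool.noConfusion hc
  · rw [fillc_port h1, hY] at hc
    exact Bool.noConfusion hc
  · omega

lemma root_bf (h : PortD D X) (hLL : L ≤ L' + 5) (g : ℤ × ℤ) (hg : Ag g ((bfD D L' hL' X).c0 X)) :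
    OutF (D.a (D.yP - 1) - L + 1) (D.b D.yQ + L) (-L + 1) (D.h + L) g := by
  have e3 : (bfD D L' hL' X).FL = D.a (D.yP - 1) - 4 - L' - (D.a (D.yP - 1) + L' + X.2 + 1) % 2 := rfl
  have e4 : (bfD D L' hL' X).FR = D.b D.yQ + 4 + L' + (D.b D.yQ + L' + X.2) % 2 := rfl
  unfold Pool.Agent.H33.Sp.BF.c0 at hg
  unfold OutF
  split_ifs at hg
  · rcases ag_he.1 hg with rfl | rfl <;> simp only <;> omega
  · rcases ag_he.1 hg with rfl | rfl <;> simp only <;> omega

/-- **The root of one wire** -/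
theorem rootO (h : PortD D X) (hLL : L ≤ L' + 5) (g : ℤ × ℤ) (hg : Ag g (oOne D L' hL' X h).c0) :
    OutF (D.a (D.yP - 1) - L + 1) (D.b D.yQ + L) (-L + 1) (D.h + L) g :=
  root_bf h hLL g hg

/-- **The root of two wires** -/
theorem rootT (h : PortD D X) (h' : PortD D Y) (hLL : L ≤ L' + 5) (g : ℤ × ℤ)
    (hg : Ag g (oTwo D L' hL' X Y h h').c0) :
    OutF (D.a (D.yP - 1) - L + 1) (D.b D.yQ + L) (-L + 1) (D.h + L) g :=
  root_bf h hLL g hg

end Pool.Agent.H13.Sp
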