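import Pool.Agent.H13.Sp.Far

set_option autoImplicit false
open Finset

/-! # Gates through the four sides

`HasG D m q` : the boundary of the window is straight near the position `q`. `gate_of` : the gate through this
side avoids every other arc. `gates_two` : two such positions in different arcs give the gates of `farA`. -/

namespace Pool.Agent.H13.Sp

open Pool.Agent.H75.Perc Pool.Agent.H75.TwoArm Pool.Agent.Q1 Pool.Agent.H33.Q1
open Pool.Agent.H69.Q1 Pool.Agent.H13.Q1
open Pool.Agent.H39.Q1 hiding OutF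
open Pool.Agent.H46.Sp Pool.Agent.H46.Sp.Win
open Pool.Agent.H74.Win (InB InP natc fillc TB sh sh_cases sh_nonneg sh_le GB OutB EN mem_TB mem_EN odd_TB)
open Pool.Agent.H42.Sp
open Pool.Agent.H13.R45 (ev gp ev_true ev_false Ag OutF)
open Pool.Agent.H74.R45 (exists_lt)

section Defs

variable (D : Win)

/-- straight left side near the row `y` -/
def StL (m y : ℤ) : Prop := m ≤ y ∧ y + m + 1 < D.h ∧ ∃ A, ∀ v, y ≤ v + m → v ≤ y + m + 1 →
  D.a v = A ∧ A + 2 * m + 1 ≤ D.b v

/-- straight right side near the row `y` -/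
def StR (m y : ℤ) : Prop := m ≤ y ∧ y + m + 1 < D.h ∧ ∃ B, ∀ v, y ≤ v + m → v ≤ y + m + 1 →
  D.b v = B ∧ D.a v + 2 * m + 1 ≤ B

/-- a column of the bottom -/
def StB (m : ℤ) : Prop := 2 * m + 1 < D.h ∧ ∃ x, ∀ v, 0 ≤ v → v ≤ 2 * m + 1 → D.a v + m ≤ x ∧ x + m < D.b v

/-- a column of the top -/
def StT (m : ℤ) : Prop := 2 * m + 1 < D.h ∧ ∃ x, ∀ v, v < D.h → D.h ≤ v + 2 * m + 2 →
  D.a v + m ≤ x ∧ x + m < D.b v

/-- a position with a gate -/
def HasG (m q : ℤ) : Prop :=
  (∃ y, q = 2 * D.h + 2 - y ∧ StL D m y) ∨ (∃ y, q = y + 2 ∧ StR D m y) ∨ (q = 0 ∧ StB D m) ∨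
    (q = D.h + 2 ∧ StT D m)

end Defs

variable {D : Win} {p : Bool} {x y u v q i s0 L m : ℤ} {S : Finset (ℤ × ℤ)} {O : OutB D}

lemma colp_left (h0 : -1 ≤ y) (h1 : y < D.h) : colp D (2 * D.h + 2 - y) = D.cl y := by
  have hh := D.hh
  unfold colp
  rw [Int.emod_eq_of_lt (by omega) (by unfold nP; omega), colq_cl (by omega)]
  congr 1; ring

lemma colp_right (h0 : -1 ≤ y) (h1 : y < D.h) : colp D (y + 2) = D.cr y := by
  have hh := D.hh
  unfold colp
  rw [Int.emod_eq_of_lt (by omega) (by unfold nP; omega), colq_cr (by omega) (by omega)]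
  congr 1; ring

lemma mm_eq {A : ℤ} (h0 : D.a y = A) (h1 : D.a (y + 1) = A) : mm D.a D.yP y = A := by
  unfold mm; split_ifs <;> assumption

lemma MM_eq {B : ℤ} (h0 : D.b y = B) (h1 : D.b (y + 1) = B) : Pool.Agent.H46.Sp.MM D.b D.yQ y = B := by
  unfold Pool.Agent.H46.Sp.MM; split_ifs <;> assumption

/-- the arc of a straight part of the left side -/
lemma rep_left (hcut : colp D (s0 - 1) ≠ colp D s0) {A w : ℤ} (h0 : 0 ≤ w) (n : ℕ) (h1 : w + n + 1 < D.h)
    (hA : ∀ v, w ≤ v → v ≤ w + n + 1 → D.a v = A) :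
    rep D s0 (2 * D.h + 2 - (w + n)) = rep D s0 (2 * D.h + 2 - w) := by
  induction n with
  | zero => simp
  | succ n ih =>
    have k := ih (by push_cast at h1; omega) fun v h2 h3 => hA v h2 (by push_cast; omega)
    rw [← k]
    push_cast at h1 hA ⊢
    have e1 : D.cl (w + n) = D.cl (w + n + 1) := by
      refine D.scl _ (by omega) (by omega) ?_
      rw [mm_eq (hA _ (by omega) (by omega)) (hA _ (by omega) (by omega)),
        mm_eq (hA _ (by omega) (by omega)) (hA _ (by omega) (by omega))]
    have e2 : 2 * D.h + 2 - (w + (n : ℤ)) = 2 * D.h + 2 - (w + (n + 1)) + 1 := by ring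
    rw [e2, rep_adj hcut]
    rw [← e2, colp_left (by omega) (by omega), colp_left (by omega) (by omega), e1]
    congr 1; ring

/-- the arc of a straight part of the right side -/
lemma rep_right (hcut : colp D (s0 - 1) ≠ colp D s0) {B w : ℤ} (h0 : 0 ≤ w) (n : ℕ) (h1 : w + n + 1 < D.h)
    (hB : ∀ v, w ≤ v → v ≤ w + n + 1 → D.b v = B) :
    rep D s0 (w + n + 2) = rep D s0 (w + 2) := by
  induction n with
  | zero => simp
  | succ n ih =>
    have k := ih (by push_cast at h1; omega) fun v h2 h3 => hB v h2 (by push_cast; omega)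
    rw [← k]
    push_cast at h1 hB ⊢
    have e1 : D.cr (w + n) = D.cr (w + n + 1) := by
      refine D.scr _ (by omega) (by omega) ?_
      rw [MM_eq (hB _ (by omega) (by omega)) (hB _ (by omega) (by omega)),
        MM_eq (hB _ (by omega) (by omega)) (hB _ (by omega) (by omega))]
    have e2 : w + ((n : ℤ) + 1) + 2 = w + n + 2 + 1 := by ring
    rw [e2, rep_adj hcut]
    rw [show w + (n : ℤ) + 2 + 1 = (w + n + 1) + 2 by ring, colp_right (by omega) (by omega),
      colp_right (by omega) (by omega), e1]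

theorem gate_left (hcut : colp D (s0 - 1) ≠ colp D s0) (hm : 0 ≤ m) (hL : 1 ≤ L) (h : StL D m y)
    (hi : rep D s0 (2 * D.h + 2 - y) ≠ i) : ∃ X0 X1 Y0 Y1, Gate D p s0 L m i X0 X1 Y0 Y1 := by
  obtain ⟨h0, h1, A, hA⟩ := h
  have k0 := sh_nonneg p
  have k1 := sh_le p
  have k2 := a_min (D := D) (y := y) (by omega) (by omega)
  have k3 := (hA y (by omega) (by omega)).1
  refine ⟨D.a (D.yP - 1) - L + 1, A + m + 1, y, y + 1, by omega, by omega, Or.inl (by omega),
    ⟨A + m, y, by omega, by omega, by omega, by omega, ?_⟩, ?_⟩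
  · intro u v h2 h3 h4 h5
    have := hA (v + sh p) (by omega) (by omega)
    exact ⟨by omega, by omega, by omega, by omega⟩
  · intro u v h2 h3 h4 h5 h6 h7
    apply hi
    have h8 := hA (v + sh p) (by omega) (by omega)
    have h9 : u < A := by
      by_contra hc
      exact h6 ⟨by omega, by omega, by omega, by omega⟩
    have h10 : u < D.m v := by
      have : D.m v = A := mm_eq (hA v (by omega) (by omega)).1 (hA (v + 1) (by omega) (by omega)).1
      omega
    unfold arc at h7
    rw [ps_left (by omega) (by omega) h10] at h7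
    rw [← h7]
    have e : ∀ w, y - m ≤ w → w ≤ y + m → rep D s0 (2 * D.h + 2 - w) = rep D s0 (2 * D.h + 2 - (y - m)) := by
      intro w k4 k5
      have := rep_left hcut (A := A) (w := y - m) (by omega) (w - (y - m)).toNat (by omega)
        fun v k6 k7 => (hA v (by omega) (by omega)).1
      rwa [show y - m + ((w - (y - m)).toNat : ℤ) = w by omega] at this
    rw [e y (by omega) (by omega), e v (by omega) (by omega)]

theorem gate_right (hcut : colp D (s0 - 1) ≠ colp D s0) (hm : 0 ≤ m) (hL : 1 ≤ L) (h : StR D m y)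
    (hi : rep D s0 (y + 2) ≠ i) : ∃ X0 X1 Y0 Y1, Gate D p s0 L m i X0 X1 Y0 Y1 := by
  obtain ⟨h0, h1, B, hB⟩ := h
  have k0 := sh_nonneg p
  have k1 := sh_le p
  have k2 := b_max (D := D) (y := y) (by omega) (by omega)
  have k3 := (hB y (by omega) (by omega)).1
  refine ⟨B - m - 1, D.b D.yQ + L, y, y + 1, by omega, by omega, Or.inr (Or.inl (by omega)),
    ⟨B - m - 1, y, by omega, by omega, by omega, by omega, ?_⟩, ?_⟩
  · intro u v h2 h3 h4 h5
    have := hB (v + sh p) (by omega) (by omega)
    exact ⟨by omega, by omega, by omega, by omega⟩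
  · intro u v h2 h3 h4 h5 h6 h7
    apply hi
    have h8 := hB (v + sh p) (by omega) (by omega)
    have h9 : B ≤ u := by
      by_contra hc
      exact h6 ⟨by omega, by omega, by omega, by omega⟩
    have h10 : D.M v ≤ u := by
      have : D.M v = B := MM_eq (hB v (by omega) (by omega)).1 (hB (v + 1) (by omega) (by omega)).1
      omega
    unfold arc at h7
    rw [ps_right (by omega) (by omega) h10] at h7
    rw [← h7]
    have e : ∀ w, y - m ≤ w → w ≤ y + m → rep D s0 (w + 2) = rep D s0 (y - m + 2) := by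
      intro w k4 k5
      have := rep_right hcut (B := B) (w := y - m) (by omega) (w - (y - m)).toNat (by omega)
        fun v k6 k7 => (hB v (by omega) (by omega)).1
      rwa [show y - m + ((w - (y - m)).toNat : ℤ) + 2 = w + 2 by omega] at this
    rw [e y (by omega) (by omega), e v (by omega) (by omega)]

theorem gate_bot (hm : 0 ≤ m) (hL : 1 ≤ L) (h : StB D m) (hi : rep D s0 0 ≠ i) :
    ∃ X0 X1 Y0 Y1, Gate D p s0 L m i X0 X1 Y0 Y1 := by
  obtain ⟨h0, x, hx⟩ := h
  have hh := D.hh
  have k0 := sh_nonneg p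
  have k1 := sh_le p
  refine ⟨x, x + 1, min (-L + 1) (-1), m + 1 - sh p, by omega, by omega,
    Or.inr (Or.inr (Or.inl (by omega))), ⟨x, m - sh p, by omega, by omega, by omega, by omega, ?_⟩, ?_⟩
  · intro u v h2 h3 h4 h5
    have := hx (v + sh p) (by omega) (by omega)
    exact ⟨by omega, by omega, by omega, by omega⟩
  · intro u v h2 h3 h4 h5 h6 h7
    apply hi
    have h9 : v + sh p < 0 := by
      by_contra hc
      have := hx (v + sh p) (by omega) (by omega)
      exact h6 ⟨by omega, by omega, by omega, by omega⟩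
    unfold arc at h7
    have h10 : ps D p u v = 0 := by
      by_cases c : v < -1
      · exact ps_bot c
      · have hv : v = -1 := by omega
        have hp : p = false := by
          rcases sh_cases p with ⟨hp, h⟩ | ⟨hp, h⟩
          · exact hp
          · omega
        subst hv hp
        have k2 := hx 0 le_rfl (by omega)
        have k3 : D.m (-1) = D.a 0 := by
          unfold Win.m mm
          have := D.P0
          rw [if_pos (by omega)]; norm_num
        have k4 : D.M (-1) = D.b 0 := by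
          unfold Win.M Pool.Agent.H46.Sp.MM
          have := D.Q0
          rw [if_pos (by omega)]; norm_num
        unfold ps
        rw [if_neg (by omega), if_neg (by omega), if_neg (by omega), if_neg (by omega),
          if_neg (by simp), if_pos rfl]
    rw [h10] at h7
    exact h7

theorem gate_top (hm : 0 ≤ m) (hL : 1 ≤ L) (h : StT D m) (hi : rep D s0 (D.h + 2) ≠ i) :
    ∃ X0 X1 Y0 Y1, Gate D p s0 L m i X0 X1 Y0 Y1 := by
  obtain ⟨h0, x, hx⟩ := h
  have hh := D.hh
  have k0 := sh_nonneg p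
  have k1 := sh_le p
  refine ⟨x, x + 1, D.h - 1 - m - sh p, D.h + L, by omega, by omega,
    Or.inr (Or.inr (Or.inr (by omega))), ⟨x, D.h - 1 - m - sh p, by omega, by omega, by omega, by omega, ?_⟩,
    ?_⟩
  · intro u v h2 h3 h4 h5
    have := hx (v + sh p) (by omega) (by omega)
    exact ⟨by omega, by omega, by omega, by omega⟩
  · intro u v h2 h3 h4 h5 h6 h7
    apply hi
    have h9 : D.h ≤ v + sh p := by
      by_contra hc
      have := hx (v + sh p) (by omega) (by omega)
      exact h6 ⟨by omega, by omega, by omega, by omega⟩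
    unfold arc at h7
    have h10 : ps D p u v = D.h + 2 := by
      by_cases c : D.h ≤ v
      · exact ps_top c
      · have hv : v = D.h - 1 := by omega
        have hp : p = true := by
          rcases sh_cases p with ⟨hp, h⟩ | ⟨hp, h⟩
          · omega
          · exact hp
        subst hv hp
        have k2 := hx (D.h - 1) (by omega) (by omega)
        have k3 : D.m (D.h - 1) = D.a (D.h - 1) := by
          unfold Win.m mm
          have := D.P1
          rw [if_neg (by omega)]
        have k4 : D.M (D.h - 1) = D.b (D.h - 1) := by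
          unfold Win.M Pool.Agent.H46.Sp.MM
          have := D.Q1
          rw [if_neg (by omega)]
        unfold ps
        rw [if_neg (by omega), if_neg (by omega), if_neg (by omega), if_neg (by omega),
          if_pos rfl, if_pos rfl]
    rw [h10] at h7
    exact h7

/-- **A gate through a straight side avoids every other arc.** -/
theorem gate_of (hcut : colp D (s0 - 1) ≠ colp D s0) (hm : 0 ≤ m) (hL : 1 ≤ L) (h : HasG D m q)
    (hi : rep D s0 q ≠ i) : ∃ X0 X1 Y0 Y1, Gate D p s0 L m i X0 X1 Y0 Y1 := by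
  rcases h with ⟨y, rfl, h⟩ | ⟨y, rfl, h⟩ | ⟨rfl, h⟩ | ⟨rfl, h⟩
  · exact gate_left hcut hm hL h hi
  · exact gate_right hcut hm hL h hi
  · exact gate_bot hm hL h hi
  · exact gate_top hm hL h hi

theorem gates_two (hcut : colp D (s0 - 1) ≠ colp D s0) (hm : 0 ≤ m) (hL : 1 ≤ L) {q' : ℤ}
    (h : HasG D m q) (h' : HasG D m q') (hq : rep D s0 q ≠ rep D s0 q') (i : ℤ) :
    ∃ X0 X1 Y0 Y1, Gate D p s0 L m i X0 X1 Y0 Y1 := by
  by_cases hi : rep D s0 q = i
  · exact gate_of hcut hm hL h' fun h2 => hq (hi.trans h2.symm)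
  · exact gate_of hcut hm hL h hi

/-- **Corners far from the boundary**, with two straight sides of different arcs. -/
theorem farA_two {hS : S ⊆ FR D p} (hL : 5 ≤ L) (hm : 1 ≤ m) (hW : Wide D m)
    (hcut : colp D (s0 - 1) ≠ colp D s0) {q' : ℤ} (h : HasG D m q) (h' : HasG D m q')
    (hq : rep D s0 q ≠ rep D s0 q')
    (hroot : ∀ g, Ag g O.c0 → OutF (D.a (D.yP - 1) - L + 1) (D.b D.yQ + L) (-L + 1) (D.h + L) g)
    {La : ℤ → Finset (ℤ × ℤ)} (hLa : ∀ i, La i ⊆ LbA D p s0 m i) {c : ℤ × ℤ}
    (hc : ∀ g, Ag g c → ∀ x y, OnT g x y → Dp D p m x y) :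
    FarM (XA O p S hS) (TA D p) (fmA D p s0) (colp D) (WlA D p s0 L S) La (bA D p) (oA D p) c :=
  farA_gen hL hm hW hroot (gates_two hcut (by omega) (by omega) h h' hq) hLa hc

end Pool.Agent.H13.Sp
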