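import Mathlib
import Pool.Agent.H33.Sp.SameXY

set_option autoImplicit false
open Finset

/-! # The same ring and the same type outside of the inner box give the same increments

`RingC B W cl cr` : the colours of the boundary tiles (the ring) of the box `B` in `W`. A mark is a wired
row whose next row (counterclockwise) is free. `same_ring` : two environments with the same labels in the
box, two marks `X1`, `X3` and the same type (the free arcs of the ring are joined outside of the inner box, or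
the wired arcs are joined outside of the inner box) and roots at the same mark have the same increments up to
a unit. -/

namespace Pool.Agent.H13.Sp

open Pool.Agent.H75.Perc hiding ph cc EE
open Pool.Agent.H75.TwoArm Pool.Agent.Q1 Pool.Agent.H33.Q1
open Pool.Agent.H69.Q1
open Pool.Agent.H74.R45 hiding plab_nx
open Pool.Agent.H33.R45 (rco rdco vx_he_S vx_he_N vx_ve_E vx_ve_W)
open Pool.Agent.H13.R45 (gp)
open Pool.Agent.Q1.Env (TConn TAdj ArcN SamePat)
open Pool.Agent.Q1.M6c (PlaneEnv entrance_unique)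
open Pool.Agent.H33.Sp

namespace SR

/-! ### Grid points of one colour -/

/-- the grid points `p`, `q` of colour `o` are joined by tiles of colour `o` -/
def Cn (o : Bool) (A : Finset (ℤ × ℤ)) (p q : ℤ × ℤ) : Prop :=
  if o then Co A (gp p) (gp q) else DCo A (gp p) (gp q)

/-- parity of the grid points of colour `o` -/
def pt (o : Bool) : ℤ := if o then 0 else 1

variable {o : Bool} {A : Finset (ℤ × ℤ)} {p q r : ℤ × ℤ}

lemma Cn.refl (o : Bool) (A : Finset (ℤ × ℤ)) (p : ℤ × ℤ) : Cn o A p p := by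
  unfold Cn
  split_ifs
  · exact Co.refl _ _
  · exact DCo.refl _ _

lemma Cn.symm (h : Cn o A p q) : Cn o A q p := by
  unfold Cn at h ⊢
  split_ifs at h ⊢
  · exact Co.symm h
  · exact DCo.symm h

lemma Cn.trans (h : Cn o A p q) (h' : Cn o A q r) : Cn o A p r := by
  unfold Cn at h h' ⊢
  split_ifs at h h' ⊢
  · exact Co.trans h h'
  · exact DCo.trans h h'

lemma cn_true : Cn true A p q ↔ Co A (gp p) (gp q) := Iff.rfl
lemma cn_false : Cn false A p q ↔ DCo A (gp p) (gp q) := by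
  unfold Cn; rw [if_neg (by simp)]

/-- a rectangle of tiles of one colour -/
lemma crect {a b c d : ℤ} (x0 x1 y0 y1 : ℤ) (hx : x0 < x1) (hy : y0 < y1)
    (hD : ∀ x y, x0 ≤ x → x < x1 → y0 ≤ y → y < y1 → (lt (x, y) ∈ A ↔ o = true))
    (hp : (x0 ≤ a ∧ a ≤ x1 ∧ y0 ≤ b ∧ b ≤ y1) ∧ (a + b) % 2 = pt o)
    (hq : (x0 ≤ c ∧ c ≤ x1 ∧ y0 ≤ d ∧ d ≤ y1) ∧ (c + d) % 2 = pt o) : Cn o A (a, b) (c, d) := by
  cases o with
  | true => exact rco x0 x1 y0 y1 hx hy (fun x y h1 h2 h3 h4 => (hD x y h1 h2 h3 h4).2 rfl) hp hq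
  | false =>
    rw [cn_false]
    exact rdco x0 x1 y0 y1 hx hy (fun x y h1 h2 h3 h4 h5 => absurd ((hD x y h1 h2 h3 h4).1 h5)
      (by simp)) hp hq

/-! ### Walks along a circle of positions -/

section walk

variable {M : ℤ} {C : ℤ → Prop} {G : ℤ → ℤ → Prop}

lemma walk_aux (gr : ∀ p, G p p) (gt : ∀ p q r, G p q → G q r → G p r)
    (step : ∀ p, 0 ≤ p → p + 1 < M → C p → C (p + 1) → G p (p + 1)) (n : ℕ) :
    ∀ p, 0 ≤ p → p < M → M - 1 - p = n → C p →
      (∃ q, 0 ≤ q ∧ q + 1 < M ∧ C q ∧ ¬ C (q + 1) ∧ G p q) ∨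
      (G p (M - 1) ∧ ∀ r, p ≤ r → r < M → C r) := by
  induction n with
  | zero =>
    intro p h0 h1 h2 h3
    right
    have : M - 1 = p := by push_cast at h2; omega
    rw [this]
    refine ⟨gr p, fun r h4 h5 => ?_⟩
    obtain rfl : r = p := by omega
    exact h3
  | succ n ih =>
    intro p h0 h1 h2 h3
    push_cast at h2
    by_cases h4 : C (p + 1)
    · have h5 := step p h0 (by omega) h3 h4
      rcases ih (p + 1) (by omega) (by omega) (by omega) h4 with ⟨q, h6, h7, h8, h9, h10⟩ | ⟨h6, h7⟩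
      · exact Or.inl ⟨q, h6, h7, h8, h9, gt _ _ _ h5 h10⟩
      · refine Or.inr ⟨gt _ _ _ h5 h6, fun r h8 h9 => ?_⟩
        rcases (by omega : r = p ∨ p + 1 ≤ r) with rfl | h10
        · exact h3
        · exact h7 r h10 h9
    · exact Or.inl ⟨p, h0, by omega, h3, h4, gr p⟩

/-- forward to the end of the arc -/
lemma walk_fwd (gr : ∀ p, G p p) (gt : ∀ p q r, G p q → G q r → G p r)
    (step : ∀ p, 0 ≤ p → p + 1 < M → C p → C (p + 1) → G p (p + 1))
    (hw : C (M - 1) → C 0 ∧ G (M - 1) 0) (hq : ∃ q, 0 ≤ q ∧ q < M ∧ ¬ C q) {p : ℤ}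
    (h0 : 0 ≤ p) (h1 : p < M) (hp : C p) :
    ∃ q, 0 ≤ q ∧ q + 1 < M ∧ C q ∧ ¬ C (q + 1) ∧ G p q := by
  rcases walk_aux gr gt step (M - 1 - p).toNat p h0 h1 (by omega) hp with h | ⟨h2, h3⟩
  · exact h
  · obtain ⟨h4, h5⟩ := hw (h3 _ (by omega) (by omega))
    rcases walk_aux gr gt step (M - 1 - 0).toNat 0 le_rfl (by omega) (by omega) h4 with
      ⟨q, h6, h7, h8, h9, h10⟩ | ⟨-, h6⟩
    · exact ⟨q, h6, h7, h8, h9, gt _ _ _ (gt _ _ _ h2 h5) h10⟩
    · obtain ⟨q, h7, h8, h9⟩ := hq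
      exact absurd (h6 q h7 h8) h9

/-- backward to the start of the arc -/
lemma walk_bwd (gr : ∀ p, G p p) (gt : ∀ p q r, G p q → G q r → G p r) (gs : ∀ p q, G p q → G q p)
    (step : ∀ p, 0 ≤ p → p + 1 < M → C p → C (p + 1) → G p (p + 1))
    (hw : C 0 → C (M - 1) ∧ G (M - 1) 0) (hq : ∃ q, 0 ≤ q ∧ q < M ∧ ¬ C q) {p : ℤ}
    (h0 : 0 ≤ p) (h1 : p < M) (hp : C p) :
    ∃ q, 0 ≤ q ∧ q + 1 < M ∧ ¬ C q ∧ C (q + 1) ∧ G p (q + 1) := by
  obtain ⟨q, h2, h3, h4, h5, h6⟩ := walk_fwd (M := M) (C := fun p => C (M - 1 - p))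
    (G := fun p q => G (M - 1 - p) (M - 1 - q)) (fun p => gr _) (fun p q r => gt _ _ _)
    (fun p k0 k1 k2 k3 => by
      have := step (M - 1 - (p + 1)) (by omega) (by omega) k3
        (by rwa [show M - 1 - (p + 1) + 1 = M - 1 - p by ring])
      rw [show M - 1 - (p + 1) + 1 = M - 1 - p by ring] at this
      exact gs _ _ this)
    (fun h => by
      rw [show M - 1 - (M - 1) = 0 by ring] at h ⊢
      rw [show M - 1 - 0 = M - 1 by ring]
      exact ⟨(hw h).1, gs _ _ (hw h).2⟩)
    (by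
      obtain ⟨q, k0, k1, k2⟩ := hq
      exact ⟨M - 1 - q, by omega, by omega, by rwa [sub_sub_cancel]⟩)
    (p := M - 1 - p) (by omega) (by omega) (by rwa [sub_sub_cancel])
  rw [sub_sub_cancel] at h6
  refine ⟨M - 1 - (q + 1), by omega, by omega, h5, ?_, ?_⟩
  · rwa [show M - 1 - (q + 1) + 1 = M - 1 - q by ring]
  · rwa [show M - 1 - (q + 1) + 1 = M - 1 - q by ring]

end walk

end SR

open SR

/-! ### The ring of a box -/

/-- the colours of the boundary tiles of the box -/
structure RingC (B : BF) (W : Finset (ℤ × ℤ)) (cl cr : ℤ → Bool) : Prop where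
  lf : ∀ y, B.y0 ≤ y → y < B.y1 → (lt (B.x0, y) ∈ W ↔ cl y = true)
  rt : ∀ y, B.y0 ≤ y → y < B.y1 → (lt (B.x1 - 1, y) ∈ W ↔ cr y = true)
  bt : ∀ x, B.x0 ≤ x → x < B.x1 → (lt (x, B.y0) ∈ W ↔ cl B.y0 = true)
  tp : ∀ x, B.x0 ≤ x → x < B.x1 → (lt (x, B.y1 - 1) ∈ W ↔ cl (B.y1 - 1) = true)

/-- the last wired row before a free row, counterclockwise -/
def WFc (cl cr : ℤ → Bool) (X : Bool × ℤ) : Prop :=
  if X.1 then cr X.2 = true ∧ cr (X.2 + 1) = false else cl X.2 = true ∧ cl (X.2 - 1) = false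

/-- a mark of the ring -/
structure MarkR (B : BF) (cl cr : ℤ → Bool) (X : Bool × ℤ) : Prop where
  wf : WFc cl cr X
  lf : X.1 = false → B.y0 + 2 ≤ X.2 ∧ X.2 < B.y1
  rt : X.1 = true → B.y0 + 1 ≤ X.2 ∧ X.2 + 1 < B.y1

/-- a vertex of the wired tile at a mark -/
def vR (B : BF) (X : Bool × ℤ) : ℤ × ℤ := BF.et (if X.1 then B.x1 - 1 else B.x0) X.2

/-- a face of the tile `(x, y)` -/
def ef (x y : ℤ) : ℤ × ℤ := gp (x + (x + y + 1) % 2, y)

/-- a face of the free tile at a mark -/
def fR (B : BF) (X : Bool × ℤ) : ℤ × ℤ :=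
  ef (if X.1 then B.x1 - 1 else B.x0) (if X.1 then X.2 + 1 else X.2 - 1)

/-- the inner box -/
noncomputable def Si (B : BF) : Finset (ℤ × ℤ) := RT (B.x0 + 1) (B.x1 - 1) (B.y0 + 1) (B.y1 - 1)

variable {B : BF} {E W W' A : Finset (ℤ × ℤ)} {cl cr : ℤ → Bool} {X Y X1 X3 : Bool × ℤ} {x y : ℤ}
  {o : Bool}

lemma mem_Si : lt (x, y) ∈ Si B ↔ B.x0 < x ∧ x + 1 < B.x1 ∧ B.y0 < y ∧ y + 1 < B.y1 := by
  unfold Si
  rw [lt_mem_RT]
  omega

lemma RingC.congr (H : RingC B W cl cr) (h : ∀ x y, B.InB x y → lt (x, y) ∉ Si B →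
    (lt (x, y) ∈ A ↔ lt (x, y) ∈ W)) : RingC B A cl cr := by
  have hx := B.hx
  have hy := B.hy
  have hh : ∀ x y, B.InB x y → (x = B.x0 ∨ x = B.x1 - 1 ∨ y = B.y0 ∨ y = B.y1 - 1) →
      (lt (x, y) ∈ A ↔ lt (x, y) ∈ W) := fun x y h1 h2 => h x y h1 (by rw [mem_Si]; omega)
  unfold BF.InB at hh
  refine ⟨fun y h1 h2 => ?_, fun y h1 h2 => ?_, fun x h1 h2 => ?_, fun x h1 h2 => ?_⟩
  · rw [hh _ _ (by omega) (by omega), H.lf y h1 h2]
  · rw [hh _ _ (by omega) (by omega), H.rt y h1 h2]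
  · rw [hh _ _ (by omega) (by omega), H.bt x h1 h2]
  · rw [hh _ _ (by omega) (by omega), H.tp x h1 h2]

lemma RingC.diff (H : RingC B W cl cr) : RingC B (W \ Si B) cl cr :=
  H.congr fun x y _ h => by rw [mem_sdiff]; exact ⟨fun h1 => h1.1, fun h1 => ⟨h1, h⟩⟩

lemma RingC.add (H : RingC B W cl cr) : RingC B (Si B ∪ W) cl cr :=
  H.congr fun x y _ h => by rw [mem_union]; exact ⟨fun h1 => h1.resolve_left h, Or.inr⟩

lemma bool_eq_of_iff {P : Prop} {a b : Bool} (h : P ↔ a = true) (h' : P ↔ b = true) : a = b := by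
  have : a = true ↔ b = true := h.symm.trans h'
  cases a <;> cases b <;> simp_all

lemma RingC.cb (H : RingC B W cl cr) : cr B.y0 = cl B.y0 := by
  have hx := B.hx
  have hy := B.hy
  exact bool_eq_of_iff (H.rt B.y0 le_rfl hy) (H.bt (B.x1 - 1) (by omega) (by omega))

lemma RingC.ct (H : RingC B W cl cr) : cr (B.y1 - 1) = cl (B.y1 - 1) := by
  have hx := B.hx
  have hy := B.hy
  exact bool_eq_of_iff (H.rt (B.y1 - 1) (by omega) (by omega)) (H.tp (B.x1 - 1) (by omega) (by omega))

/-- the colour of the position `p` -/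
def col (B : BF) (cl cr : ℤ → Bool) (p : ℤ) : Bool := if p < B.N then cl (B.py p) else cr (B.py p)

/-- the grid point of colour `o` in the tile at the position `p` -/
def rv (B : BF) (o : Bool) (p : ℤ) : ℤ × ℤ := (B.ix p + (B.ix p + B.py p + pt o) % 2, B.py p)

lemma RingC.tl (H : RingC B W cl cr) {p : ℤ} (h0 : 0 ≤ p) (h1 : p < 2 * B.N) :
    lt (B.ix p, B.py p) ∈ W ↔ col B cl cr p = true := by
  have hN : B.N = B.y1 - B.y0 := rfl
  unfold col BF.ix BF.py
  split_ifs with h
  · exact H.lf _ (by omega) (by omega)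
  · exact H.rt _ (by omega) (by omega)

lemma pt_cases (o : Bool) : pt o = 0 ∨ pt o = 1 := by
  unfold pt; split_ifs <;> simp

lemma mem_iff_col {P : Prop} {a : Bool} (h : P ↔ a = true) (ha : a = o) : P ↔ o = true := by
  rw [← ha]; exact h

lemma rv_step (H : RingC B W cl cr) {p : ℤ} (h0 : 0 ≤ p) (h1 : p + 1 < 2 * B.N)
    (hp : col B cl cr p = o) (hq : col B cl cr (p + 1) = o) : Cn o W (rv B o p) (rv B o (p + 1)) := by
  have e1 := H.tl h0 (by omega)
  have e2 := H.tl (p := p + 1) (by omega) h1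
  have hx := B.hx
  have hy := B.hy
  have hN : B.N = B.y1 - B.y0 := rfl
  have hpt := pt_cases o
  rw [hp] at e1
  rw [hq] at e2
  unfold rv
  rcases lt_trichotomy (p + 1) B.N with h | h | h
  · unfold BF.ix BF.py at e1 e2 ⊢
    rw [if_pos (by omega), if_pos (by omega)] at e1 e2
    simp only [if_pos (show p < B.N by omega), if_pos (show p + 1 < B.N by omega)]
    refine crect B.x0 (B.x0 + 1) (B.y1 - 1 - (p + 1)) (B.y1 - 1 - p + 1) (by omega) (by omega)
      (fun x y d1 d2 d3 d4 => ?_) (by omega) (by omega)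
    obtain rfl : x = B.x0 := by omega
    rcases (by omega : y = B.y1 - 1 - p ∨ y = B.y1 - 1 - (p + 1)) with rfl | rfl
    · exact e1
    · exact e2
  · unfold col BF.py at hp
    rw [if_pos (by omega), if_pos (by omega), show B.y1 - 1 - p = B.y0 by omega] at hp
    unfold BF.ix BF.py
    simp only [if_pos (show p < B.N by omega), if_neg (show ¬ p + 1 < B.N by omega)]
    refine crect B.x0 B.x1 B.y0 (B.y0 + 1) (by omega) (by omega)
      (fun x y d1 d2 d3 d4 => ?_) (by omega) (by omega)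
    obtain rfl : y = B.y0 := by omega
    exact mem_iff_col (H.bt x d1 d2) hp
  · unfold BF.ix BF.py at e1 e2 ⊢
    rw [if_neg (by omega), if_neg (by omega)] at e1 e2
    simp only [if_neg (show ¬ p < B.N by omega), if_neg (show ¬ p + 1 < B.N by omega)]
    refine crect (B.x1 - 1) B.x1 (B.y0 + (p - B.N)) (B.y0 + (p + 1 - B.N) + 1) (by omega) (by omega)
      (fun x y d1 d2 d3 d4 => ?_) (by omega) (by omega)
    obtain rfl : x = B.x1 - 1 := by omega
    rcases (by omega : y = B.y0 + (p - B.N) ∨ y = B.y0 + (p + 1 - B.N)) with rfl | rfl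
    · exact e1
    · exact e2

lemma col_last (H : RingC B W cl cr) : col B cl cr (2 * B.N - 1) = cl (B.y1 - 1) ∧
    col B cl cr 0 = cl (B.y1 - 1) := by
  have hN0 := B.N_pos
  have hN : B.N = B.y1 - B.y0 := rfl
  unfold col BF.py
  rw [if_neg (by omega), if_neg (by omega), if_pos (by omega), if_pos (by omega)]
  rw [show B.y0 + (2 * B.N - 1 - B.N) = B.y1 - 1 by omega, H.ct, sub_zero]
  exact ⟨rfl, rfl⟩

lemma rv_wrap (H : RingC B W cl cr) (hp : col B cl cr 0 = o) :
    Cn o W (rv B o (2 * B.N - 1)) (rv B o 0) := by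
  have hN0 := B.N_pos
  have hx := B.hx
  have hy := B.hy
  have hN : B.N = B.y1 - B.y0 := rfl
  have hpt := pt_cases o
  rw [(col_last H).2] at hp
  unfold rv BF.ix BF.py
  simp only [if_pos (show (0 : ℤ) < B.N by omega), if_neg (show ¬ 2 * B.N - 1 < B.N by omega)]
  refine crect B.x0 B.x1 (B.y1 - 1) (B.y1 - 1 + 1) (by omega) (by omega)
    (fun x y d1 d2 d3 d4 => ?_) (by omega) (by omega)
  obtain rfl : y = B.y1 - 1 := by omega
  exact mem_iff_col (H.tp x d1 d2) hp

/-- joined inside of every such ring -/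
def Lk (B : BF) (cl cr : ℤ → Bool) (o : Bool) (p q : ℤ × ℤ) : Prop :=
  ∀ A, RingC B A cl cr → Cn o A p q

/-! ### Marks and positions -/

lemma isP_of (h : MarkR B cl cr X) : B.IsP X := by
  have h1 := h.lf
  have h2 := h.rt
  rcases hs : X.1 with _ | _
  · have := h1 hs
    exact ⟨by omega, by omega, fun _ => by omega, fun h => absurd (hs.symm.trans h) (by simp)⟩
  · have := h2 hs
    exact ⟨by omega, by omega, fun h => absurd (hs.symm.trans h) (by simp), fun _ => by omega⟩

lemma ix_at (hX : B.IsP X) : B.ix (B.pos X) = (if X.1 then B.x1 - 1 else B.x0) ∧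
    B.ix (B.pos X + 1) = (if X.1 then B.x1 - 1 else B.x0) ∧
    B.py (B.pos X + 1) = (if X.1 then X.2 + 1 else X.2 - 1) := by
  obtain ⟨a1, a2, a3, a4⟩ := hX
  have hN : B.N = B.y1 - B.y0 := rfl
  unfold BF.ix BF.py BF.pos
  rcases h : X.1 with _ | _
  · have := a3 h
    simp only [Bool.false_eq_true, if_false]
    rw [if_pos (by omega), if_pos (by omega), if_pos (by omega)]
    exact ⟨rfl, rfl, by ring⟩
  · have := a4 h
    simp only [if_true]
    rw [if_neg (by omega), if_neg (by omega), if_neg (by omega)]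
    exact ⟨rfl, rfl, by ring⟩

lemma vR_eq (hX : B.IsP X) : gp (rv B true (B.pos X)) = vR B X := by
  unfold rv vR BF.et
  rw [(ix_at hX).1, BF.py_pos hX]
  simp [pt]

lemma fR_eq (hX : B.IsP X) : gp (rv B false (B.pos X + 1)) = fR B X := by
  unfold rv fR ef
  rw [(ix_at hX).2.1, (ix_at hX).2.2]
  simp [pt]

lemma col_pos (hX : B.IsP X) (h : WFc cl cr X) : col B cl cr (B.pos X) = true ∧
    col B cl cr (B.pos X + 1) = false := by
  have e1 := BF.py_pos hX
  have e2 := (ix_at hX).2.2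
  obtain ⟨a1, a2, a3, a4⟩ := hX
  have hN : B.N = B.y1 - B.y0 := rfl
  unfold col
  rw [e1, e2]
  unfold WFc at h
  rcases hs : X.1 with _ | _
  · have := a3 hs
    simp only [hs, Bool.false_eq_true, if_false] at h ⊢
    have hp : B.pos X = B.y1 - 1 - X.2 := by unfold BF.pos; simp [hs]
    rw [if_pos (by omega), if_pos (by omega)]
    exact h
  · have := a4 hs
    simp only [hs, if_true] at h ⊢
    have hp : B.pos X = B.N + (X.2 - B.y0) := by unfold BF.pos; simp [hs]
    rw [if_neg (by omega), if_neg (by omega)]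
    exact h

/-- a change of colour is a mark -/
lemma mark_of (H : RingC B W cl cr) {q : ℤ} (h0 : 0 ≤ q) (h1 : q + 1 < 2 * B.N)
    (h2 : col B cl cr q = true) (h3 : col B cl cr (q + 1) = false) :
    ∃ X, B.IsP X ∧ WFc cl cr X ∧ B.pos X = q := by
  have hN : B.N = B.y1 - B.y0 := rfl
  have hcb := H.cb
  unfold col BF.py at h2 h3
  rcases lt_trichotomy (q + 1) B.N with h | h | h
  · rw [if_pos (by omega), if_pos (by omega)] at h2 h3
    refine ⟨(false, B.y1 - 1 - q), ⟨by simp only; omega, by simp only; omega, fun _ => by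
      simp only; omega, fun h => absurd h (by simp)⟩, ?_, ?_⟩
    · unfold WFc
      simp only [Bool.false_eq_true, if_false]
      exact ⟨h2, by rw [← h3]; congr 1; ring⟩
    · unfold BF.pos
      simp only [Bool.false_eq_true, if_false]
      ring
  · rw [if_pos (by omega), if_pos (by omega), show B.y1 - 1 - q = B.y0 by omega] at h2
    rw [if_neg (by omega), if_neg (by omega), show B.y0 + (q + 1 - B.N) = B.y0 by omega, hcb, h2] at h3
    exact absurd h3 (by simp)
  · rw [if_neg (by omega), if_neg (by omega)] at h2 h3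
    refine ⟨(true, B.y0 + (q - B.N)), ⟨by simp only; omega, by simp only; omega,
      fun h => absurd h (by simp), fun _ => by simp only; omega⟩, ?_, ?_⟩
    · unfold WFc
      simp only [if_true]
      exact ⟨h2, by rw [← h3]; congr 1; ring⟩
    · unfold BF.pos
      simp only [if_true]
      ring

section marks

variable (H : RingC B W cl cr) (m1 : MarkR B cl cr X1) (m3 : MarkR B cl cr X3)
  (hu : ∀ X, B.IsP X → WFc cl cr X → X = X1 ∨ X = X3)

include H m1 hu in
/-- wired positions belong to a mark -/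
lemma wired_pos {p : ℤ} (h0 : 0 ≤ p) (h1 : p < 2 * B.N) (hp : col B cl cr p = true) :
    ∃ X, (X = X1 ∨ X = X3) ∧ Lk B cl cr true (rv B true p) (rv B true (B.pos X)) := by
  have c1 := col_pos (isP_of m1) m1.wf
  have r1 := BF.pos_range (isP_of m1)
  have hl := col_last H
  obtain ⟨q, k0, k1, k2, k3, k4⟩ := walk_fwd (M := 2 * B.N) (C := fun p => col B cl cr p = true)
    (G := fun p q => Lk B cl cr true (rv B true p) (rv B true q)) (fun p A _ => Cn.refl _ _ _)
    (fun p q r h1 h2 A hA => (h1 A hA).trans (h2 A hA))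
    (fun p h0 h1 h2 h3 A hA => rv_step hA h0 h1 h2 h3)
    (fun h => by
      have h' : col B cl cr 0 = true := by rw [hl.2, ← hl.1]; exact h
      exact ⟨h', fun A hA => rv_wrap hA h'⟩)
    ⟨B.pos X1 + 1, by omega, by omega, by simp [c1.2]⟩ h0 h1 hp
  obtain ⟨X, a1, a2, a3⟩ := mark_of H k0 k1 k2 (by simpa using k3)
  refine ⟨X, hu X a1 a2, ?_⟩
  rw [a3]; exact k4

include H m1 hu in
/-- free positions belong to a mark -/
lemma free_pos {p : ℤ} (h0 : 0 ≤ p) (h1 : p < 2 * B.N) (hp : col B cl cr p = false) :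
    ∃ X, (X = X1 ∨ X = X3) ∧ Lk B cl cr false (rv B false p) (rv B false (B.pos X + 1)) := by
  have c1 := col_pos (isP_of m1) m1.wf
  have r1 := BF.pos_range (isP_of m1)
  have hl := col_last H
  obtain ⟨q, k0, k1, k2, k3, k4⟩ := walk_bwd (M := 2 * B.N) (C := fun p => col B cl cr p = false)
    (G := fun p q => Lk B cl cr false (rv B false p) (rv B false q)) (fun p A _ => Cn.refl _ _ _)
    (fun p q r h1 h2 A hA => (h1 A hA).trans (h2 A hA)) (fun p q h A hA => (h A hA).symm)
    (fun p h0 h1 h2 h3 A hA => rv_step hA h0 h1 h2 h3)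
    (fun h => ⟨by rw [hl.1, ← hl.2]; exact h, fun A hA => rv_wrap hA h⟩)
    ⟨B.pos X1, by omega, by omega, by simp [c1.1]⟩ h0 h1 hp
  obtain ⟨X, a1, a2, a3⟩ := mark_of H k0 k1 (by simpa using k2) k3
  refine ⟨X, hu X a1 a2, ?_⟩
  rw [a3]; exact k4

end marks

/-- a boundary point of colour `o` in a tile of colour `o` is joined to a position of colour `o` -/
lemma bd_pos (H : RingC B W cl cr) {a b : ℤ} (hab : (a + b) % 2 = pt o) (hxy : B.InB x y)
    (ht : Tch x y (a, b)) (hb : a = B.x0 ∨ a = B.x1 ∨ b = B.y0 ∨ b = B.y1)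
    (hl : lt (x, y) ∈ W ↔ o = true) :
    ∃ r, 0 ≤ r ∧ r < 2 * B.N ∧ col B cl cr r = o ∧ Lk B cl cr o (a, b) (rv B o r) := by
  have hN0 := B.N_pos
  have hx := B.hx
  have hy := B.hy
  have hN : B.N = B.y1 - B.y0 := rfl
  have hpt := pt_cases o
  unfold BF.InB at hxy
  unfold Tch at ht
  simp only at ht
  have hc : ∀ {c : Bool}, (lt (x, y) ∈ W ↔ c = true) → c = o := fun h => bool_eq_of_iff h hl
  rcases hb with hb | hb | hb | hb
  · obtain rfl : x = B.x0 := by omega
    have h1 := hc (H.lf y (by omega) (by omega))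
    refine ⟨B.y1 - 1 - y, by omega, by omega, ?_, fun A hA => ?_⟩
    · unfold col BF.py
      rw [if_pos (by omega), if_pos (by omega), sub_sub_cancel]; exact h1
    · unfold rv BF.ix BF.py
      rw [if_pos (by omega), if_pos (by omega), sub_sub_cancel]
      refine crect B.x0 (B.x0 + 1) y (y + 1) (by omega) (by omega) (fun x' y' d1 d2 d3 d4 => ?_)
        (by omega) (by omega)
      obtain rfl : x' = B.x0 := by omega
      obtain rfl : y' = y := by omega
      exact mem_iff_col (hA.lf y' (by omega) (by omega)) h1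
  · obtain rfl : x = B.x1 - 1 := by omega
    have h1 := hc (H.rt y (by omega) (by omega))
    have e : B.y0 + (B.N + (y - B.y0) - B.N) = y := by ring
    refine ⟨B.N + (y - B.y0), by omega, by omega, ?_, fun A hA => ?_⟩
    · unfold col BF.py
      rw [if_neg (by omega), if_neg (by omega), e]; exact h1
    · unfold rv BF.ix BF.py
      rw [if_neg (by omega), if_neg (by omega), e]
      refine crect (B.x1 - 1) B.x1 y (y + 1) (by omega) (by omega) (fun x' y' d1 d2 d3 d4 => ?_)
        (by omega) (by omega)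
      obtain rfl : x' = B.x1 - 1 := by omega
      obtain rfl : y' = y := by omega
      exact mem_iff_col (hA.rt y' (by omega) (by omega)) h1
  · obtain rfl : y = B.y0 := by omega
    have h1 := hc (H.bt x (by omega) (by omega))
    have e : B.y1 - 1 - (B.N - 1) = B.y0 := by omega
    refine ⟨B.N - 1, by omega, by omega, ?_, fun A hA => ?_⟩
    · unfold col BF.py
      rw [if_pos (by omega), if_pos (by omega), e]; exact h1
    · unfold rv BF.ix BF.py
      rw [if_pos (by omega), if_pos (by omega), e]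
      refine crect B.x0 B.x1 B.y0 (B.y0 + 1) (by omega) (by omega) (fun x' y' d1 d2 d3 d4 => ?_)
        (by omega) (by omega)
      obtain rfl : y' = B.y0 := by omega
      exact mem_iff_col (hA.bt x' (by omega) (by omega)) h1
  · obtain rfl : y = B.y1 - 1 := by omega
    have h1 := hc (H.tp x (by omega) (by omega))
    refine ⟨0, by omega, by omega, ?_, fun A hA => ?_⟩
    · unfold col BF.py
      rw [if_pos (by omega), if_pos (by omega), sub_zero]; exact h1
    · unfold rv BF.ix BF.py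
      rw [if_pos (by omega), if_pos (by omega), sub_zero]
      refine crect B.x0 B.x1 (B.y1 - 1) B.y1 (by omega) (by omega) (fun x' y' d1 d2 d3 d4 => ?_)
        (by omega) (by omega)
      obtain rfl : y' = B.y1 - 1 := by omega
      exact mem_iff_col (hA.tp x' (by omega) (by omega)) h1

end Pool.Agent.H13.Sp
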