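import Mathlib
import Pool.Agent.H13.Sp.RingA

set_option autoImplicit false
open Finset

/-! # The same ring and the same type give the same increments

`neg` : not both the wired arcs and the free arcs of the ring are joined outside of the inner box.
`same_ring` : see `RingA`. -/

namespace Pool.Agent.H13.Sp

open Pool.Agent.H75.Perc hiding ph cc EE
open Pool.Agent.H75.TwoArm Pool.Agent.Q1 Pool.Agent.H33.Q1
open Pool.Agent.H69.Q1
open Pool.Agent.H74.R45 hiding plab_nx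
open Pool.Agent.H33.R45 (rco rdco vx_he_S vx_he_N vx_ve_E vx_ve_W)
open Pool.Agent.H13.R45 (gp)
open Pool.Agent.Q1.Env (TConn TAdj ArcN SamePat)
open Pool.Agent.Q1.M6c (PlaneEnv entrance_unique)
open Pool.Agent.H33.Sp
open SR

variable {B : BF} {E W W' A : Finset (ℤ × ℤ)} {cl cr : ℤ → Bool} {X Y X1 X3 : Bool × ℤ} {x y : ℤ}
  {o : Bool}

/-! ### The entrance of the inner box next to a mark -/

/-- position of the entrance -/
def EPos (B : BF) (X : Bool × ℤ) (c : ℤ × ℤ) : Prop :=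
  (X.1 = false → (∃ y, (y = X.2 ∨ y = X.2 - 1) ∧ lab c = lt (B.x0 + 1, y)) ∧
    ((∃ y, plab c = lt (B.x0, y)) ∨ (plab c = lt (B.x0 + 1, B.y1 - 1) ∧ X.2 = B.y1 - 1))) ∧
  (X.1 = true → (∃ y, (y = X.2 ∨ y = X.2 + 1) ∧ lab c = lt (B.x1 - 2, y)) ∧
    ((∃ y, plab c = lt (B.x1 - 1, y)) ∨ (plab c = lt (B.x1 - 2, B.y1 - 1) ∧ X.2 + 1 = B.y1 - 1)))

/-- **The entrance of the inner box next to a mark.** -/
theorem entrance (hw : B.x0 + 3 ≤ B.x1) (m : MarkR B cl cr X)
    (hct : cr (B.y1 - 1) = cl (B.y1 - 1)) :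
    ∃ c, lab c ∈ Si B ∧ plab c ∉ Si B ∧ EPos B X c ∧
      (∀ A, RingC B A cl cr → Co A (vx c) (vR B X)) ∧
      ∀ A, RingC B A cl cr → DCo A (fi c) (fR B X) := by
  have hwf := m.wf
  have hl := m.lf
  have hr := m.rt
  unfold WFc at hwf
  unfold EPos vR fR ef BF.et
  rcases hs : X.1 with _ | _
  · have h1 := hl hs
    simp only [hs, Bool.false_eq_true, if_false, true_implies, false_implies, and_true] at hwf ⊢
    have tv : ∀ A, RingC B A cl cr → (lt (B.x0, X.2) ∈ A ∧ lt (B.x0, X.2 - 1) ∉ A) := by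
      intro A hA
      refine ⟨(hA.lf X.2 (by omega) (by omega)).2 hwf.1, fun h => ?_⟩
      rw [(hA.lf (X.2 - 1) (by omega) (by omega)).1 h] at hwf
      exact absurd hwf.2 (by simp)
    rcases Int.emod_two_eq_zero_or_one (B.x0 + X.2) with hp | hp
    · rcases (by omega : X.2 < B.y1 - 1 ∨ X.2 = B.y1 - 1) with h2 | h2
      · have hpar : (B.x0 + 1 + X.2) % 2 = 1 := by omega
        refine ⟨ve (B.x0 + 1, X.2), ?_, ?_, ⟨⟨X.2, Or.inl rfl, ?_⟩, Or.inl ⟨X.2, ?_⟩⟩, fun A hA => ?_,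
          fun A hA => ?_⟩
        · rw [lab_ve_E hpar, mem_Si]; omega
        · rw [plab_ve_E hpar, mem_Si]; omega
        · rw [lab_ve_E hpar]
        · rw [plab_ve_E hpar]; congr 2; ring
        · rw [(vx_ve_E hpar).1]
          refine rco B.x0 (B.x0 + 1) X.2 (X.2 + 1) (by omega) (by omega) (fun x y d1 d2 d3 d4 => ?_)
            (by omega) (by omega)
          obtain rfl : x = B.x0 := by omega
          obtain rfl : y = X.2 := by omega
          exact (tv A hA).1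
        · rw [(vx_ve_E hpar).2]
          refine rdco B.x0 (B.x0 + 1) (X.2 - 1) X.2 (by omega) (by omega) (fun x y d1 d2 d3 d4 => ?_)
            (by omega) (by omega)
          obtain rfl : x = B.x0 := by omega
          obtain rfl : y = X.2 - 1 := by omega
          exact (tv A hA).2
      · have hpar : (B.x0 + 1 + X.2) % 2 = 1 := by omega
        refine ⟨he (B.x0 + 1, X.2), ?_, ?_, ⟨⟨X.2 - 1, Or.inr rfl, ?_⟩, Or.inr ⟨?_, h2⟩⟩,
          fun A hA => ?_, fun A hA => ?_⟩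
        · rw [lab_he_S hpar, mem_Si]; omega
        · rw [plab_he_S hpar, mem_Si]; omega
        · rw [lab_he_S hpar]
        · rw [plab_he_S hpar, h2]
        · rw [(vx_he_S hpar).1]
          refine rco B.x0 B.x1 X.2 (X.2 + 1) (by omega) (by omega) (fun x y d1 d2 d3 d4 => ?_)
            (by omega) (by omega)
          obtain rfl : y = B.y1 - 1 := by omega
          rw [h2] at hwf
          exact (hA.tp x d1 d2).2 hwf.1
        · rw [(vx_he_S hpar).2]
          refine rdco B.x0 (B.x0 + 1) (X.2 - 1) X.2 (by omega) (by omega) (fun x y d1 d2 d3 d4 => ?_)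
            (by omega) (by omega)
          obtain rfl : x = B.x0 := by omega
          obtain rfl : y = X.2 - 1 := by omega
          exact (tv A hA).2
    · have hpar : (B.x0 + 1 + (X.2 - 1)) % 2 = 1 := by omega
      refine ⟨ve (B.x0 + 1, X.2 - 1), ?_, ?_, ⟨⟨X.2 - 1, Or.inr rfl, ?_⟩, Or.inl ⟨X.2 - 1, ?_⟩⟩,
        fun A hA => ?_, fun A hA => ?_⟩
      · rw [lab_ve_E hpar, mem_Si]; omega
      · rw [plab_ve_E hpar, mem_Si]; omega
      · rw [lab_ve_E hpar]
      · rw [plab_ve_E hpar]; congr 2; ring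
      · rw [(vx_ve_E hpar).1, sub_add_cancel, hp]; exact Co.refl _ _
      · rw [(vx_ve_E hpar).2, show B.x0 + (X.2 - 1) + 1 = B.x0 + X.2 by ring, hp]; exact DCo.refl _ _
  · have h1 := hr hs
    simp only [hs, if_true, true_implies, Bool.true_eq_false, false_implies, true_and] at hwf ⊢
    have tv : ∀ A, RingC B A cl cr → (lt (B.x1 - 1, X.2) ∈ A ∧ lt (B.x1 - 1, X.2 + 1) ∉ A) := by
      intro A hA
      refine ⟨(hA.rt X.2 (by omega) (by omega)).2 hwf.1, fun h => ?_⟩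
      rw [(hA.rt (X.2 + 1) (by omega) (by omega)).1 h] at hwf
      exact absurd hwf.2 (by simp)
    rcases Int.emod_two_eq_zero_or_one (B.x1 + X.2) with hp | hp
    · have cov : ∀ (a b : ℤ) (A), RingC B A cl cr → (a = B.x1 ∧ b = X.2 ∨ a = B.x1 - 1 ∧ b = X.2 + 1) →
          Co A (gp (a, b)) (gp (B.x1 - 1 + (B.x1 - 1 + X.2) % 2, X.2)) := by
        intro a b A hA hab
        refine rco (B.x1 - 1) B.x1 X.2 (X.2 + 1) (by omega) (by omega) (fun x y d1 d2 d3 d4 => ?_)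
          (by omega) (by omega)
        obtain rfl : x = B.x1 - 1 := by omega
        obtain rfl : y = X.2 := by omega
        exact (tv A hA).1
      rcases (by omega : X.2 + 1 < B.y1 - 1 ∨ X.2 + 1 = B.y1 - 1) with h2 | h2
      · have hpar : (B.x1 - 1 + (X.2 + 1)) % 2 = 0 := by omega
        refine ⟨ve (B.x1 - 1, X.2 + 1), ?_, ?_, ⟨⟨X.2 + 1, Or.inr rfl, ?_⟩, Or.inl ⟨X.2 + 1, ?_⟩⟩,
          fun A hA => ?_, fun A hA => ?_⟩
        · rw [lab_ve_W hpar, mem_Si]; omega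
        · rw [plab_ve_W hpar, mem_Si]; omega
        · rw [lab_ve_W hpar]; congr 2; ring
        · rw [plab_ve_W hpar]
        · rw [(vx_ve_W hpar).1]
          exact cov _ _ A hA (Or.inr ⟨rfl, rfl⟩)
        · rw [(vx_ve_W hpar).2]
          refine rdco (B.x1 - 1) B.x1 (X.2 + 1) (X.2 + 1 + 1) (by omega) (by omega)
            (fun x y d1 d2 d3 d4 => ?_) (by omega) (by omega)
          obtain rfl : x = B.x1 - 1 := by omega
          obtain rfl : y = X.2 + 1 := by omega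
          exact (tv A hA).2
      · have hpar : (B.x1 - 2 + (X.2 + 1)) % 2 = 1 := by omega
        refine ⟨he (B.x1 - 2, X.2 + 1), ?_, ?_, ⟨⟨X.2, Or.inl rfl, ?_⟩, Or.inr ⟨?_, h2⟩⟩,
          fun A hA => ?_, fun A hA => ?_⟩
        · rw [lab_he_S hpar, mem_Si]; omega
        · rw [plab_he_S hpar, mem_Si]; omega
        · rw [lab_he_S hpar, add_sub_cancel_right]
        · rw [plab_he_S hpar, h2]
        · rw [(vx_he_S hpar).1]
          exact cov _ _ A hA (Or.inr ⟨by ring, rfl⟩)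
        · rw [(vx_he_S hpar).2]
          refine rdco B.x0 B.x1 (X.2 + 1) (X.2 + 1 + 1) (by omega) (by omega)
            (fun x y d1 d2 d3 d4 => ?_) (by omega) (by omega)
          intro h3
          obtain rfl : y = B.y1 - 1 := by omega
          have h4 := (hA.tp x d1 d2).1 h3
          rw [← hct, ← h2, hwf.2] at h4
          exact absurd h4 (by simp)
    · have hpar : (B.x1 - 1 + X.2) % 2 = 0 := by omega
      refine ⟨ve (B.x1 - 1, X.2), ?_, ?_, ⟨⟨X.2, Or.inl rfl, ?_⟩, Or.inl ⟨X.2, ?_⟩⟩,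
        fun A hA => ?_, fun A hA => ?_⟩
      · rw [lab_ve_W hpar, mem_Si]; omega
      · rw [plab_ve_W hpar, mem_Si]; omega
      · rw [lab_ve_W hpar]; congr 2; ring
      · rw [plab_ve_W hpar]
      · rw [(vx_ve_W hpar).1, hpar, add_zero]; exact Co.refl _ _
      · rw [(vx_ve_W hpar).2, show (B.x1 - 1 + (X.2 + 1) + 1) % 2 = 0 by omega, add_zero]
        exact DCo.refl _ _

/-- the marks are apart -/
def MAp (X1 X3 : Bool × ℤ) : Prop := X1 ≠ X3 ∧ (X1.1 = X3.1 → X1.2 + 3 ≤ X3.2 ∨ X3.2 + 3 ≤ X1.2)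

lemma MAp.symm (h : MAp X1 X3) : MAp X3 X1 := ⟨h.1.symm, fun e => (h.2 e.symm).symm⟩

/-- **Not both the wired arcs and the free arcs are joined outside of the inner box.** -/
theorem neg (hw : B.x0 + 3 ≤ B.x1) (H : RingC B W cl cr) (m1 : MarkR B cl cr X1)
    (m3 : MarkR B cl cr X3) (hne : MAp X1 X3) (h1 : Co (W \ Si B) (vR B X1) (vR B X3))
    (h2 : DCo (Si B ∪ W) (fR B X1) (fR B X3)) : False := by
  obtain ⟨c, c1, c2, c3, c4, c5⟩ := entrance hw m1 H.ct
  obtain ⟨d, d1, d2, d3, d4, d5⟩ := entrance hw m3 H.ct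
  have e : (W \ Si B) ∪ Si B = Si B ∪ W := by rw [sdiff_union_self_eq_union, union_comm]
  have hcn : TConn (Si B) := tConn_RT _ _ _ _
  have hod : ∀ e ∈ Si B, (e.1 + e.2) % 2 = 1 := fun e he => odd_RT he
  have hdj : Disjoint (W \ Si B) (Si B) := sdiff_disjoint
  have h3 := entrance_unique hcn hod hdj c1 c2 d1 d2
    (((c4 _ H.diff).trans h1).trans (d4 _ H.diff).symm)
    (by rw [e]; exact ((c5 _ H.add).trans h2).trans (d5 _ H.add).symm)
  subst h3
  have hct := H.ct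
  have w1 := m1.wf
  have w3 := m3.wf
  have inj : ∀ {a b a' b' : ℤ}, lt (a, b) = lt (a', b') → a = a' ∧ b = b' := fun h => by
    simpa using lt_inj h
  unfold EPos at c3 d3
  unfold WFc at w1 w3
  obtain ⟨hne1, hne2⟩ := hne
  rcases hs : X1.1 with _ | _ <;> rcases ht : X3.1 with _ | _ <;>
    simp only [hs, ht, Bool.false_eq_true, Bool.true_eq_false, if_false, if_true, true_implies,
      false_implies, and_true, true_and] at c3 d3 hne2 w1 w3
  · obtain ⟨⟨y, k1, k2⟩, -⟩ := c3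
    obtain ⟨⟨y', l1, l2⟩, -⟩ := d3
    have := inj (k2.symm.trans l2)
    omega
  · obtain ⟨⟨y, k1, k2⟩, k3⟩ := c3
    obtain ⟨⟨y', l1, l2⟩, l3⟩ := d3
    have := inj (k2.symm.trans l2)
    rcases k3 with ⟨z, k3⟩ | ⟨k3, k4⟩ <;> rcases l3 with ⟨z', l3⟩ | ⟨l3, l4⟩ <;>
      have h5 := inj (k3.symm.trans l3) <;> try omega
    rw [k4, ← hct, ← l4, w3.2] at w1
    exact absurd w1.1 (by simp)
  · obtain ⟨⟨y, k1, k2⟩, k3⟩ := c3
    obtain ⟨⟨y', l1, l2⟩, l3⟩ := d3
    have := inj (k2.symm.trans l2)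
    rcases k3 with ⟨z, k3⟩ | ⟨k3, k4⟩ <;> rcases l3 with ⟨z', l3⟩ | ⟨l3, l4⟩ <;>
      have h5 := inj (k3.symm.trans l3) <;> try omega
    rw [l4, ← hct, ← k4, w1.2] at w3
    exact absurd w3.1 (by simp)
  · obtain ⟨⟨y, k1, k2⟩, -⟩ := c3
    obtain ⟨⟨y', l1, l2⟩, -⟩ := d3
    have := inj (k2.symm.trans l2)
    omega

/-! ### Transfer of connections between the two sets of labels -/

/-- the vertex touches an open label of the box -/
def TV (B : BF) (W : Finset (ℤ × ℤ)) (u : ℤ × ℤ) : Prop :=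
  ∃ x y, B.InB x y ∧ lt (x, y) ∈ W ∧ Tch x y (tv u)

lemma head_TV {u v : ℤ × ℤ} (hu : TV B W u ∨ B.InI (tv u)) (hne : u ≠ v) (h : Co W u v) :
    TV B W u := by
  rcases hu with hu | hu
  · exact hu
  · obtain ⟨x, y, h1, h2⟩ := co_touch h hne
    refine ⟨x, y, ?_, h1, h2⟩
    unfold BF.InI at hu
    unfold BF.InB
    omega

/-- transfer of connections between vertices which touch open labels of the box -/
theorem co_trT (hn : ∀ e ∈ B.GB, e ∈ W → e ∈ W')
    (hF : ∀ u v, TV B W u → TV B W v → Co (W \ B.GB) u v → Co W' u v) {u v : ℤ × ℤ}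
    (hu : TV B W u ∨ B.InI (tv u)) (hv : TV B W v ∨ B.InI (tv v)) (h : Co W u v) : Co W' u v := by
  by_cases hne : u = v
  · rw [hne]; exact Co.refl _ _
  have hu' := head_TV hu hne h
  have hv' := head_TV hv (Ne.symm hne) h.symm
  refine rtg_transfer (R := Ad (W ∩ B.GB)) (F := Ad (W \ B.GB)) (G := Co W')
    (T := fun u => TV B W u) (fun a => Co.refl _ _) (fun a b c h1 h2 => h1.trans h2) ?_ hF hu' hv' ?_
  · intro a b hab
    obtain ⟨x, y, e, h1, h2⟩ := touch_v hab.1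
    have h3 := hab.2
    rw [mem_inter] at h3
    have h4 := h3.2
    have h5 := h3.1
    rw [e, BF.mem_GB] at h4
    rw [e] at h5
    exact ⟨⟨x, y, h4, h5, h1⟩, ⟨x, y, h4, h5, h2⟩,
      Relation.ReflTransGen.single ⟨hab.1, hn _ h3.2 h3.1⟩⟩
  · refine Relation.ReflTransGen.mono (fun a b hab => ?_) _ _ h
    by_cases hg : a + b ∈ B.GB
    · exact Or.inl ⟨hab.1, mem_inter.2 ⟨hab.2, hg⟩⟩
    · exact Or.inr ⟨hab.1, mem_sdiff.2 ⟨hab.2, hg⟩⟩

lemma TV_congr (hn : ∀ e ∈ B.GB, (e ∈ W ↔ e ∈ W')) {u : ℤ × ℤ} : TV B W u ↔ TV B W' u := by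
  constructor
  · rintro ⟨x, y, h1, h2, h3⟩
    exact ⟨x, y, h1, (hn _ (BF.mem_GB.2 h1)).1 h2, h3⟩
  · rintro ⟨x, y, h1, h2, h3⟩
    exact ⟨x, y, h1, (hn _ (BF.mem_GB.2 h1)).2 h2, h3⟩

/-- a vertex which is joined outside of the box lies on the boundary -/
lemma far_bdv {u v : ℤ × ℤ} (hu : TV B W u) (hne : u ≠ v) (h : Co (W \ B.GB) u v) :
    (tv u).1 = B.x0 ∨ (tv u).1 = B.x1 ∨ (tv u).2 = B.y0 ∨ (tv u).2 = B.y1 := by
  obtain ⟨x, y, h1, -, h3⟩ := hu
  obtain ⟨x', y', h4, h5⟩ := co_touch h hne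
  rw [mem_sdiff, BF.mem_GB] at h4
  have h6 := h4.2
  unfold BF.InB at h1 h6
  unfold Tch at h3
  omega

section main

variable (hE : ∀ x y, lt (x, y) ∈ E → B.x0 < x ∧ x + 1 < B.x1 ∧ B.y0 < y ∧ y + 1 < B.y1)
  (H : RingC B W cl cr) (m1 : MarkR B cl cr X1) (m3 : MarkR B cl cr X3)
  (hu : ∀ X, B.IsP X → WFc cl cr X → X = X1 ∨ X = X3)

include H m1 m3 hu in
/-- a boundary vertex which touches an open label of the box belongs to a mark -/
lemma cls_v {u : ℤ × ℤ} (h : TV B W u)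
    (hb : (tv u).1 = B.x0 ∨ (tv u).1 = B.x1 ∨ (tv u).2 = B.y0 ∨ (tv u).2 = B.y1) :
    ∃ X, (X = X1 ∨ X = X3) ∧ ∀ A, RingC B A cl cr → Co A u (vR B X) := by
  obtain ⟨x, y, h1, h2, h3⟩ := h
  obtain ⟨e1, e2⟩ := gp_tv u
  obtain ⟨r, r0, r1, r2, r3⟩ := bd_pos (o := true) H (a := (tv u).1) (b := (tv u).2)
    (by rw [e2]; rfl) h1 h3 hb (by simpa using h2)
  obtain ⟨X, k1, k2⟩ := wired_pos H m1 hu r0 r1 r2
  refine ⟨X, k1, fun A hA => ?_⟩
  have hX : B.IsP X := by
    rcases k1 with rfl | rfl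
    · exact isP_of m1
    · exact isP_of m3
  have := cn_true.1 ((r3 A hA).trans (k2 A hA))
  rw [vR_eq hX] at this
  rw [← e1]; exact this

include H m1 m3 hu in
/-- a boundary face which touches a closed label of the box belongs to a mark -/
lemma cls_f {f : ℤ × ℤ} (h : B.TF E W f)
    (hb : (tf f).1 = B.x0 ∨ (tf f).1 = B.x1 ∨ (tf f).2 = B.y0 ∨ (tf f).2 = B.y1) :
    ∃ X, (X = X1 ∨ X = X3) ∧ ∀ A, RingC B A cl cr → DCo A f (fR B X) := by
  obtain ⟨x, y, h1, h2, h3⟩ := h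
  rw [mem_union, not_or] at h2
  obtain ⟨e1, e2⟩ := gp_tf f
  obtain ⟨r, r0, r1, r2, r3⟩ := bd_pos (o := false) H (a := (tf f).1) (b := (tf f).2)
    (by rw [e2]; rfl) h1 h3 hb (by simpa using h2.2)
  obtain ⟨X, k1, k2⟩ := free_pos H m1 hu r0 r1 r2
  refine ⟨X, k1, fun A hA => ?_⟩
  have hX : B.IsP X := by
    rcases k1 with rfl | rfl
    · exact isP_of m1
    · exact isP_of m3
  have := cn_false.1 ((r3 A hA).trans (k2 A hA))
  rw [fR_eq hX] at this
  rw [← e1]; exact this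

end main

/-- the type of the outer connections of the ring -/
def TypR (B : BF) (W W' : Finset (ℤ × ℤ)) (X1 X3 : Bool × ℤ) : Prop :=
  (DCo (Si B ∪ W) (fR B X1) (fR B X3) ∧ DCo (Si B ∪ W') (fR B X1) (fR B X3)) ∨
  (Co (W \ Si B) (vR B X1) (vR B X3) ∧ Co (W' \ Si B) (vR B X1) (vR B X3))

lemma TypR.symm (h : TypR B W W' X1 X3) : TypR B W' W X1 X3 := by
  rcases h with h | h
  · exact Or.inl ⟨h.2, h.1⟩
  · exact Or.inr ⟨h.2, h.1⟩

lemma Si_sub : Si B ⊆ B.GB := by
  intro e he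
  obtain ⟨x, y, rfl⟩ := exists_lt (odd_RT he)
  rw [mem_Si] at he
  rw [BF.mem_GB]
  unfold BF.InB
  omega

/-- transfer of the outer connections -/
theorem out_tr (hw : B.x0 + 3 ≤ B.x1) (hE : E ⊆ Si B) (H : RingC B W cl cr) (H' : RingC B W' cl cr)
    (m1 : MarkR B cl cr X1) (m3 : MarkR B cl cr X3) (hne : MAp X1 X3)
    (hu : ∀ X, B.IsP X → WFc cl cr X → X = X1 ∨ X = X3) (hT : TypR B W W' X1 X3) :
    (∀ u v, TV B W u → TV B W v → Co (W \ B.GB) u v → Co W' u v) ∧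
    ∀ f g, B.TF E W f → B.TF E W g → DCo (B.GB ∪ W) f g → DCo (E ∪ W') f g := by
  constructor
  · intro u v h1 h2 h3
    by_cases hn : u = v
    · rw [hn]; exact Co.refl _ _
    obtain ⟨X, k1, k2⟩ := cls_v H m1 m3 hu h1 (far_bdv h1 hn h3)
    obtain ⟨Y, l1, l2⟩ := cls_v H m1 m3 hu h2 (far_bdv h2 (Ne.symm hn) h3.symm)
    have h4 : Co (W \ Si B) (vR B X) (vR B Y) :=
      ((k2 _ H.diff).symm.trans (h3.mono (sdiff_subset_sdiff le_rfl Si_sub))).trans (l2 _ H.diff)
    have h5 : Co W' (vR B X) (vR B Y) := by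
      rcases hT with ⟨t1, t2⟩ | ⟨t1, t2⟩
      · rcases k1 with rfl | rfl <;> rcases l1 with rfl | rfl
        · exact Co.refl _ _
        · exact (neg hw H m1 m3 hne h4 t1).elim
        · exact (neg hw H m1 m3 hne h4.symm t1).elim
        · exact Co.refl _ _
      · have t3 := t2.mono sdiff_subset
        rcases k1 with rfl | rfl <;> rcases l1 with rfl | rfl
        · exact Co.refl _ _
        · exact t3
        · exact t3.symm
        · exact Co.refl _ _
    exact ((k2 _ H').trans h5).trans (l2 _ H').symm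
  · intro f g h1 h2 h3
    by_cases hn : f = g
    · rw [hn]; exact DCo.refl _ _
    obtain ⟨X, k1, k2⟩ := cls_f H m1 m3 hu h1 (BF.far_bd h1 hn h3)
    obtain ⟨Y, l1, l2⟩ := cls_f H m1 m3 hu h2 (BF.far_bd h2 (Ne.symm hn) h3.symm)
    have h4 : DCo (Si B ∪ W) (fR B X) (fR B Y) :=
      ((k2 _ H.add).symm.trans (h3.anti (union_subset_union_left Si_sub))).trans (l2 _ H.add)
    have h5 : DCo (Si B ∪ W') (fR B X) (fR B Y) := by
      rcases hT with ⟨t1, t2⟩ | ⟨t1, t2⟩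
      · rcases k1 with rfl | rfl <;> rcases l1 with rfl | rfl
        · exact DCo.refl _ _
        · exact t2
        · exact t2.symm
        · exact DCo.refl _ _
      · rcases k1 with rfl | rfl <;> rcases l1 with rfl | rfl
        · exact DCo.refl _ _
        · exact (neg hw H m1 m3 hne t1 h4).elim
        · exact (neg hw H m1 m3 hne t1 h4.symm).elim
        · exact DCo.refl _ _
    exact (((k2 _ H'.add).trans h5).trans (l2 _ H'.add).symm).anti (union_subset_union_left hE)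

/-- the vertex of a mark touches an open label -/
lemma vR_TV (H : RingC B W cl cr) (m : MarkR B cl cr X) : TV B W (vR B X) := by
  have hx := B.hx
  have hwf := m.wf
  have hl := m.lf
  have hr := m.rt
  unfold WFc at hwf
  rcases hs : X.1 with _ | _
  · have := hl hs
    simp only [hs, Bool.false_eq_true, if_false] at hwf
    refine ⟨B.x0, X.2, ?_, (H.lf X.2 (by omega) (by omega)).2 hwf.1, ?_⟩
    · unfold BF.InB; omega
    · unfold vR BF.et Tch
      simp only [hs, Bool.false_eq_true, if_false]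
      rw [tv_gp (by omega)]
      simp only
      omega
  · have := hr hs
    simp only [hs, if_true] at hwf
    refine ⟨B.x1 - 1, X.2, ?_, (H.rt X.2 (by omega) (by omega)).2 hwf.1, ?_⟩
    · unfold BF.InB; omega
    · unfold vR BF.et Tch
      simp only [hs, if_true]
      rw [tv_gp (by omega)]
      simp only
      omega

/-- the face of a mark touches a closed label -/
lemma fR_TF (hE : E ⊆ Si B) (H : RingC B W cl cr) (m : MarkR B cl cr X) : B.TF E W (fR B X) := by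
  have hx := B.hx
  have hwf := m.wf
  have hl := m.lf
  have hr := m.rt
  unfold WFc at hwf
  rcases hs : X.1 with _ | _
  · have := hl hs
    simp only [hs, Bool.false_eq_true, if_false] at hwf
    refine ⟨B.x0, X.2 - 1, ?_, ?_, ?_⟩
    · unfold BF.InB; omega
    · rw [mem_union, not_or, H.lf (X.2 - 1) (by omega) (by omega), hwf.2]
      refine ⟨fun h => ?_, by simp⟩
      have := mem_Si.1 (hE h)
      omega
    · unfold fR ef Tch
      simp only [hs, Bool.false_eq_true, if_false]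
      rw [tf_gp (by omega)]
      simp only
      omega
  · have := hr hs
    simp only [hs, if_true] at hwf
    refine ⟨B.x1 - 1, X.2 + 1, ?_, ?_, ?_⟩
    · unfold BF.InB; omega
    · rw [mem_union, not_or, H.rt (X.2 + 1) (by omega) (by omega), hwf.2]
      refine ⟨fun h => ?_, by simp⟩
      have := mem_Si.1 (hE h)
      omega
    · unfold fR ef Tch
      simp only [hs, if_true]
      rw [tf_gp (by omega)]
      simp only
      omega

/-- **The same ring, the same type and roots at the same mark give the same increments.** -/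
theorem same_ring (hconn : TConn E)
    (hE : ∀ x y, lt (x, y) ∈ E → B.x0 < x ∧ x + 1 < B.x1 ∧ B.y0 < y ∧ y + 1 < B.y1)
    (H : RingC B W cl cr) (H' : RingC B W' cl cr) (hn : ∀ e ∈ B.GB, (e ∈ W ↔ e ∈ W'))
    (m1 : MarkR B cl cr X1) (m3 : MarkR B cl cr X3) (hne : MAp X1 X3)
    (hu : ∀ X, B.IsP X → WFc cl cr X → X = X1 ∨ X = X3) (hT : TypR B W W' X1 X3)
    {U V : Env} (pU : PlaneEnv U W) (pV : PlaneEnv V W') (eU : U.E = E) (eV : V.E = E)
    {Xs : Bool × ℤ} (hXs : Xs = X1 ∨ Xs = X3)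
    (u1 : Co W (vx U.c0) (vR B Xs)) (u2 : DCo (E ∪ W) (fi U.c0) (fR B Xs))
    (v1 : Co W' (vx V.c0) (vR B Xs)) (v2 : DCo (E ∪ W') (fi V.c0) (fR B Xs)) :
    ∃ κ : ℤ, ∀ c, (lab c ∈ E ∨ plab c ∈ E) → V.inc c = ph κ * U.inc c := by
  have hodd : ∀ e ∈ E, (e.1 + e.2) % 2 = 1 := by rw [← eU]; exact U.odd
  rcases E.eq_empty_or_nonempty with h0 | ⟨e, he⟩
  · refine ⟨0, fun c hc => ?_⟩
    rw [h0] at hc
    exact absurd hc (by simp)
  have hw : B.x0 + 3 ≤ B.x1 := by
    obtain ⟨x, y, rfl⟩ := exists_lt (hodd e he)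
    have := hE x y he
    omega
  have hES : E ⊆ Si B := by
    intro e he
    obtain ⟨x, y, rfl⟩ := exists_lt (hodd e he)
    exact mem_Si.2 (hE x y he)
  obtain ⟨F1, D1⟩ := out_tr hw hES H H' m1 m3 hne hu hT
  obtain ⟨F2, D2⟩ := out_tr hw hES H' H m1 m3 hne hu hT.symm
  have hc : ∀ c, (lab c ∈ E ∨ plab c ∈ E) → B.InI (tv (vx c)) ∧ B.InI (tf (fi c)) := by
    intro c hc
    obtain ⟨⟨x, y, e, h1, h2⟩, ⟨x', y', e', h1', h2'⟩⟩ := lab_touch c
    unfold Tch at h1 h2 h1' h2'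
    unfold BF.InI
    rcases hc with hc | hc
    · rw [e] at hc
      have := hE x y hc
      omega
    · rw [e'] at hc
      have := hE x' y' hc
      omega
  have ms : MarkR B cl cr Xs := by rcases hXs with rfl | rfl <;> assumption
  have ha := vR_TV H ms
  have ha' := vR_TV H' ms
  have hi := fR_TF hES H ms
  have hi' := fR_TF hES H' ms
  have n1 : ∀ e ∈ B.GB, e ∈ W → e ∈ W' := fun e he => (hn e he).1
  have n2 : ∀ e ∈ B.GB, e ∈ W' → e ∈ W := fun e he => (hn e he).2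
  refine same_conn hconn ⟨?_, ?_⟩ ⟨?_, ?_⟩ pU pV eU eV ?_
  · intro c c' h1 h2 h3
    exact co_trT n1 F1 (Or.inr (hc c h1).1) (Or.inr (hc c' h2).1) h3
  · intro c c' h1 h2 h3
    exact BF.dco_tr n2 D1 (Or.inr (hc c h1).2) (Or.inr (hc c' h2).2) h3
  · intro c c' h1 h2 h3
    exact co_trT n2 F2 (Or.inr (hc c h1).1) (Or.inr (hc c' h2).1) h3
  · intro c c' h1 h2 h3
    exact BF.dco_tr n1 D2 (Or.inr (hc c h1).2) (Or.inr (hc c' h2).2) h3
  · intro c hcE
    constructor
    · rintro ⟨h1, h2⟩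
      exact ⟨v1.trans (co_trT n1 F1 (Or.inl ha) (Or.inr (hc c (Or.inl hcE)).1) (u1.symm.trans h1)),
        v2.trans (BF.dco_tr n2 D1 (Or.inl hi) (Or.inr (hc c (Or.inl hcE)).2) (u2.symm.trans h2))⟩
    · rintro ⟨h1, h2⟩
      exact ⟨u1.trans (co_trT n2 F2 (Or.inl ha') (Or.inr (hc c (Or.inl hcE)).1) (v1.symm.trans h1)),
        u2.trans (BF.dco_tr n1 D2 (Or.inl hi') (Or.inr (hc c (Or.inl hcE)).2) (v2.symm.trans h2))⟩

end Pool.Agent.H13.Sp
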