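import Pool.Agent.H13.Sp.Mult
import Pool.Agent.H74.Win.RingY

set_option autoImplicit false
open Finset

/-! # helper74's form of the same sets

`FR = FZ`, `EA = EA`, `WA O p S = WA D p S ∪ O.Wo`, `XA = XA` : the definitions of `XA.lean`, `XB.lean` and those of
`H74/Win/{RingT,RingX,RingY}` are the same. `multiW` : `Multi` in helper74's form. -/

namespace Pool.Agent.H13.Sp

open Pool.Agent.H75.Perc Pool.Agent.H75.TwoArm Pool.Agent.Q1 Pool.Agent.H33.Q1
open Pool.Agent.H69.Q1 Pool.Agent.H39.Q1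
open Pool.Agent.H46.Sp Pool.Agent.H46.Sp.Win
open Pool.Agent.H74.Win (InB InP natc fillc TB sh sh_cases GB OutB EN mem_TB mem_EN odd_TB TT FZ LyL LyR
  LyF LyC Mono mem_FZ mem_WU mem_EU mem_CAs)
open Pool.Agent.H42.Sp
open Pool.Agent.H13.R45 (ev gp ev_true ev_false Tg)
open Pool.Agent.H74.R45 (exists_lt)

variable {D : Win} {p : Bool} {x y : ℤ}

theorem nearP_iff : NearP D x (y + sh p) ↔
    ∃ x' y', x - 1 ≤ x' ∧ x' ≤ x + 1 ∧ y - 1 ≤ y' ∧ y' ≤ y + 1 ∧ InP D p x' y' := by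
  constructor
  · rintro ⟨Z, h1, h2, h3, h4, h5, h6⟩
    have := D.ab Z h3 h4
    by_cases c : D.a Z ≤ x - 1
    · exact ⟨x - 1, Z - sh p, by omega, by omega, by omega, by omega, by
        rw [inP_iff, sub_add_cancel]; unfold PT; omega⟩
    · refine ⟨max (x - 1) (D.a Z), Z - sh p, by omega, by omega, by omega, by omega, ?_⟩
      rw [inP_iff, sub_add_cancel]
      unfold PT
      omega
  · rintro ⟨x', y', h1, h2, h3, h4, h5⟩
    obtain ⟨k1, k2, k3, k4⟩ := h5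
    exact ⟨y' + sh p, by omega, by omega, k1, k2, by omega, by omega⟩

theorem ring_iff : Ring D p x y ↔ Pool.Agent.H74.Win.RG D p x y := by
  unfold Ring Pool.Agent.H74.Win.RG
  rw [nearP_iff]
  exact and_comm

theorem fill_iff : Fill D p x y ↔ ¬ InP D p x y ∧ ¬ Pool.Agent.H74.Win.RG D p x y := by
  unfold Fill Pool.Agent.H74.Win.RG
  rw [nearP_iff]
  constructor
  · intro h
    refine ⟨fun h' => h ⟨x, y, by omega, by omega, by omega, by omega, h'⟩, fun h' => h h'.2⟩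
  · rintro ⟨h1, h2⟩ h3
    exact h2 ⟨h1, h3⟩

theorem lyL_iff : LyA D p .L x y ↔ LyL D p x y := by
  unfold LyA LyP LyL
  constructor <;> (rintro ⟨h1, h2, h3, h4, h5⟩; exact ⟨h1, h2, by omega, h5, h4⟩)

theorem lyR_iff : LyA D p .R x y ↔ LyR D p x y := by
  unfold LyA LyP LyR
  constructor <;> (rintro ⟨h1, h2, h3, h4, h5⟩; exact ⟨h1, h2, by omega, h5, h4⟩)

theorem lyF_iff : LyA D p .F x y ↔ LyF D p x y := Iff.rfl

theorem lyC_iff : LyA D p .C x y ↔ LyC D p x y := Iff.rfl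

theorem col4_iff : Col4 D p x y ↔ Mono D p x y := by
  have key : ∀ {c : Bool} {P : Prop} [Decidable P], (P ↔ c = true) ↔ c = decide P := by
    intro c P _
    by_cases h : P
    · simp [h, eq_comm]
    · cases c <;> simp [h]
  unfold Col4 Mono
  rw [key, key, key, key]

theorem CA_iff {k : Ix} : CA D p k ↔ Pool.Agent.H74.Win.CA D p k := by
  obtain ⟨s, x, y⟩ := k
  cases s
  · simp only [CA, Pool.Agent.H74.Win.CA, lyL_iff, col4_iff]; tauto
  · simp only [CA, Pool.Agent.H74.Win.CA, lyR_iff, col4_iff]; tauto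
  · simp only [CA, Pool.Agent.H74.Win.CA, lyF_iff, col4_iff]; tauto
  · simp only [CA, Pool.Agent.H74.Win.CA, lyC_iff, col4_iff]; tauto

theorem TT_iff' : TT D p x y ↔ KA D p x y ∨ RA' D p x y := by
  unfold TT KA RA'
  constructor
  · rintro ⟨k, h1, h2 | h2⟩
    · exact Or.inl ⟨k, CA_iff.2 h1, h2.symm⟩
    · exact Or.inr ⟨k, CA_iff.2 h1, h2.symm⟩
  · rintro (⟨k, h1, h2⟩ | ⟨k, h1, h2⟩)
    · exact ⟨k, CA_iff.1 h1, Or.inl h2.symm⟩
    · exact ⟨k, CA_iff.1 h1, Or.inr h2.symm⟩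

theorem FRt_iff : FRt D p x y ↔ Pool.Agent.H74.Win.RG D p x y ∧ ¬ TT D p x y := by
  unfold FRt
  rw [ring_iff, TT_iff']
  tauto

/-- the frozen labels -/
theorem FR_eq : FR D p = FZ D p := by
  unfold FR FZ
  congr 1
  funext x y
  rw [FRt_iff]

lemma odd_EA' {e : ℤ × ℤ} (he : e ∈ Pool.Agent.H74.Win.EA D p) : (e.1 + e.2) % 2 = 1 :=
  odd_TB (Pool.Agent.H74.Win.EA_sub he)

/-- the random labels -/
theorem EA_eq : EA D p = Pool.Agent.H74.Win.EA D p := by
  ext e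
  constructor
  · intro he
    obtain ⟨x, y, rfl⟩ := exists_lt (odd_EA he)
    unfold Pool.Agent.H74.Win.EA
    rw [mem_sdiff, mem_EU, TT_iff', mem_image]
    rcases mem_EA.1 he with h | h
    · refine ⟨Or.inl h, ?_⟩
      rintro ⟨k, h1, h2⟩
      have h3 := (CA_iff.2 (mem_CAs.1 h1)).rt_ly
      rw [lt_inj h2] at h3
      exact h3.out h
    · refine ⟨Or.inr (Or.inl (KA_iff.2 h)), ?_⟩
      rintro ⟨k, h1, h2⟩
      obtain ⟨s, c, h⟩ := h
      have h3 := rt_even k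
      have h4 := h.odd
      rw [lt_inj h2] at h3
      simp only at h3
      omega
  · intro he
    obtain ⟨x, y, rfl⟩ := exists_lt (odd_EA' he)
    unfold Pool.Agent.H74.Win.EA at he
    rw [mem_sdiff, mem_EU, TT_iff', mem_image] at he
    rw [mem_EA]
    rcases he.1 with h | h | h
    · exact Or.inl h
    · exact Or.inr (KA_iff.1 h)
    · exfalso
      obtain ⟨k, h1, h2⟩ := h
      exact he.2 ⟨k, mem_CAs.2 (CA_iff.1 h1), by rw [h2]⟩

variable {O : OutB D} {S : Finset (ℤ × ℤ)}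

/-- the open labels -/
theorem WA_eq : WA O p S = Pool.Agent.H74.Win.WA D p S ∪ O.Wo := by
  have h1 : WAb D p = Pool.Agent.H74.Win.WF D p ∪ OTp (Pool.Agent.H74.Win.CAs D p) := by
    ext e
    constructor
    · intro he
      obtain ⟨x, y, rfl⟩ := exists_lt (odd_WAb he)
      rw [mem_union, Pool.Agent.H74.Win.mem_WF]
      rcases mem_WAb.1 he with ⟨k1, k2, k3⟩ | ⟨k, k1, k2, k3⟩
      · have := fill_iff.1 k2
        exact Or.inl ⟨k1, this.1, this.2, k3⟩
      · right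
        unfold OTp
        rw [mem_image]
        exact ⟨k, mem_filter.2 ⟨mem_CAs.2 (CA_iff.1 k1), k3⟩, by rw [k2]⟩
    · intro he
      rcases mem_union.1 he with h | h
      · obtain ⟨x, y, rfl⟩ := exists_lt (odd_TB h)
        rw [Pool.Agent.H74.Win.mem_WF] at h
        exact mem_WAb.2 (Or.inl ⟨h.1, fill_iff.2 ⟨h.2.1, h.2.2.1⟩, h.2.2.2⟩)
      · unfold OTp at h
        obtain ⟨k, k1, rfl⟩ := mem_image.1 h
        obtain ⟨k2, k3⟩ := mem_filter.1 k1
        exact mem_WAb.2 (Or.inr ⟨k, CA_iff.2 (mem_CAs.1 k2), rfl, k3⟩)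
  unfold WA Pool.Agent.H74.Win.WA Pool.Agent.H74.Win.WU
  rw [h1]
  ext e
  simp only [mem_union]
  tauto

/-- the environments -/
theorem XA_eq (hS : S ⊆ FZ D p) :
    Pool.Agent.H74.Win.XA O p S hS = XA O p S (by rw [FR_eq]; exact hS) := by
  unfold XA Pool.Agent.H74.Win.XA Pool.Agent.H74.Win.XB
  have h1 := EA_eq (D := D) (p := p)
  have h2 := WA_eq (O := O) (p := p) (S := S)
  simp only [← h1, ← h2]

/-- **`Multi` for the tied form of a natural window**, in the form of helper74. -/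
theorem multiW {L m s0 : ℤ} {B : Finset (ℤ × ℤ)} (hS : S ⊆ FZ D p) (hL : 5 ≤ L)
    (hF : ∀ x y, InL D L x y → fillc D x y = false → lt (x, y) ∉ O.Wo) (hm : 0 ≤ m)
    (hB : LBA D p (m + 1) ⊆ B) (hB' : B ⊆ EN D p) :
    Multi (Pool.Agent.H74.Win.XA O p S hS) (Pool.Agent.H74.Win.WA D p S ∪ O.Wo) (EN D p) B (TA D p)
      (fmA D p s0) (colp D) (WlA D p s0 L S) (LaA D p s0 m) (bA D p) (oA D p) := by
  rw [XA_eq, ← WA_eq]
  exact multiA _ hL hF hm hB hB'

end Pool.Agent.H13.Sp
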