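import Mathlib
import Pool.Agent.H46.Sp.Def

set_option autoImplicit false
open Finset

/-! # Positions along the boundary of a window and the arcs of one colour

Positions modulo `N = 2h + 4`: `0` the bottom, `1 .. h+1` the right ends of the rows `-1 .. h-1`, `h+2` the top,
`h+3 .. 2h+3` the left ends of the rows `h-1 .. -1`. `colp` : colour. `rep s0 s` : first position of the maximal
run of one colour which contains `s`, counted from the cut `s0`. -/

namespace Pool.Agent.H13.Sp

open Pool.Agent.H46.Sp

/-- number of positions -/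
def nP (D : Win) : ℤ := 2 * D.h + 4

lemma nP_pos (D : Win) : 0 < nP D := by
  have := D.hh
  unfold nP; omega

/-- colour of a position between `0` and `2h+3` -/
def colq (D : Win) (s : ℤ) : Bool :=
  if s = 0 then D.cb else if s ≤ D.h + 1 then D.cr (s - 2) else if s = D.h + 2 then D.ct
  else D.cl (2 * D.h + 2 - s)

/-- colour of a position -/
def colp (D : Win) (s : ℤ) : Bool := colq D (s % nP D)

lemma colp_add (D : Win) (s : ℤ) : colp D (s + nP D) = colp D s := by
  unfold colp
  rw [Int.add_emod_right]

lemma colp_mod (D : Win) (s : ℤ) : colp D (s % nP D) = colp D s := by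
  unfold colp
  rw [Int.emod_emod_of_dvd _ (dvd_refl _)]

/-- the run of one colour, counted from the cut -/
def repN (D : Win) (s0 : ℤ) : ℕ → ℤ
  | 0 => s0
  | n + 1 => if colp D (s0 + n + 1) = colp D (s0 + n) then repN D s0 n else s0 + n + 1

/-- first position of the run of `s` -/
def rep (D : Win) (s0 s : ℤ) : ℤ := repN D s0 ((s - s0) % nP D).toNat

variable {D : Win} {s0 s t i : ℤ}

lemma rep_add : rep D s0 (s + nP D) = rep D s0 s := by
  unfold rep
  rw [show s + nP D - s0 = s - s0 + nP D by ring, Int.add_emod_right]

/-- the representative of a position in the fundamental interval -/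
def fd (D : Win) (s0 s : ℤ) : ℤ := s0 + (s - s0) % nP D

lemma fd_mem : s0 ≤ fd D s0 s ∧ fd D s0 s < s0 + nP D := by
  have h1 := Int.emod_nonneg (s - s0) (nP_pos D).ne'
  have h2 := Int.emod_lt_of_pos (s - s0) (nP_pos D)
  unfold fd
  omega

lemma fd_eq (h1 : s0 ≤ s) (h2 : s < s0 + nP D) : fd D s0 s = s := by
  unfold fd
  rw [Int.emod_eq_of_lt (by omega) (by omega)]
  omega

lemma fd_dvd : nP D ∣ fd D s0 s - s := by
  unfold fd
  have := Int.emod_add_mul_ediv (s - s0) (nP D)
  refine ⟨-((s - s0) / nP D), ?_⟩
  linarith

lemma colp_fd : colp D (fd D s0 s) = colp D s := by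
  obtain ⟨k, hk⟩ := fd_dvd (D := D) (s0 := s0) (s := s)
  unfold colp
  rw [show fd D s0 s = s + nP D * k by linarith, Int.add_mul_emod_self_left]

lemma rep_fd : rep D s0 (fd D s0 s) = rep D s0 s := by
  unfold rep fd
  rw [show s0 + (s - s0) % nP D - s0 = (s - s0) % nP D by ring,
    Int.emod_emod_of_dvd _ (dvd_refl _)]

lemma repN_le (n : ℕ) : s0 ≤ repN D s0 n ∧ repN D s0 n ≤ s0 + n := by
  induction n with
  | zero => simp [repN]
  | succ n ih =>
    unfold repN
    push_cast
    split_ifs <;> omega

lemma col_repN (n : ℕ) : colp D (repN D s0 n) = colp D (s0 + n) := by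
  induction n with
  | zero => simp [repN]
  | succ n ih =>
    unfold repN
    push_cast
    split_ifs with h
    · rw [ih, ← add_assoc, h]
    · rw [add_assoc]

/-- **the colour of the run** -/
lemma colp_rep : colp D (rep D s0 s) = colp D s := by
  have h1 := Int.emod_nonneg (s - s0) (nP_pos D).ne'
  unfold rep
  rw [col_repN, Int.toNat_of_nonneg h1]
  exact colp_fd

/-- the run of a position in the fundamental interval -/
lemma rep_eq (h1 : s0 ≤ s) (h2 : s < s0 + nP D) : rep D s0 s = repN D s0 (s - s0).toNat := by
  unfold rep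
  rw [Int.emod_eq_of_lt (by omega) (by omega)]

lemma rep_le (h1 : s0 ≤ s) (h2 : s < s0 + nP D) : s0 ≤ rep D s0 s ∧ rep D s0 s ≤ s := by
  rw [rep_eq h1 h2]
  have := repN_le (D := D) (s0 := s0) (s - s0).toNat
  rw [Int.toNat_of_nonneg (by omega)] at this
  omega

/-- neighbours of one colour are in one run, if they are not separated by the cut -/
lemma rep_succ (h1 : s0 ≤ s) (h2 : s + 1 < s0 + nP D) (hc : colp D s = colp D (s + 1)) :
    rep D s0 (s + 1) = rep D s0 s := by
  rw [rep_eq h1 (by omega), rep_eq (by omega) h2]
  have e : (s + 1 - s0).toNat = (s - s0).toNat + 1 := by omega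
  rw [e]
  show (if _ then _ else _) = _
  rw [if_pos]
  rw [Int.toNat_of_nonneg (by omega)]
  rw [show s0 + (s - s0) = s by ring]
  exact hc.symm

/-- **neighbours of one colour are in one run** -/
theorem rep_adj (hcut : colp D (s0 - 1) ≠ colp D s0) (hc : colp D s = colp D (s + 1)) :
    rep D s0 (s + 1) = rep D s0 s := by
  have h1 := fd_mem (D := D) (s0 := s0) (s := s)
  obtain ⟨k, hk⟩ := fd_dvd (D := D) (s0 := s0) (s := s)
  have e1 : fd D s0 s = s + nP D * k := by linarith
  by_cases h : fd D s0 s + 1 < s0 + nP D
  · have h2 := rep_succ (D := D) (s0 := s0) (s := fd D s0 s) h1.1 h (by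
      rw [colp_fd, hc]
      unfold colp
      rw [e1, show s + nP D * k + 1 = s + 1 + nP D * k by ring, Int.add_mul_emod_self_left])
    rw [rep_fd] at h2
    rw [← h2]
    unfold rep
    rw [e1, show s + nP D * k + 1 - s0 = s + 1 - s0 + nP D * k by ring, Int.add_mul_emod_self_left]
  · exfalso
    have h3 : fd D s0 s = s0 - 1 + nP D := by omega
    apply hcut
    have h4 : colp D (s0 - 1) = colp D s := by
      rw [← colp_add, ← h3, colp_fd]
    have h5 : colp D s0 = colp D (s + 1) := by
      have : s + 1 = s0 + nP D * (1 - k) := by linarith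
      unfold colp
      rw [this, Int.add_mul_emod_self_left]
    rw [h4, h5, hc]

/-- **Induction along a run.** -/
theorem rep_ind {P : ℤ → Prop} (hi : P i)
    (hs : ∀ t, i ≤ t → rep D s0 t = i → rep D s0 (t + 1) = i → colp D t = colp D (t + 1) → P t →
      P (t + 1))
    (h1 : s0 ≤ s) (h2 : s < s0 + nP D) (hr : rep D s0 s = i) : P s := by
  have key : ∀ n : ℕ, (n : ℤ) < nP D → repN D s0 n = i → P (s0 + n) := by
    intro n
    induction n with
    | zero =>
      intro _ h
      have : s0 = i := h
      simpa [this] using hi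
    | succ n ih =>
      intro hn h
      have hn' : ((n : ℤ)) + 1 < nP D := by exact_mod_cast hn
      have ht : rep D s0 (s0 + n + 1) = i := by
        rw [rep_eq (by omega) (by omega), show (s0 + (n : ℤ) + 1 - s0).toNat = n + 1 by omega]
        exact h
      by_cases hc : colp D (s0 + n + 1) = colp D (s0 + n)
      · have e : repN D s0 (n + 1) = repN D s0 n := if_pos hc
        rw [e] at h
        have h5 := ih (by omega) h
        have h6 : rep D s0 (s0 + n) = i := by
          rw [rep_eq (by omega) (by omega), show (s0 + (n : ℤ) - s0).toNat = n by omega]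
          exact h
        have h7 := hs (s0 + n) (by rw [← h6]; exact (rep_le (by omega) (by omega)).2) h6 ht hc.symm h5
        push_cast
        rw [← add_assoc]
        exact h7
      · have e : repN D s0 (n + 1) = s0 + n + 1 := if_neg hc
        rw [e] at h
        push_cast
        rw [← add_assoc, h]
        exact hi
  have h3 := key (s - s0).toNat (by rw [Int.toNat_of_nonneg (by omega)]; omega) (by
    rw [← rep_eq h1 h2]; exact hr)
  rw [Int.toNat_of_nonneg (by omega)] at h3
  rwa [show s0 + (s - s0) = s by ring] at h3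

end Pool.Agent.H13.Sp
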