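import Mathlib
import Pool.Agent.H33.Sp.Marks
import Pool.Agent.H20.Sp.WinC

set_option autoImplicit false
open Finset

/-! # Ports, cuts and outsides of the windows of a shape

`portN_of_wfc` : a wired row before a free row is a port. `exists_cut` : the colour changes somewhere.
`outOK_oX`, `outOK_oY1`, `outOK_oY3` : the outsides of the windows of a shape are good. -/

namespace Pool.Agent.H13.Sp

open Pool.Agent.H21.FM (Shape)
open Pool.Agent.H5.FM
open Pool.Agent.H46.Sp (Win)
open Pool.Agent.H74.Win (cLf cRt)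
open Pool.Agent.H33.Sp (X1 X3 oX oY1 oY3 le2 portD1 portD3 marksD)
open Pool.Agent.H20.Sp (PortN OutOK outOK_one outOK_two colp_top colp_bot)

variable {D : Win} {X : Bool × ℤ}

/-- **A wired row before a free row is a port.** -/
theorem portN_of_wfc (h : WFc (cLf D) (cRt D) X) : PortN D X := by
  have hh := D.hh
  obtain ⟨s, y⟩ := X
  unfold WFc cLf cRt at h
  cases s with
  | false =>
    simp only [Bool.false_eq_true, if_false] at h
    obtain ⟨h1, h2⟩ := h
    have g1 : -1 ≤ y := by
      by_contra hc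
      rw [if_pos (by omega)] at h1
      rw [if_pos (by omega), h1] at h2
      exact absurd h2 (by simp)
    have g2 : y ≤ D.h := by
      by_contra hc
      rw [if_neg (by omega), if_pos (by omega)] at h1
      rw [if_neg (by omega), if_pos (by omega), h1] at h2
      exact absurd h2 (by simp)
    refine ⟨fun _ => ⟨g1, g2⟩, fun h => absurd h (by simp), ?_, fun _ => ?_, fun h => absurd h (by simp)⟩
    · unfold portc
      simp only [Bool.false_eq_true, if_false]
      exact h1
    · simp only
      rcases g1.eq_or_lt with g3 | g3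
      · subst g3
        rw [show 2 * D.h + 3 - (-1) = 0 + nP D by unfold nP; ring, colp_add, colp_bot]
        rw [if_pos (by norm_num)] at h2
        exact h2
      · rw [if_neg (by omega), if_neg (by omega)] at h2
        rw [show 2 * D.h + 3 - y = 2 * D.h + 2 - (y - 1) by ring, colp_left (by omega) (by omega)]
        exact h2
  | true =>
    simp only [if_true] at h
    obtain ⟨h1, h2⟩ := h
    have g1 : -2 ≤ y := by
      by_contra hc
      rw [if_pos (by omega)] at h1
      rw [if_pos (by omega), h1] at h2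
      exact absurd h2 (by simp)
    have g2 : y < D.h := by
      by_contra hc
      rw [if_neg (by omega), if_pos (by omega)] at h1
      rw [if_neg (by omega), if_pos (by omega), h1] at h2
      exact absurd h2 (by simp)
    refine ⟨fun h => absurd h (by simp), fun _ => ⟨g1, g2⟩, ?_, fun h => absurd h (by simp), fun _ => ?_⟩
    · unfold portc
      simp only [if_true]
      exact h1
    · simp only
      rw [if_neg (by omega)] at h2
      by_cases g3 : D.h ≤ y + 1
      · rw [if_pos g3] at h2
        rw [show y + 3 = D.h + 2 by omega, colp_top]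
        exact h2
      · rw [if_neg g3] at h2
        rw [show y + 3 = y + 1 + 2 by ring, colp_right (by omega) (by omega)]
        exact h2

/-- a port gives a change of the colour -/
theorem cut_of_port (h : PortN D X) : ∃ s0 : ℤ, colp D (s0 - 1) ≠ colp D s0 := by
  have hh := D.hh
  rcases hs : X.1 with _ | _
  · obtain ⟨h1, h2⟩ := h.rl hs
    have h3 := h.port (x := D.a (D.yP - 1) - 5) (y := X.2) ⟨rfl, Or.inl ⟨hs, by omega⟩⟩
    rcases h3 with ⟨-, -, -, h4⟩ | ⟨h4, -⟩
    · exact ⟨2 * D.h + 3 - X.2, by rwa [show 2 * D.h + 3 - X.2 - 1 = 2 * D.h + 2 - X.2 by ring]⟩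
    · have h5 := D.ab (D.yP - 1) (by have := D.P0; omega) (by have := D.P1; omega)
      have h6 := Pool.Agent.H46.Sp.Win.b_max (D := D) (y := D.yP - 1) (by have := D.P0; omega)
        (by have := D.P1; omega)
      omega
  · obtain ⟨h1, h2⟩ := h.rr hs
    have h3 := h.port (x := D.b D.yQ + 4) (y := X.2) ⟨rfl, Or.inr ⟨hs, le_rfl⟩⟩
    rcases h3 with ⟨h4, -⟩ | ⟨-, -, -, h4⟩
    · have h5 := D.ab (D.yP - 1) (by have := D.P0; omega) (by have := D.P1; omega)
      have h6 := Pool.Agent.H46.Sp.Win.b_max (D := D) (y := D.yP - 1) (by have := D.P0; omega)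
        (by have := D.P1; omega)
      omega
    · exact ⟨X.2 + 3, by rwa [show X.2 + 3 - 1 = X.2 + 2 by ring]⟩

section shape

variable {S : Shape} {y0 y1 : ℤ} {a b : ℤ → ℤ} {yP yQ : ℤ} {F : RowF S.P.Q y0 y1 a b yP yQ}
  {n : ℕ} {L N : ℤ}

theorem portN_X1 (h2 : 2 ≤ n) (hn : 1 ≤ n) : PortN (winOf F n hn) (X1 F n) :=
  portN_of_wfc ((marksD h2 _).2 (Or.inl rfl))

theorem portN_X3 (h2 : 2 ≤ n) (hn : 1 ≤ n) : PortN (winOf F n hn) (X3 F n) :=
  portN_of_wfc ((marksD h2 _).2 (Or.inr rfl))

/-- **The colour of the window of a shape changes somewhere.** -/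
theorem exists_cut (h2 : 2 ≤ n) (hn : 1 ≤ n) :
    ∃ s0 : ℤ, colp (winOf F n hn) (s0 - 1) ≠ colp (winOf F n hn) s0 :=
  cut_of_port (portN_X1 h2 hn)

variable {h2 : 2 ≤ n} {hL : 2 ≤ L}

theorem outOK_oX (hN : N ≤ L + 3) : OutOK (oX F n h2 L hL) N :=
  outOK_one (portD1 h2) (portN_X1 h2 (le2 h2)) (by omega)

theorem outOK_oY1 (hN : N ≤ L + 3) : OutOK (oY1 F n h2 L hL) N :=
  outOK_two (portD1 h2) (portD3 h2) (portN_X1 h2 (le2 h2)) (portN_X3 h2 (le2 h2)) hN

theorem outOK_oY3 (hN : N ≤ L + 3) : OutOK (oY3 F n h2 L hL) N :=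
  outOK_two (portD3 h2) (portD1 h2) (portN_X3 h2 (le2 h2)) (portN_X1 h2 (le2 h2)) hN

end shape

end Pool.Agent.H13.Sp
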