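import Pool.Agent.H13.Sp.Mult

set_option autoImplicit false
open Finset

/-! # Corners far from the boundary (`FarM` for `XA`)

`Dp D p m x y` : all tiles at distance at most `m` from the tile are in `P^p`. `Gate D p s0 L m i ..` : a
rectangle of tiles from the outside of the large box to a deep tile, at distance more than `m` from the tiles of
the arc `i`. `Wide D m` : rows at distance at most `2m+1` overlap. `farA` : `FarM` for a corner all of whose
tiles are deep, if for every `i` there is a gate and the root is outside of the large box. -/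

namespace Pool.Agent.H13.Sp

open Pool.Agent.H75.Perc Pool.Agent.H75.TwoArm Pool.Agent.Q1 Pool.Agent.H33.Q1
open Pool.Agent.H69.Q1 Pool.Agent.H13.Q1
open Pool.Agent.H39.Q1 hiding OutF
open Pool.Agent.H46.Sp Pool.Agent.H46.Sp.Win
open Pool.Agent.H74.Win (InB InP natc fillc TB sh sh_cases sh_nonneg sh_le GB OutB EN mem_TB mem_EN odd_TB)
open Pool.Agent.H42.Sp
open Pool.Agent.H13.R45 (ev gp ev_true ev_false Ag Gc Gc_true Gc_false bp InR co_rect' corner_pts ag_of_vx
  ag_of_fi grid_V OutF pick ring_top exists_M odd_Ring mem_Ring Gc_mono)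
open Pool.Agent.H74.R45 (exists_lt mem_RT RT)

/-! ### A general criterion -/

theorem farM_gen {ι : Type*} [DecidableEq ι] {X : Env} {TT : Finset (ℤ × ℤ)} {fm : ℤ × ℤ → ι} {co : ι → Bool}
    {Wl La : ι → Finset (ℤ × ℤ)} {b o : ℤ × ℤ → ℤ × ℤ} {c : ℤ × ℤ} {N : ι → Finset (ℤ × ℤ)}
    {Rg : ι → ℤ × ℤ → Prop}
    (hco : ∀ (i : ι) (o : Bool) (g g' : ℤ × ℤ), Ag g X.c0 → Ag g' c → ev g = o → ev g' = o →
      Co (Gc o (N i)) (gp g) (gp g'))
    (hd : ∀ i, Disjoint (N i) (La i ∪ TF TT fm i ∪ Wl i))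
    (hodd : ∀ i, ∀ e ∈ La i, (e.1 + e.2) % 2 = 1)
    (hLa : ∀ i x y, lt (x, y) ∈ La i → ∀ g, InR x (x + 1) y (y + 1) g → Rg i g)
    (hb : ∀ i, ∀ e ∈ TF TT fm i, ∃ g, Rg i g ∧ ev g = co i ∧ gp g = b e)
    (h1 : ∀ i g, Rg i g → Ag g X.c0 → False) (h2 : ∀ i g, Rg i g → Ag g c → False) :
    FarM X TT fm co Wl La b o c := by
  obtain ⟨⟨g1, a1, a2, a3⟩, ⟨g2, b1, b2, b3⟩⟩ := corner_pts X.c0
  obtain ⟨⟨g1', a1', a2', a3'⟩, ⟨g2', b1', b2', b3'⟩⟩ := corner_pts c
  have noO : ∀ i, co i = true → ∀ p, VO (La i) (TF TT fm i) b p →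
      ∃ g, Rg i g ∧ ev g = true ∧ gp g = p := fun i hi p hp =>
    grid_V (hodd i) (hLa i) true (fun e he => by rw [← hi]; exact hb i e he) (by rw [if_pos rfl]; exact hp)
  have noC : ∀ i, co i = false → ∀ p, VC (La i) (TF TT fm i) b p →
      ∃ g, Rg i g ∧ ev g = false ∧ gp g = p := fun i hi p hp =>
    grid_V (hodd i) (hLa i) false (fun e he => by rw [← hi]; exact hb i e he) (by
      rw [if_neg Bool.false_ne_true]; exact hp)
  refine ⟨?_, ?_, ?_, ?_, ?_, ?_⟩
  · intro i hi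
    have hf := hco i false g2 g2' b3 b3' b1 b1'
    rw [b2, b2', Gc_false] at hf
    exact dco_of_du' (w := ∅) (fun l hl hl' => absurd hl (disjoint_left.1 (hd i) hl')) hf
  · intro i hi
    have hv := hco i true g1 g1' a3 a3' a1 a1'
    rw [a2, a2', Gc_true] at hv
    exact ⟨N i, hv, hd i⟩
  · intro i hi hx
    obtain ⟨g, h3, h4, h5⟩ := noO i hi _ hx
    exact (h1 i g h3 (ag_of_vx h4 h5)).elim
  · intro i hi hx
    obtain ⟨g, h3, h4, h5⟩ := noC i hi _ hx
    exact (h1 i g h3 (ag_of_fi h4 h5)).elim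
  · intro i hi hx
    obtain ⟨g, h3, h4, h5⟩ := noO i hi _ hx
    exact h2 i g h3 (ag_of_vx h4 h5)
  · intro i hi hx
    obtain ⟨g, h3, h4, h5⟩ := noC i hi _ hx
    exact h2 i g h3 (ag_of_fi h4 h5)

/-! ### Deep tiles -/

section Defs

variable (D : Win) (p : Bool)

/-- the tile and all tiles at distance at most `m` are in `P^p` -/
def Dp (m x y : ℤ) : Prop :=
  ∀ u v, x ≤ u + m → u ≤ x + m → y ≤ v + m → v ≤ y + m → InP D p u v

/-- rows at distance at most `2m+1` overlap -/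
def Wide (m : ℤ) : Prop :=
  ∀ y z, 0 ≤ y → y < D.h → 0 ≤ z → z < D.h → y ≤ z + 2 * m + 1 → z ≤ y + 2 * m + 1 →
    D.a y + 2 * m + 1 ≤ D.b z

/-- labels of the deep tiles -/
noncomputable def KD (m : ℤ) : Finset (ℤ × ℤ) := TB D (Dp D p m)

/-- labels of the tiles near `P^p` at distance at most `m` from the arc `i` -/
noncomputable def LbA (s0 m i : ℤ) : Finset (ℤ × ℤ) :=
  TB D fun x y => NearP D x (y + sh p) ∧ NearA D p s0 m i x y

/-- **Gates.** -/
structure Gate (s0 L m i X0 X1 Y0 Y1 : ℤ) : Prop where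
  hX : X0 < X1
  hY : Y0 < Y1
  out : X0 + L ≤ D.a (D.yP - 1) + 1 ∨ D.b D.yQ + L ≤ X1 ∨ Y0 + L ≤ 1 ∨ D.h + L ≤ Y1
  inn : ∃ x y, X0 ≤ x ∧ x < X1 ∧ Y0 ≤ y ∧ y < Y1 ∧ Dp D p m x y
  av : ∀ u v, X0 ≤ u + m → u < X1 + m → Y0 ≤ v + m → v < Y1 + m → ¬ InP D p u v → arc D p s0 u v ≠ i

end Defs

variable {D : Win} {p : Bool} {x y u v i s0 L m : ℤ} {o : Bool} {S : Finset (ℤ × ℤ)} {O : OutB D}

lemma Dp.inP (hm : 0 ≤ m) (h : Dp D p m x y) : InP D p x y :=
  h x y (by omega) (by omega) (by omega) (by omega)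

lemma inP_inB (h : InP D p x y) : InB D x y := by
  obtain ⟨h1, h2, h3, h4⟩ := h
  have k1 := a_min (D := D) h1 h2
  have k2 := b_max (D := D) h1 h2
  have k3 := sh_nonneg p
  have k4 := sh_le p
  unfold InB
  omega

lemma mem_KD (hm : 0 ≤ m) : lt (x, y) ∈ KD D p m ↔ Dp D p m x y := by
  unfold KD
  rw [mem_TB]
  exact ⟨fun h => h.2, fun h => ⟨inP_inB (h.inP hm), h⟩⟩

lemma mem_LbA : lt (x, y) ∈ LbA D p s0 m i → NearP D x (y + sh p) ∧ NearA D p s0 m i x y := by
  unfold LbA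
  rw [mem_TB]
  exact fun h => h.2

lemma odd_LbA {e : ℤ × ℤ} (he : e ∈ LbA D p s0 m i) : (e.1 + e.2) % 2 = 1 := odd_TB he

lemma LaA_sub : LaA D p s0 m i ⊆ LbA D p s0 m i := by
  intro e he
  obtain ⟨x, y, rfl⟩ := exists_lt (odd_TB he)
  rw [mem_LaA] at he
  unfold LbA
  rw [mem_TB]
  exact ⟨inP_inB he.1, PT.near he.1, he.2⟩

/-- the deep tiles of one row -/
lemma dp_iff (hm : 0 ≤ m) (hW : Wide D m) : Dp D p m x y ↔ m ≤ y + sh p ∧ y + sh p + m < D.h ∧
    ∀ v, y + sh p ≤ v + m → v ≤ y + sh p + m → D.a v + m ≤ x ∧ x + m < D.b v := by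
  constructor
  · intro h
    refine ⟨?_, ?_, ?_⟩
    · have := h x (y - m) (by omega) (by omega) (by omega) (by omega)
      have := this.1
      omega
    · have := h x (y + m) (by omega) (by omega) (by omega) (by omega)
      have := this.2.1
      omega
    · intro v h1 h2
      have k1 := h (x - m) (v - sh p) (by omega) (by omega) (by omega) (by omega)
      have k2 := h (x + m) (v - sh p) (by omega) (by omega) (by omega) (by omega)
      obtain ⟨_, _, k3, _⟩ := k1
      obtain ⟨_, _, _, k4⟩ := k2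
      rw [sub_add_cancel] at k3 k4
      omega
  · rintro ⟨h1, h2, h3⟩ u v k1 k2 k3 k4
    have := h3 (v + sh p) (by omega) (by omega)
    exact ⟨by omega, by omega, by omega, by omega⟩

/-- two neighbouring rows have a common deep column -/
lemma dp_col (hm : 0 ≤ m) (hW : Wide D m) {Y : ℤ} (h0 : m ≤ Y + sh p) (h1 : Y + sh p + m < D.h) :
    ∃ x, Dp D p m x Y ∧ (Y + 1 + sh p + m < D.h → Dp D p m x (Y + 1)) := by
  set t := min (Y + 1 + sh p + m) (D.h - 1) with ht
  obtain ⟨v0, hv0, hmax⟩ := (Icc (Y + sh p - m) t).exists_max_image D.a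
    ⟨Y + sh p, mem_Icc.2 ⟨by omega, by omega⟩⟩
  rw [mem_Icc] at hv0
  have key : ∀ v, Y + sh p ≤ v + m → v ≤ t → D.a v + m ≤ D.a v0 + m ∧ D.a v0 + m + m < D.b v := by
    intro v k1 k2
    have h3 := hmax v (mem_Icc.2 ⟨by omega, k2⟩)
    have h4 := hW v0 v (by omega) (by omega) (by omega) (by omega) (by omega) (by omega)
    omega
  refine ⟨D.a v0 + m, ?_, ?_⟩
  · rw [dp_iff hm hW]
    exact ⟨h0, h1, fun v k1 k2 => key v k1 (by omega)⟩
  · intro h2
    rw [dp_iff hm hW]
    refine ⟨by omega, by omega, fun v k1 k2 => key v (by omega) (by omega)⟩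

/-- deep tiles of one row are joined -/
lemma dp_row (hm : 0 ≤ m) (hW : Wide D m) (h : Dp D p m x y) (h' : Dp D p m u y) {g g' : ℤ × ℤ}
    (hg : OnT g x y) (hg' : OnT g' u y) (he : ev g = o) (he' : ev g' = o) :
    Co (Gc o (KD D p m)) (gp g) (gp g') := by
  unfold OnT at hg hg'
  refine co_box (r0 := min x u) (r1 := max x u + 1) (t0 := y) (t1 := y + 1) (by omega) (by omega) ?_
    (by unfold InR; omega) (by unfold InR; omega) he he'
  intro x' y' k1 k2 k3 k4
  have e : y' = y := by omega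
  subst e
  rw [mem_KD hm, dp_iff hm hW]
  rw [dp_iff hm hW] at h h'
  refine ⟨h.1, h.2.1, fun v k5 k6 => ?_⟩
  have := h.2.2 v k5 k6
  have := h'.2.2 v k5 k6
  omega

/-- **the deep tiles are connected** -/
theorem dp_conn (hm : 0 ≤ m) (hW : Wide D m) (h : Dp D p m x y) (h' : Dp D p m u v) {g g' : ℤ × ℤ}
    (hg : OnT g x y) (hg' : OnT g' u v) (he : ev g = o) (he' : ev g' = o) :
    Co (Gc o (KD D p m)) (gp g) (gp g') := by
  -- up by `n` rows
  have key : ∀ n : ℕ, ∀ x y u : ℤ, Dp D p m x y → Dp D p m u (y + n) → ∀ g g' : ℤ × ℤ, OnT g x y →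
      OnT g' u (y + n) → ev g = o → ev g' = o → Co (Gc o (KD D p m)) (gp g) (gp g') := by
    intro n
    induction n with
    | zero =>
      intro x y u h h' g g' hg hg' he he'
      simp only [Nat.cast_zero, add_zero] at h' hg'
      exact dp_row hm hW h h' hg hg' he he'
    | succ n ih =>
      intro x y u h h' g g' hg hg' he he'
      have h1 := (dp_iff hm hW).1 h
      have h2 := (dp_iff hm hW).1 h'
      push_cast at h2 hg' h'
      obtain ⟨z, k1, k2⟩ := dp_col (p := p) hm hW (Y := y) h1.1 h1.2.1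
      have k3 := k2 (by omega)
      -- a point between the two tiles
      have hbp1 := bp_fst (o := o) (x := z) (y := y + 1)
      have hbp2 := bp_snd (o := o) (x := z) (y := y + 1)
      have e : y + 1 + (n : ℤ) = y + (n + 1) := by ring
      refine (dp_row (g' := bp o z (y + 1)) hm hW h k1 hg ?_ he ev_bp).trans
        (ih z (y + 1) u k3 (by rw [e]; exact h') _ _ ?_ (by rw [e]; exact hg') ev_bp he')
      · unfold OnT; omega
      · unfold OnT; omega
  rcases le_total y v with hyv | hyv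
  · have e : y + ((v - y).toNat : ℤ) = v := by omega
    exact key (v - y).toNat x y u h (by rw [e]; exact h') g g' hg (by rw [e]; exact hg') he he'
  · have e : v + ((y - v).toNat : ℤ) = y := by omega
    exact (key (y - v).toNat u v x h' (by rw [e]; exact h) g' g hg' (by rw [e]; exact hg) he' he).symm

/-! ### `FarM` -/

/-- nodes near the arc `i` -/
def RgA (D : Win) (p : Bool) (s0 m i : ℤ) (g : ℤ × ℤ) : Prop :=
  ∃ x y, NearP D x (y + sh p) ∧ NearA D p s0 m i x y ∧ OnT g x y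

lemma NearP.box (h : NearP D x (y + sh p)) :
    D.a (D.yP - 1) ≤ x + 1 ∧ x ≤ D.b D.yQ ∧ -2 ≤ y ∧ y ≤ D.h := by
  obtain ⟨Z, h1, h2, h3, h4, h5, h6⟩ := h
  have k1 := a_min (D := D) h3 h4
  have k2 := b_max (D := D) h3 h4
  have k3 := sh_nonneg p
  have k4 := sh_le p
  omega

/-- ties are near their arc -/
lemma TieP.nearA (hm : 1 ≤ m) {s : Sd} {c : Bool} (h : TieP D p s c u v) :
    NearA D p s0 m (fmA D p s0 (lt (u, v))) u v := by
  refine ⟨u - (dr s).1, v - (dr s).2, h.ly.far.not_inP, h.fm.symm, ?_⟩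
  cases s <;> simp only [dr] <;> omega

/-- the labels of the layer, the ties and the wall of an arc are near this arc -/
lemma near_of_mem (hL : 5 ≤ L) (hm : 1 ≤ m) {La : Finset (ℤ × ℤ)} (hLa : La ⊆ LbA D p s0 m i)
    (h : lt (x, y) ∈ La ∪ TF (TA D p) (fmA D p s0) i ∪ WlA D p s0 L S i) :
    InL D L x y ∧ NearA D p s0 m i x y := by
  rw [mem_union, mem_union] at h
  rcases h with (h | h) | h
  · obtain ⟨h1, h2⟩ := mem_LbA (hLa h)
    have := h1.box
    refine ⟨?_, h2⟩
    unfold InL; omega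
  · obtain ⟨h1, h2⟩ := mem_TF.1 h
    obtain ⟨s, c, h3⟩ := mem_TA.1 h1
    refine ⟨InL_of_InB hL h3.inB, ?_⟩
    rw [← h2]
    exact h3.nearA hm
  · have h1 : InL D L x y := by
      unfold WlA at h
      exact (mem_TL.1 h).1
    refine ⟨h1, ?_⟩
    rcases (mem_WlA hL).1 h with h2 | h2
    · exact ⟨x, y, h2.2.1.not_inP, h2.2.2.1, by omega, by omega, by omega, by omega⟩
    · obtain ⟨-, -, g, -, h3, x', y', h4, h5⟩ := h2
      unfold OnT at h3 h5
      exact ⟨x', y', h4.2.1.not_inP, h4.2.2.1, by omega, by omega, by omega, by omega⟩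

/-- **Corners far from the boundary**, any layers at distance at most `m` from their arcs. -/
theorem farA_gen {hS : S ⊆ FR D p} (hL : 5 ≤ L) (hm : 1 ≤ m) (hW : Wide D m)
    (hroot : ∀ g, Ag g O.c0 → OutF (D.a (D.yP - 1) - L + 1) (D.b D.yQ + L) (-L + 1) (D.h + L) g)
    (hG : ∀ i, ∃ X0 X1 Y0 Y1, Gate D p s0 L m i X0 X1 Y0 Y1)
    {La : ℤ → Finset (ℤ × ℤ)} (hLa : ∀ i, La i ⊆ LbA D p s0 m i) {c : ℤ × ℤ}
    (hc : ∀ g, Ag g c → ∀ x y, OnT g x y → Dp D p m x y) :
    FarM (XA O p S hS) (TA D p) (fmA D p s0) (colp D) (WlA D p s0 L S) La (bA D p) (oA D p) c := by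
  have hh := D.hh
  have hx := xm_lt D
  have hm0 : 0 ≤ m := by omega
  choose X0 X1 Y0 Y1 hGt using hG
  obtain ⟨M0, hM1, hM2⟩ := exists_M O.c0 (D.a (D.yP - 1) - L + 1) (D.b D.yQ + L) (-L + 1) (D.h + L)
  set r0 := D.a (D.yP - 1) - L + 1 with hr0
  set r1 := D.b D.yQ + L with hr1
  set t0 := -L + 1 with ht0
  set t1 := D.h + L with ht1
  have hr : r0 < r1 := by omega
  have ht : t0 < t1 := by omega
  set M : ℤ → ℤ := fun i => max M0 (max (r0 - X0 i) (max (X1 i - r1) (max (t0 - Y0 i) (Y1 i - t1)))) with hM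
  set N : ℤ → Finset (ℤ × ℤ) := fun i =>
    Pool.Agent.H13.R45.Ring (RT (X0 i) (X1 i) (Y0 i) (Y1 i) ∪ KD D p m) r0 r1 t0 t1 (M i) with hN
  have hNodd : ∀ i, ∀ e ∈ N i, (e.1 + e.2) % 2 = 1 := by
    intro i e he
    refine odd_Ring (fun e he => ?_) he
    rcases mem_union.1 he with h | h
    · exact Pool.Agent.H74.R45.odd_RT h
    · exact odd_TB h
  refine farM_gen (N := N) (Rg := RgA D p s0 m) ?_ ?_ ?_ ?_ ?_ ?_ ?_
  · -- the path
    intro i o g g' hg hg' he he'
    have G := hGt i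
    have hX := G.hX
    have hY := G.hY
    have hMi : M i = max M0 (max (r0 - X0 i) (max (X1 i - r1) (max (t0 - Y0 i) (Y1 i - t1)))) := rfl
    have hM1i : 1 ≤ M i := by omega
    have hgB : Pool.Agent.H13.R45.InB r0 r1 t0 t1 (M i) g := by
      have := hM2 g hg
      unfold Pool.Agent.H13.R45.InB at this ⊢
      omega
    -- a point above the frame
    have hp1 := bp_fst (o := o) (x := r0) (y := t1)
    have hp2 := bp_snd (o := o) (x := r0) (y := t1)
    have hpe := ev_bp (o := o) (x := r0) (y := t1)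
    set q := bp o r0 t1 with hq
    have top : ∀ z : ℤ × ℤ, ev z = o → OutF r0 r1 t0 t1 z → Pool.Agent.H13.R45.InB r0 r1 t0 t1 (M i) z →
        Co (Gc o (N i)) (gp z) (gp q) := fun z k1 k2 k3 =>
      ring_top hM1i hr ht k1 k2 k3 hpe (by unfold InR; omega)
    -- a point of the gate outside of the frame
    have hz : ∃ z : ℤ × ℤ, ev z = o ∧ InR (X0 i) (X1 i) (Y0 i) (Y1 i) z ∧ OutF r0 r1 t0 t1 z := by
      rcases G.out with h | h | h | h
      · obtain ⟨z, k1, k2⟩ := pick o (X0 i) (Y0 i) (X0 i) (Y0 i + 1) (by omega)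
        refine ⟨z, k1, ?_, ?_⟩ <;> rcases k2 with rfl | rfl <;> first
          | (unfold InR; simp only; omega)
          | (unfold OutF; simp only; omega)
      · obtain ⟨z, k1, k2⟩ := pick o (X1 i) (Y0 i) (X1 i) (Y0 i + 1) (by omega)
        refine ⟨z, k1, ?_, ?_⟩ <;> rcases k2 with rfl | rfl <;> first
          | (unfold InR; simp only; omega)
          | (unfold OutF; simp only; omega)
      · obtain ⟨z, k1, k2⟩ := pick o (X0 i) (Y0 i) (X0 i + 1) (Y0 i) (by omega)
        refine ⟨z, k1, ?_, ?_⟩ <;> rcases k2 with rfl | rfl <;> first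
          | (unfold InR; simp only; omega)
          | (unfold OutF; simp only; omega)
      · obtain ⟨z, k1, k2⟩ := pick o (X0 i) (Y1 i) (X0 i + 1) (Y1 i) (by omega)
        refine ⟨z, k1, ?_, ?_⟩ <;> rcases k2 with rfl | rfl <;> first
          | (unfold InR; simp only; omega)
          | (unfold OutF; simp only; omega)
    obtain ⟨z, z1, z2, z3⟩ := hz
    have z4 : Pool.Agent.H13.R45.InB r0 r1 t0 t1 (M i) z := by
      unfold InR at z2
      unfold Pool.Agent.H13.R45.InB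
      omega
    -- the deep tile of the gate
    obtain ⟨x, y, d1, d2, d3, d4, d5⟩ := G.inn
    have hw1 := bp_fst (o := o) (x := x) (y := y)
    have hw2 := bp_snd (o := o) (x := x) (y := y)
    have k1 : Co (Gc o (N i)) (gp z) (gp (bp o x y)) := by
      refine co_rect' hX hY ?_ z2 (by unfold InR; omega) z1 ev_bp
      intro e he
      exact mem_union_left _ (mem_union_left _ he)
    have k2 : Co (Gc o (N i)) (gp (bp o x y)) (gp g') := by
      refine (dp_conn hm0 hW d5 (hc g' hg' g'.1 g'.2 ?_) (g := bp o x y) (g' := g') ?_ ?_ ev_bp he').mono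
        (Gc_mono ?_)
      · unfold OnT; omega
      · unfold OnT; omega
      · unfold OnT; omega
      · intro e he
        exact mem_union_left _ (mem_union_right _ he)
    exact (((top g he (hroot g hg) hgB).trans (top z z1 z3 z4).symm).trans k1).trans k2
  · -- the labels of the path are far from the arc
    intro i
    rw [disjoint_left]
    intro e he he'
    obtain ⟨x, y, rfl⟩ := exists_lt (hNodd i e he)
    obtain ⟨h1, u, v, h2, h3, h4, h5, h6, h7⟩ := near_of_mem hL hm (hLa i) he'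
    unfold InL at h1
    rcases mem_Ring he with h | h
    · rcases mem_union.1 h with h | h
      · rw [Pool.Agent.H74.R45.lt_mem_RT] at h
        exact (hGt i).av u v (by omega) (by omega) (by omega) (by omega) h2 h3
      · exact h2 ((mem_KD hm0).1 h u v (by omega) (by omega) (by omega) (by omega))
    · omega
  · intro i e he; exact odd_LbA (hLa i he)
  · intro i x y h g hg
    obtain ⟨h1, h2⟩ := mem_LbA (hLa i h)
    refine ⟨x, y, h1, h2, ?_⟩
    unfold InR at hg
    unfold OnT; omega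
  · intro i e he
    obtain ⟨h1, h2⟩ := mem_TF.1 he
    obtain ⟨u, v, s, c', rfl, h3⟩ := exists_tie h1
    refine ⟨bt s c' (u, v), ⟨u, v, h3.ly.near, ?_, onT_bt⟩, ?_, h3.b.symm⟩
    · rw [← h2]; exact h3.nearA hm
    · rw [ev_bt h3.odd, ← h2, h3.co]
  · rintro i g ⟨x, y, h1, h2, h3⟩ hg
    have h4 := hroot g hg
    have h5 := h1.box
    unfold OnT at h3
    unfold OutF at h4
    omega
  · rintro i g ⟨x, y, h1, ⟨u, v, h2, h3, h4⟩, h5⟩ hg
    exact h2 (hc g hg x y h5 u v (by omega) (by omega) (by omega) (by omega))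

/-- **Corners far from the boundary.** -/
theorem farA {hS : S ⊆ FR D p} (hL : 5 ≤ L) (hm : 1 ≤ m) (hW : Wide D m)
    (hroot : ∀ g, Ag g O.c0 → OutF (D.a (D.yP - 1) - L + 1) (D.b D.yQ + L) (-L + 1) (D.h + L) g)
    (hG : ∀ i, ∃ X0 X1 Y0 Y1, Gate D p s0 L m i X0 X1 Y0 Y1) {c : ℤ × ℤ}
    (hc : ∀ g, Ag g c → ∀ x y, OnT g x y → Dp D p m x y) :
    FarM (XA O p S hS) (TA D p) (fmA D p s0) (colp D) (WlA D p s0 L S) (LaA D p s0 m) (bA D p) (oA D p) c :=
  farA_gen hL hm hW hroot hG (fun _ => LaA_sub) hc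

end Pool.Agent.H13.Sp
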