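import Pool.Agent.H42.Sp.Tie
import Pool.Agent.H74.Win.Ring
import Pool.Agent.H13.Sp.Pos

set_option autoImplicit false
open Finset

/-! # The tied form of the natural windows, all walls of both arcs (`XA`)

Tiles of the plane `(x, y)`, rows of `P`: `Y = y + sh p`. `NearP` : the tile or one of its eight neighbours is
in `P`. `Fill` : tile which is not near `P^p`. `Ring` : tile near `P^p` and outside of it. `LyA s` : the ring
tiles with exactly one neighbour in `P^p` (to the E, W, N, S for `s = L, R, F, C`). `CA D p k` : tie point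
`k.2` of the kind `k.1` : its two inner tiles are layer tiles of this kind, and the colour of its four tiles is
wired iff the point is odd. As in `H42/Sp/Tie` : `kt k` is the kept tile (`x + y` odd), `rt k` the removed one
(open iff the point is even). `FRt` : the other ring tiles (frozen). `XA O p S` : random labels = `P^p` and the
kept tiles, open labels = naturally open fill tiles, removed tiles of even points, `S`, far labels.
`ps D p x y` : position of a tile outside of `P^p` (see `Pos`). -/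

namespace Pool.Agent.H13.Sp

open Pool.Agent.H75.Perc Pool.Agent.H75.TwoArm Pool.Agent.Q1 Pool.Agent.H33.Q1
open Pool.Agent.H69.Q1
open Pool.Agent.H46.Sp Pool.Agent.H46.Sp.Win
open Pool.Agent.H74.Win Pool.Agent.H42.Sp
open Pool.Agent.H13.R45 (ev gp ev_true ev_false Tg)
open Pool.Agent.H74.R45 (exists_lt)

section Defs

variable (D : Win) (p : Bool)

/-- tiles of `P` -/
def PT (x Y : ℤ) : Prop := 0 ≤ Y ∧ Y < D.h ∧ D.a Y ≤ x ∧ x < D.b Y

/-- the tile `(x, Y)` or one of its eight neighbours is in `P` -/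
def NearP (x Y : ℤ) : Prop :=
  ∃ Z, Y ≤ Z + 1 ∧ Z ≤ Y + 1 ∧ 0 ≤ Z ∧ Z < D.h ∧ D.a Z ≤ x + 1 ∧ x ≤ D.b Z

/-- layer tiles, in the coordinates of `P` -/
def LyP : Sd → ℤ → ℤ → Prop
  | .L, x, Y => 0 ≤ Y ∧ Y < D.h ∧ x + 1 = D.a Y ∧ (1 ≤ Y → D.a Y ≤ D.a (Y - 1)) ∧
      (Y + 1 < D.h → D.a Y ≤ D.a (Y + 1))
  | .R, x, Y => 0 ≤ Y ∧ Y < D.h ∧ x = D.b Y ∧ (1 ≤ Y → D.b (Y - 1) ≤ D.b Y) ∧
      (Y + 1 < D.h → D.b (Y + 1) ≤ D.b Y)
  | .F, x, Y => -1 ≤ Y ∧ Y + 1 < D.h ∧ D.a (Y + 1) ≤ x ∧ x < D.b (Y + 1) ∧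
      (0 ≤ Y → x + 1 < D.a Y ∨ D.b Y < x)
  | .C, x, Y => 1 ≤ Y ∧ Y ≤ D.h ∧ D.a (Y - 1) ≤ x ∧ x < D.b (Y - 1) ∧
      (Y < D.h → x + 1 < D.a Y ∨ D.b Y < x)

/-- tiles which are not near `P^p` -/
def Fill (x y : ℤ) : Prop := ¬ NearP D x (y + sh p)

/-- tiles near `P^p` and outside of it -/
def Ring (x y : ℤ) : Prop := NearP D x (y + sh p) ∧ ¬ InP D p x y

/-- layer tiles -/
def LyA (s : Sd) (x y : ℤ) : Prop := LyP D s x (y + sh p)

/-- the colour of the four tiles at the point `(x, y)` is wired iff `x + y` is odd -/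
def Col4 (x y : ℤ) : Prop :=
  ((x + y) % 2 = 1 ↔ natc D p x y = true) ∧ ((x + y) % 2 = 1 ↔ natc D p (x - 1) y = true) ∧
  ((x + y) % 2 = 1 ↔ natc D p x (y - 1) = true) ∧ ((x + y) % 2 = 1 ↔ natc D p (x - 1) (y - 1) = true)

/-- the tie points -/
def CA : Ix → Prop
  | (.L, (x, y)) => LyA D p .L x (y - 1) ∧ LyA D p .L x y ∧ Col4 D p x y
  | (.R, (x, y)) => LyA D p .R (x - 1) (y - 1) ∧ LyA D p .R (x - 1) y ∧ Col4 D p x y
  | (.F, (x, y)) => LyA D p .F (x - 1) y ∧ LyA D p .F x y ∧ Col4 D p x y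
  | (.C, (x, y)) => LyA D p .C (x - 1) (y - 1) ∧ LyA D p .C x (y - 1) ∧ Col4 D p x y

/-- kept tiles -/
def KA (x y : ℤ) : Prop := ∃ k, CA D p k ∧ kt k = (x, y)

/-- removed tiles -/
def RA' (x y : ℤ) : Prop := ∃ k, CA D p k ∧ rt k = (x, y)

/-- removed tiles which are open -/
def RO' (x y : ℤ) : Prop := ∃ k, CA D p k ∧ rt k = (x, y) ∧ ev k.2 = true

/-- frozen tiles -/
def FRt (x y : ℤ) : Prop := Ring D p x y ∧ ¬ KA D p x y ∧ ¬ RA' D p x y

/-- labels of the kept tiles -/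
noncomputable def TA : Finset (ℤ × ℤ) := TB D (KA D p)

/-- frozen labels -/
noncomputable def FR : Finset (ℤ × ℤ) := TB D (FRt D p)

/-- random labels -/
noncomputable def EA : Finset (ℤ × ℤ) := EN D p ∪ TA D p

/-- open labels of the box which are not frozen -/
noncomputable def WAb : Finset (ℤ × ℤ) := TB D fun x y => (Fill D p x y ∧ natc D p x y = true) ∨ RO' D p x y

/-- open labels -/
noncomputable def WA {D : Win} (O : OutB D) (p : Bool) (S : Finset (ℤ × ℤ)) : Finset (ℤ × ℤ) :=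
  WAb D p ∪ S ∪ O.Wo

/-- position of a tile outside of `P^p` -/
def ps (x y : ℤ) : ℤ :=
  if y < -1 then 0 else if D.h ≤ y then D.h + 2
  else if x < D.m y then 2 * D.h + 2 - y else if D.M y ≤ x then y + 2
  else if p = true then
    (if y = D.h - 1 then D.h + 2 else if x < D.a (y + 1) then 2 * D.h + 1 - y else y + 3)
  else (if y = -1 then 0 else if x < D.a y then 2 * D.h + 3 - y else y + 1)

end Defs

variable {D : Win} {p : Bool} {x y X Y : ℤ}

/-! ### Facts about `P` -/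

lemma ov (h0 : 0 ≤ X) (h1 : X < D.h) (h2 : 0 ≤ Y) (h3 : Y < D.h) (h4 : X ≤ Y + 1) (h5 : Y ≤ X + 1) :
    D.a X + 2 ≤ D.b Y := by
  have h : X = Y ∨ Y = X + 1 ∨ X = Y + 1 := by omega
  rcases h with h | h | h
  · subst h; exact D.ab _ h0 h1
  · subst h; exact D.ov1 _ h0 h3
  · subst h; exact D.ov2 _ h2 h1

lemma inP_iff : InP D p x y ↔ PT D x (y + sh p) := Iff.rfl

lemma PT.near (h : PT D x Y) : NearP D x Y := by
  obtain ⟨h1, h2, h3, h4⟩ := h
  exact ⟨Y, by omega, by omega, h1, h2, by omega, by omega⟩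

lemma Fill.not_inP (h : Fill D p x y) : ¬ InP D p x y := fun h' => h (PT.near h')

/-- the left end and the columns of the union -/
lemma m_le_row (h0 : 0 ≤ Y) (h1 : Y < D.h) (hy : Y = y ∨ Y = y + 1) : D.m y ≤ D.a Y := by
  rcases hy with rfl | rfl
  · exact m_le_a h0
  · exact m_le_a' h1

lemma row_le_M (h0 : 0 ≤ Y) (h1 : Y < D.h) (hy : Y = y ∨ Y = y + 1) : D.b Y ≤ D.M y := by
  rcases hy with rfl | rfl
  · exact b_le_M h0
  · exact b_le_M' h1

lemma shY (p : Bool) (y : ℤ) : y + sh p = y ∨ y + sh p = y + 1 := by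
  rcases sh_cases p with h | h <;> omega

/-! ### Positions -/

lemma ps_rng' : 0 ≤ ps D p x y ∧ ps D p x y ≤ 2 * D.h + 3 := by
  have hh := D.hh
  unfold ps
  by_cases c1 : y < -1
  · rw [if_pos c1]; omega
  rw [if_neg c1]
  by_cases c2 : D.h ≤ y
  · rw [if_pos c2]; omega
  rw [if_neg c2]
  by_cases c3 : x < D.m y
  · rw [if_pos c3]; omega
  rw [if_neg c3]
  by_cases c4 : D.M y ≤ x
  · rw [if_pos c4]; omega
  rw [if_neg c4]
  by_cases c5 : p = true
  · rw [if_pos c5]
    by_cases c6 : y = D.h - 1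
    · rw [if_pos c6]; omega
    rw [if_neg c6]
    by_cases c7 : x < D.a (y + 1)
    · rw [if_pos c7]; omega
    · rw [if_neg c7]; omega
  · rw [if_neg c5]
    by_cases c6 : y = -1
    · rw [if_pos c6]; omega
    rw [if_neg c6]
    by_cases c7 : x < D.a y
    · rw [if_pos c7]; omega
    · rw [if_neg c7]; omega

lemma ps_rng : 0 ≤ ps D p x y ∧ ps D p x y < nP D := by
  have := ps_rng' (D := D) (p := p) (x := x) (y := y)
  unfold nP; omega

lemma colq_cr {s : ℤ} (h1 : 1 ≤ s) (h2 : s ≤ D.h + 1) : colq D s = D.cr (s - 2) := by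
  unfold colq; rw [if_neg (by omega), if_pos h2]

lemma colq_cl {s : ℤ} (h1 : D.h + 3 ≤ s) : colq D s = D.cl (2 * D.h + 2 - s) := by
  have := D.hh
  unfold colq; rw [if_neg (by omega), if_neg (by omega), if_neg (by omega)]

lemma colq_0 : colq D 0 = D.cb := by unfold colq; rw [if_pos rfl]

lemma colq_t : colq D (D.h + 2) = D.ct := by
  have := D.hh
  unfold colq; rw [if_neg (by omega), if_neg (by omega), if_pos rfl]

theorem colp_ps : colp D (ps D p x y) = natc D p x y := by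
  have hh := D.hh
  have h1 := ps_rng (D := D) (p := p) (x := x) (y := y)
  unfold colp
  rw [Int.emod_eq_of_lt h1.1 h1.2]
  clear h1
  unfold ps natc
  by_cases c1 : y < -1
  · rw [if_pos c1, if_pos c1, colq_0]
  rw [if_neg c1, if_neg c1]
  by_cases c2 : D.h ≤ y
  · rw [if_pos c2, if_pos c2, colq_t]
  rw [if_neg c2, if_neg c2]
  by_cases c3 : x < D.m y
  · rw [if_pos c3, if_pos c3, colq_cl (by omega)]; congr 1; omega
  rw [if_neg c3, if_neg c3]
  by_cases c4 : D.M y ≤ x
  · rw [if_pos c4, if_pos c4, colq_cr (by omega) (by omega)]; congr 1; omega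
  rw [if_neg c4, if_neg c4]
  by_cases c5 : p = true
  · rw [if_pos c5, if_pos c5]
    by_cases c6 : y = D.h - 1
    · rw [if_pos c6, if_pos c6, colq_t]
    rw [if_neg c6, if_neg c6]
    by_cases c7 : x < D.a (y + 1)
    · rw [if_pos c7, if_pos c7, colq_cl (by omega)]; congr 1; omega
    · rw [if_neg c7, if_neg c7, colq_cr (by omega) (by omega)]; congr 1; omega
  · rw [if_neg c5, if_neg c5]
    by_cases c6 : y = -1
    · rw [if_pos c6, if_pos c6, colq_0]
    rw [if_neg c6, if_neg c6]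
    by_cases c7 : x < D.a y
    · rw [if_pos c7, if_pos c7, colq_cl (by omega)]; congr 1; omega
    · rw [if_neg c7, if_neg c7, colq_cr (by omega) (by omega)]; congr 1; omega

/-! ### Fill tiles -/

/-- the union row by row -/
lemma union_row (h0 : -1 ≤ y) (h1 : y < D.h) (h2 : D.m y ≤ x) (h3 : x < D.M y) :
    ∃ Z, (Z = y ∨ Z = y + 1) ∧ PT D x Z := by
  have hP0 := D.P0
  have hP1 := D.P1
  have hQ0 := D.Q0
  have hQ1 := D.Q1
  unfold m mm at h2
  unfold M Pool.Agent.H46.Sp.MM at h3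
  unfold PT
  by_cases c1 : y + 1 < D.yP
  · rw [if_pos c1] at h2
    by_cases c2 : x < D.b (y + 1)
    · exact ⟨y + 1, Or.inr rfl, by omega, by omega, h2, c2⟩
    · by_cases c3 : y < D.yQ
      · rw [if_pos c3] at h3; omega
      · rw [if_neg c3] at h3
        have := D.ov1 y (by omega) (by omega)
        exact ⟨y, Or.inl rfl, by omega, h1, by omega, h3⟩
  · rw [if_neg c1] at h2
    by_cases c2 : x < D.b y
    · exact ⟨y, Or.inl rfl, by omega, h1, h2, c2⟩
    · by_cases c3 : y < D.yQ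
      · rw [if_pos c3] at h3
        have := D.ov2 y (by omega) (by omega)
        exact ⟨y + 1, Or.inr rfl, by omega, by omega, by omega, h3⟩
      · rw [if_neg c3] at h3; omega

/-- a fill tile in a row of the union is outside of it -/
lemma fill_out (h0 : -1 ≤ y) (h1 : y < D.h) (hf : Fill D p x y) : x < D.m y ∨ D.M y ≤ x := by
  by_contra hc
  push Not at hc
  obtain ⟨Z, hZ, h2, h3, h4, h5⟩ := union_row h0 h1 hc.1 hc.2
  refine hf ⟨Z, ?_, ?_, h2, h3, by omega, by omega⟩ <;>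
    rcases shY p y with h | h <;> omega

/-- a row near `Y` has a neighbour or itself among `y`, `y + 1` -/
lemma row_near {Z : ℤ} (h0 : -1 ≤ y) (h1 : y < D.h) (hY : Y = y ∨ Y = y + 1) (h2 : Y ≤ Z + 1)
    (h3 : Z ≤ Y + 1) (h4 : 0 ≤ Z) (h5 : Z < D.h) :
    ∃ W, (W = y ∨ W = y + 1) ∧ 0 ≤ W ∧ W < D.h ∧ Z ≤ W + 1 ∧ W ≤ Z + 1 := by
  by_cases c1 : Z < y
  · exact ⟨y, Or.inl rfl, by omega, by omega, by omega, by omega⟩
  · by_cases c2 : Z ≤ y
    · exact ⟨Z, Or.inl (by omega), by omega, by omega, by omega, by omega⟩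
    · exact ⟨y + 1, Or.inr rfl, by omega, by omega, by omega, by omega⟩

/-- left of a left fill tile there are only fill tiles -/
lemma fill_left {x' : ℤ} (h0 : -1 ≤ y) (h1 : y < D.h) (hf : Fill D p x y) (hx : x < D.m y)
    (hx' : x' ≤ x) : Fill D p x' y := by
  rintro ⟨Z, h2, h3, h4, h5, h6, h7⟩
  obtain ⟨W, hW, h8, h9, h10, h11⟩ := row_near h0 h1 (shY p y) h2 h3 h4 h5
  have h12 := ov (D := D) h8 h9 h4 h5 h11 h10
  have h13 := m_le_row (D := D) h8 h9 hW
  exact hf ⟨Z, h2, h3, h4, h5, by omega, by omega⟩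

/-- right of a right fill tile there are only fill tiles -/
lemma fill_right {x' : ℤ} (h0 : -1 ≤ y) (h1 : y < D.h) (hf : Fill D p x y) (hx : D.M y ≤ x)
    (hx' : x ≤ x') : Fill D p x' y := by
  rintro ⟨Z, h2, h3, h4, h5, h6, h7⟩
  obtain ⟨W, hW, h8, h9, h10, h11⟩ := row_near h0 h1 (shY p y) h2 h3 h4 h5
  have h12 := ov (D := D) h4 h5 h8 h9 h10 h11
  have h13 := row_le_M (D := D) h8 h9 hW
  exact hf ⟨Z, h2, h3, h4, h5, by omega, by omega⟩

/-- columns at the left of the window -/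
lemma fill_colL (hx : x + 2 ≤ D.a (D.yP - 1)) : Fill D p x y := by
  rintro ⟨Z, -, -, h4, h5, h6, -⟩
  have := a_min (D := D) h4 h5
  omega

/-- columns at the right of the window -/
lemma fill_colR (hx : D.b D.yQ + 1 ≤ x) : Fill D p x y := by
  rintro ⟨Z, -, -, h4, h5, -, h6⟩
  have := b_max (D := D) h4 h5
  omega

/-- rows below the window -/
lemma fill_bot (hy : y + sh p < -1) : Fill D p x y := by
  rintro ⟨Z, h1, h2, h4, -, -, -⟩
  omega

/-- rows above the window -/
lemma fill_top (hy : D.h < y + sh p) : Fill D p x y := by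
  rintro ⟨Z, h1, h2, -, h4, -, -⟩
  omega

/-! ### Layer tiles -/

/-- a floor on the left is below `P` -/
lemma floorL (h0 : 0 ≤ Y) (h1 : Y + 1 < D.h) (h : D.a (Y + 1) < D.a Y) : Y + 1 < D.yP := by
  by_contra hc
  by_cases h2 : D.yP ≤ Y
  · have := D.aU Y h2 h1; omega
  · have h3 : Y = D.yP - 1 := by omega
    subst h3
    have := D.aP (by omega)
    rw [show D.yP - 1 + 1 = D.yP by ring] at h
    omega

lemma floorR (h1 : Y + 1 < D.h) (h : D.b Y < D.b (Y + 1)) : Y < D.yQ := by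
  by_contra hc
  have := D.bU Y (by omega) h1
  omega

lemma ceilL (h0 : 1 ≤ Y) (h1 : Y < D.h) (h : D.a (Y - 1) < D.a Y) : D.yP ≤ Y := by
  by_contra hc
  have := D.aL (Y - 1) (by omega) (by omega)
  rw [show Y - 1 + 1 = Y by ring] at this
  omega

lemma ceilR (h0 : 1 ≤ Y) (h1 : Y < D.h) (h : D.b Y < D.b (Y - 1)) : D.yQ < Y := by
  by_contra hc
  by_cases h2 : Y < D.yQ
  · have := D.bL (Y - 1) (by omega) (by omega)
    rw [show Y - 1 + 1 = Y by ring] at this
    omega
  · have h3 : Y = D.yQ := by omega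
    subst h3
    have := D.bQ (by omega)
    omega

/-- direction towards `P` -/
def dr : Sd → ℤ × ℤ
  | .L => (1, 0)
  | .R => (-1, 0)
  | .F => (0, 1)
  | .C => (0, -1)

/-- the inner neighbour of a layer tile is in `P` -/
lemma lyP_in {s : Sd} (h : LyP D s x Y) : PT D (x + (dr s).1) (Y + (dr s).2) := by
  cases s
  · obtain ⟨h1, h2, h3, h4, h5⟩ := h
    have := D.ab Y h1 h2
    unfold PT dr; simp only; rw [add_zero]; omega
  · obtain ⟨h1, h2, h3, h4, h5⟩ := h
    have := D.ab Y h1 h2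
    unfold PT dr; simp only; rw [add_zero]; omega
  · obtain ⟨h1, h2, h3, h4, h5⟩ := h
    unfold PT dr; simp only; rw [add_zero]; omega
  · obtain ⟨h1, h2, h3, h4, h5⟩ := h
    unfold PT dr; simp only; rw [add_zero, ← sub_eq_add_neg]; omega

/-- a layer tile is not in `P` -/
lemma lyP_out {s : Sd} (h : LyP D s x Y) : ¬ PT D x Y := by
  cases s
  · obtain ⟨h1, h2, h3, h4, h5⟩ := h
    unfold PT; omega
  · obtain ⟨h1, h2, h3, h4, h5⟩ := h
    unfold PT; omega
  · obtain ⟨h1, h2, h3, h4, h5⟩ := h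
    unfold PT
    intro h6
    have := h5 h6.1
    omega
  · obtain ⟨h1, h2, h3, h4, h5⟩ := h
    unfold PT
    intro h6
    have := h5 h6.2.1
    omega

/-- the outer neighbour of a layer tile is not near `P` -/
lemma lyP_far {s : Sd} (h : LyP D s x Y) : ¬ NearP D (x - (dr s).1) (Y - (dr s).2) := by
  cases s
  · obtain ⟨h1, h2, h3, h4, h5⟩ := h
    unfold dr; simp only; rw [sub_zero]
    rintro ⟨Z, k1, k2, k3, k4, k5, k6⟩
    have h : Z = Y - 1 ∨ Z = Y ∨ Z = Y + 1 := by omega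
    rcases h with rfl | rfl | rfl
    · have := h4 (by omega); omega
    · omega
    · have := h5 (by omega); omega
  · obtain ⟨h1, h2, h3, h4, h5⟩ := h
    unfold dr; simp only; rw [sub_zero]
    rintro ⟨Z, k1, k2, k3, k4, k5, k6⟩
    have h : Z = Y - 1 ∨ Z = Y ∨ Z = Y + 1 := by omega
    rcases h with rfl | rfl | rfl
    · have := h4 (by omega); omega
    · omega
    · have := h5 (by omega); omega
  · obtain ⟨h1, h2, h3, h4, h5⟩ := h
    unfold dr; simp only; rw [sub_zero]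
    rintro ⟨Z, k1, k2, k3, k4, k5, k6⟩
    have hP1 := D.P1
    have hQ1 := D.Q1
    rcases h5 (by omega) with h6 | h6
    · have h7 := floorL (D := D) (by omega) h2 (by omega : D.a (Y + 1) < D.a Y)
      have := a_anti (D := D) (y := Z) (z := Y) k3 (by omega) (by omega)
      omega
    · have h7 := floorR (D := D) h2 (by omega : D.b Y < D.b (Y + 1))
      have := b_mono (D := D) (y := Z) (z := Y) k3 (by omega) (by omega)
      omega
  · obtain ⟨h1, h2, h3, h4, h5⟩ := h
    unfold dr; simp only; rw [sub_zero, sub_neg_eq_add]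
    rintro ⟨Z, k1, k2, k3, k4, k5, k6⟩
    rcases h5 (by omega) with h6 | h6
    · have h7 := ceilL (D := D) h1 (by omega) (by omega : D.a (Y - 1) < D.a Y)
      have := a_mono (D := D) (y := Y) (z := Z) h7 (by omega) k4
      omega
    · have h7 := ceilR (D := D) h1 (by omega) (by omega : D.b Y < D.b (Y - 1))
      have := b_anti (D := D) (y := Y) (z := Z) (by omega) (by omega) k4
      omega

/-- the kind of a layer tile is unique -/
lemma lyP_unique {s s' : Sd} (h : LyP D s x Y) (h' : LyP D s' x Y) : s = s' := by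
  have kLR : ¬ (LyP D .L x Y ∧ LyP D .R x Y) := by
    rintro ⟨⟨h1, h2, h3, h4, h5⟩, k1, k2, k3, k4, k5⟩
    have := D.ab Y h1 h2; omega
  have kLF : ¬ (LyP D .L x Y ∧ LyP D .F x Y) := by
    rintro ⟨⟨h1, h2, h3, h4, h5⟩, k1, k2, k3, k4, k5⟩
    have := D.ab Y h1 h2
    have := k5 h1; omega
  have kLC : ¬ (LyP D .L x Y ∧ LyP D .C x Y) := by
    rintro ⟨⟨h1, h2, h3, h4, h5⟩, k1, k2, k3, k4, k5⟩
    have := D.ab Y h1 h2
    have := k5 h2; omega
  have kRF : ¬ (LyP D .R x Y ∧ LyP D .F x Y) := by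
    rintro ⟨⟨h1, h2, h3, h4, h5⟩, k1, k2, k3, k4, k5⟩
    have := D.ab Y h1 h2
    have := k5 h1; omega
  have kRC : ¬ (LyP D .R x Y ∧ LyP D .C x Y) := by
    rintro ⟨⟨h1, h2, h3, h4, h5⟩, k1, k2, k3, k4, k5⟩
    have := D.ab Y h1 h2
    have := k5 h2; omega
  have kFC : ¬ (LyP D .F x Y ∧ LyP D .C x Y) := by
    rintro ⟨⟨h1, h2, h3, h4, h5⟩, k1, k2, k3, k4, k5⟩
    have h6 := D.ab Y (by omega) (by omega)
    have hP1 := D.P1
    have hQ1 := D.Q1
    rcases h5 (by omega) with h7 | h7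
    · have h8 := floorL (D := D) (by omega) h2 (by omega : D.a (Y + 1) < D.a Y)
      rcases k5 (by omega) with k6 | k6
      · have k8 := ceilL (D := D) k1 (by omega) (by omega : D.a (Y - 1) < D.a Y)
        omega
      · omega
    · have h8 := floorR (D := D) h2 (by omega : D.b Y < D.b (Y + 1))
      rcases k5 (by omega) with k6 | k6
      · omega
      · have k8 := ceilR (D := D) k1 (by omega) (by omega : D.b Y < D.b (Y - 1))
        omega
  cases s <;> cases s' <;> first | rfl | (exfalso; tauto)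

/-- a layer tile is near the window -/
lemma lyP_box {s : Sd} (h : LyP D s x Y) : D.a (D.yP - 1) ≤ x + 1 ∧ x ≤ D.b D.yQ ∧ -1 ≤ Y ∧ Y ≤ D.h := by
  cases s
  · obtain ⟨h1, h2, h3, h4, h5⟩ := h
    have := D.ab Y h1 h2
    have := a_min (D := D) h1 h2
    have := b_max (D := D) h1 h2
    omega
  · obtain ⟨h1, h2, h3, h4, h5⟩ := h
    have := D.ab Y h1 h2
    have := a_min (D := D) h1 h2
    have := b_max (D := D) h1 h2
    omega
  · obtain ⟨h1, h2, h3, h4, h5⟩ := h
    have := a_min (D := D) (y := Y + 1) (by omega) h2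
    have := b_max (D := D) (y := Y + 1) (by omega) h2
    omega
  · obtain ⟨h1, h2, h3, h4, h5⟩ := h
    have := a_min (D := D) (y := Y - 1) (by omega) (by omega)
    have := b_max (D := D) (y := Y - 1) (by omega) (by omega)
    omega

section world

variable {s : Sd}

lemma LyA.inn (h : LyA D p s x y) : InP D p (x + (dr s).1) (y + (dr s).2) := by
  have := lyP_in h
  rw [inP_iff]
  rwa [show y + (dr s).2 + sh p = y + sh p + (dr s).2 by ring]

lemma LyA.out (h : LyA D p s x y) : ¬ InP D p x y := lyP_out h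

lemma LyA.far (h : LyA D p s x y) : Fill D p (x - (dr s).1) (y - (dr s).2) := by
  have := lyP_far h
  unfold Fill
  rwa [show y - (dr s).2 + sh p = y + sh p - (dr s).2 by ring]

lemma LyA.unique {s' : Sd} (h : LyA D p s x y) (h' : LyA D p s' x y) : s = s' := lyP_unique h h'

lemma LyA.box (h : LyA D p s x y) :
    D.a (D.yP - 1) ≤ x + 1 ∧ x ≤ D.b D.yQ ∧ -2 ≤ y ∧ y ≤ D.h := by
  have h1 := lyP_box h
  have h2 := sh_nonneg p
  have h3 := sh_le p
  omega

lemma LyA.near (h : LyA D p s x y) : NearP D x (y + sh p) := by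
  obtain ⟨h1, h2, h3, h4⟩ := lyP_in h
  refine ⟨y + sh p + (dr s).2, ?_, ?_, h1, h2, ?_, ?_⟩ <;> cases s <;> unfold dr at h3 h4 ⊢ <;>
    simp only at h3 h4 ⊢ <;> omega

lemma LyA.ring (h : LyA D p s x y) : Ring D p x y := ⟨h.near, h.out⟩

/-- the box contains the tiles around a layer tile -/
lemma LyA.inB {u v : ℤ} (h : LyA D p s x y) (h1 : x ≤ u + 2) (h2 : u ≤ x + 2) (h3 : y ≤ v + 2)
    (h4 : v ≤ y + 2) : InB D u v := by
  have h5 := h.box
  unfold InB
  omega

end world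

end Pool.Agent.H13.Sp
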